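import Pool.Agent.Lib.MP_776403_ag.SD.SpecB
import Pool.Agent.Lib.MP_776403_ag.SD.SpecD
import Pool.Agent.Lib.MP_776403_ag.SD.M.NN
import Pool.Agent.Lib.MP_776403_ag.SD.V.Spec
import Pool.Agent.Lib.MP_776403_ag.SD.Z.RSpec

/-!
# THEOREM Q1: the whole range `n ≥ deg X + 1`

Statements with complete proofs in the docstrings.  Closed forms of the tools are in `SD/Main.lean`
(`mKrull : S_Krull`, `tNull : S_Null`, `mPerp : S_Perp`, `tTB : S_TB`, `tMono : S_Mono`, `tD1 : S_D1`,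
`nBin : S_NBin`, `tMinor : S_Minor`, `tDetHom : S_DetHom`, `mN2 tD1 tD6p tNull mPerp : S_N2`); a module
may import `SD.Main` (and `SD.M.NN`) and use them, or take the statements as hypotheses.

Part 1 (`SQ…`): numerical.  Part 2: a variety of type `(2, …, 2, 3)` without the use of lines.
-/

set_option autoImplicit false

open MvPolynomial

noncomputable section

namespace Pool.Agent.Lib.MP_776403_ag.SD.Q1

variable {N : ℕ}

/-! ## Part 1: numbers -/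

/-- (Rec) NEWTON'S IDENTITIES FOR THE CHERN ROOTS, with Bernoulli numbers.

PROOF.  `SDV.pBer c x` : `X * derivative (gx x) = gx x * ∑ j, rescale (x j) (mk fun k => B_k / k!)`.
Coefficient of `X ^ k` (`k < m`): on the left `k * coeff k (gx x)` (`k = 0`: `0`; `k = k' + 1`:
`PowerSeries.coeff_succ_X_mul`, `PowerSeries.coeff_derivative`); on the right
`∑_(i + j = k) coeff i (gx x) * (∑ l, (x l) ^ j * B_j / j!)` (`PowerSeries.coeff_mul`,
`Finset.Nat.sum_antidiagonal_eq_sum_range_succ_mk`, `PowerSeries.coeff_rescale`).  For `i ≤ k < m`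
`coeff i (gx x) = coeff i (tau F)` by `hdiv` (`PowerSeries.X_pow_dvd_iff`). -/
def S_Rec : Prop :=
  ∀ (c m : ℕ) (F : Polynomial ℤ) (x : Fin c → ℂ),
    (PowerSeries.X : PowerSeries ℂ) ^ m ∣ SDV.tau F - SDV.gx x → ∀ k, k < m →
    (k : ℂ) * PowerSeries.coeff k (SDV.tau F) = ∑ j ∈ Finset.range (k + 1),
      PowerSeries.coeff (k - j) (SDV.tau F) *
        (((_root_.bernoulli j : ℚ) : ℂ) / (j.factorial : ℂ) * ∑ l, x l ^ j)

/-- (Num3a) Codimension 3, `h = (1, a, b, a, 1)`.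

PROOF (`S_Rec`).  `F = (1 - X)^3 * (1 + a X + b X^2 + a X^3 + X^4)`; coefficients of `tau F`:
`coeff k (tau F) = ∑ F_i (-i)^k / k!` (`SDV.pT2`), `= 0` for `k < 3`; write `F` out as an explicit
polynomial of degree 7 in `X`.  With `D = 2 + 2 a + b`: `S_Rec` for `k = 4`, `5`, `7` gives the power
sums (`B_1 = -1/2`, `B_2 = 1/6`, `B_3 = 0`, `B_4 = -1/30`)
`p_1 = 7`, `p_2 = 3 + 12 ν_2 / D`, `p_4 = 3 - 120 ν_4 / D + 360 ν_2^2 / D^2`, where
`ν_2 = 2 a + 8`, `ν_4 = 2 a + 32` (`ν_k = ∑ h_i (i - 2)^k`), and `x_0 x_1 x_2 = D`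
(`SDV.pPr`, or the coefficient 3).  `e_1 = 7`, `e_3 = D`, `e_2 = (49 - p_2) / 2` and
`p_4 = e_1^4 - 4 e_1^2 e_2 + 2 e_2^2 + 4 e_1 e_3` (`ring`).  This fails (`norm_num`) for all
`(a, b)` with `a ≥ 3`, `11 ≤ D ≤ 13` (`(3,3), (3,4), (3,5), (4,1), (4,2), (4,3), (5,0), (5,1)`;
`interval_cases`) except `(3, 4)`: the difference of the two sides is
`-216/121, 0, 128/169, -1128/121, 4, 2192/169, -8, 1952/169`.  For `(3, 4)`: `p_2 = 17`, `e_2 = 16`,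
`e_3 = 12`: `∏ (T - x_i) = T^3 - 7 T^2 + 16 T - 12 = (T-2)^2 (T-3)`; so every `x_i` is `2` or `3` and
the sum is `7`. -/
def S_Num3a : Prop :=
  ∀ (a b m : ℕ) (x : Fin 3 → ℂ), 8 ≤ m → 3 ≤ a → 11 ≤ 2 + 2 * a + b → 2 + 2 * a + b ≤ 13 →
    (PowerSeries.X : PowerSeries ℂ) ^ m ∣ SDV.tau ((1 - Polynomial.X) ^ 3 *
      (1 + Polynomial.C (a : ℤ) * Polynomial.X + Polynomial.C (b : ℤ) * Polynomial.X ^ 2 +
        Polynomial.C (a : ℤ) * Polynomial.X ^ 3 + Polynomial.X ^ 4)) - SDV.gx x →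
    a = 3 ∧ b = 4 ∧ ∃ d : Fin 3 → ℕ, (∀ i, x i = d i) ∧ (∀ i, d i = 2 ∨ d i = 3) ∧ ∑ i, d i = 7

/-- (Num3b) Codimension 3, `h = (1, a, b, b, a, 1)`, `D = 2 + 2 a + 2 b = 14`.

PROOF.  As `S_Num3a`: `p_1 = 8`, `p_2 = 3 + 12 ν_2 / D`, `p_4 = 3 - 120 ν_4 / D + 360 ν_2^2 / D^2`,
`ν_k = ∑ h_i (i - 5/2)^k`, and `p_4 ≠ e_1^4 - 4 e_1^2 e_2 + 2 e_2^2 + 4 e_1 e_3` for
`(a, b) = (3,3), (4,2), (5,1), (6,0)` (differences `-256/49, -256/7, -5632/49, -11776/49`). -/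
def S_Num3b : Prop :=
  ∀ (a b m : ℕ) (x : Fin 3 → ℂ), 8 ≤ m → 3 ≤ a → a + b = 6 →
    ¬ (PowerSeries.X : PowerSeries ℂ) ^ m ∣ SDV.tau ((1 - Polynomial.X) ^ 3 *
      (1 + Polynomial.C (a : ℤ) * Polynomial.X + Polynomial.C (b : ℤ) * Polynomial.X ^ 2 +
        Polynomial.C (b : ℤ) * Polynomial.X ^ 3 + Polynomial.C (a : ℤ) * Polynomial.X ^ 4 +
        Polynomial.X ^ 5)) - SDV.gx x

/-- (Num3c) Codimension 3, `h = (1, a, b, e, b, a, 1)`, `D = 2 + 2 a + 2 b + e = 17`.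

PROOF.  As `S_Num3a`: `p_1 = 9`, `ν_k = ∑ h_i (i - 3)^k`; `e` is odd; for `(a, b, e)` with `a ≥ 3`,
`2 a + 2 b + e = 15` (15 cases) the identity for `p_4` fails (differences times 289: `e = 1`:
`-21096, -40248, -80136, -140760, -222120` for `a = 3, …, 7`; `e = 3`: `-3000, -15240, -48216, -101928`;
`e = 5`: `12792, 7464, -18600`; `e = 7`: `26280, 27864`; `e = 9`: `37464`). -/
def S_Num3c : Prop :=
  ∀ (a b e m : ℕ) (x : Fin 3 → ℂ), 8 ≤ m → 3 ≤ a → 2 * a + 2 * b + e = 15 →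
    ¬ (PowerSeries.X : PowerSeries ℂ) ^ m ∣ SDV.tau ((1 - Polynomial.X) ^ 3 *
      (1 + Polynomial.C (a : ℤ) * Polynomial.X + Polynomial.C (b : ℤ) * Polynomial.X ^ 2 +
        Polynomial.C (e : ℤ) * Polynomial.X ^ 3 + Polynomial.C (b : ℤ) * Polynomial.X ^ 4 +
        Polynomial.C (a : ℤ) * Polynomial.X ^ 5 + Polynomial.X ^ 6)) - SDV.gx x

/-- (Num4) Codimension 4, `h = (1, a, b, a, 1)`, `14 ≤ D = 2 + 2 a + b ≤ 15`.

PROOF (`S_Rec` for `k = 5, 6, 8, 10`).  `p_1 = 8`, `p_2 = 4 + 12 ν_2 / D`,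
`p_4 = 4 - 120 ν_4 / D + 360 ν_2^2 / D^2`, and `p_6` (`B_6 = 1/42`), `ν_k = ∑ h_i (i - 2)^k`.
`e_1 = 8`, `e_4 = D` (coefficient 4, `SDV.pPr`), `e_2 = (64 - p_2)/2`, `e_3` from
`p_4 = e_1^4 - 4 e_1^2 e_2 + 2 e_2^2 + 4 e_1 e_3 - 4 e_4`; then the Newton identity for `p_6`
(`p_2, p_3, p_4` in terms of the `e_i` by `ring`; each `x_i` is a root of
`T^4 - e_1 T^3 + e_2 T^2 - e_3 T + e_4`, so `p_5 = e_1 p_4 - e_2 p_3 + e_3 p_2 - e_4 p_1`,
`p_6 = e_1 p_5 - e_2 p_4 + e_3 p_3 - e_4 p_2`) fails for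
`(a, b) = (4,4), (4,5), (5,2), (5,3), (6,0), (6,1)`: `p_2 = 124/7, 84/5, …`,
`p_4 = 6436/49, 468/5, …`, `p_6 = 68308/49, 17796/25, …` for `(4,4), (4,5)`; differences
`-1918485/153664, -38637/10000, -17733069/153664, -771357/10000, -51913485/153664, -3717/16`. -/
def S_Num4 : Prop :=
  ∀ (a b m : ℕ) (x : Fin 4 → ℂ), 11 ≤ m → 4 ≤ a → 14 ≤ 2 + 2 * a + b → 2 + 2 * a + b ≤ 15 →
    ¬ (PowerSeries.X : PowerSeries ℂ) ^ m ∣ SDV.tau ((1 - Polynomial.X) ^ 4 *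
      (1 + Polynomial.C (a : ℤ) * Polynomial.X + Polynomial.C (b : ℤ) * Polynomial.X ^ 2 +
        Polynomial.C (a : ℤ) * Polynomial.X ^ 3 + Polynomial.X ^ 4)) - SDV.gx x

/-- (Num5) Codimension 5, `h = (1, a, b, a, 1)`, `D = 2 + 2 a + b = 17`.

PROOF (`S_Rec` for `k = 6, 7, 9, 11, 13`).  `p_1 = 9`, `p_2`, `p_4`, `p_6`, `p_8` (`B_6 = 1/42`,
`B_8 = -1/30`); `(a, b) = (5,5), (6,3), (7,1)`; for `(5,5)`: `p_2 = 301/17`, `p_4 = 32405/289`,
`p_6 = 5584189/4913`, `p_8 = 1045032485/83521`.  `e_1 = 9`, `e_5 = 17`, `e_2 = (81 - p_2)/2`,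
`e_4 = (e_1^4 - 4 e_1^2 e_2 + 2 e_2^2 - p_4)/4 + e_1 e_3`; the Newton identities for `p_6` and `p_8` give
two quadratic equations for `e_3` without a common root:
`(5,5)`: `3 e_3^2 - 29052/17 e_3 + 420119796/4913 = 0`,
`-4304/17 e_3^2 - 2247776/289 e_3 + 100981333920/83521 = 0`;
`(6,3)`: `3, -28404/17, 397532892/4913` and `-4208/17, -3207680/289, 109016004864/83521`;
`(7,1)`: `3, -27756/17, 376851972/4913` and `-4112/17, -4084640/289, 115741831008/83521`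
(eliminate `e_3^2`, solve for `e_3`, substitute: `norm_num`). -/
def S_Num5 : Prop :=
  ∀ (a b m : ℕ) (x : Fin 5 → ℂ), 14 ≤ m → 5 ≤ a → 2 + 2 * a + b = 17 →
    ¬ (PowerSeries.X : PowerSeries ℂ) ^ m ∣ SDV.tau ((1 - Polynomial.X) ^ 5 *
      (1 + Polynomial.C (a : ℤ) * Polynomial.X + Polynomial.C (b : ℤ) * Polynomial.X ^ 2 +
        Polynomial.C (a : ℤ) * Polynomial.X ^ 3 + Polynomial.X ^ 4)) - SDV.gx x

/-! ## Part 2: without lines -/

/-- The hypotheses for part 2. -/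
structure Hyp (I : Ideal (Sx N)) {c : ℕ} (d : Fin c → ℕ) : Prop where
  pos : 1 ≤ c
  two_le : ∀ i, 2 ≤ d i
  large : 5 * c ≤ N + 1
  prime : I.IsPrime
  hom : IsHom I
  nd : ∀ F ∈ I, F.IsHomogeneous 1 → F = 0
  smooth : Smooth I c
  numW : ∀ J : Ideal (Sx N), J.IsPrime → IsHom J → I ≤ J → NumErr I J d c
  reg : RegBound I d

/-- Version of `SD.S_Ne`. -/
def S_Ne : Prop :=
  ∀ (N c : ℕ) (d : Fin c → ℕ) (I : Ideal (Sx N)), Hyp I d → ∃ y ∈ zer I, y ≠ 0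

/-- Version of `SD.S_B1K`. -/
def S_B1K : Prop :=
  ∀ (N c : ℕ) (d : Fin c → ℕ) (I : Ideal (Sx N)), Hyp I d → ∀ (K : ℕ) (G : Fin c → Sx N),
    Data I d K G →
    (∀ k ≤ K, hci d N k ≤ Module.finrank ℂ (gr (Ideal.span (G '' {i | d i ≤ K})) k)) ∧
    hci d N (K + 1) + Nat.card {i : Fin c // d i = K + 1} ≤
      Module.finrank ℂ (gr (Ideal.span (G '' {i | d i ≤ K})) (K + 1))

/-- Version of `SD.S_RegDim`. -/
def S_RegDim : Prop :=
  ∀ (N c : ℕ) (d : Fin c → ℕ) (I : Ideal (Sx N)), Hyp I d → ∀ k : ℕ,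
    ∃ P : Fin (Module.finrank ℂ (gr I k)) → Sx N, (∀ i, (P i).IsHomogeneous k) ∧
      ∃ f : Fin (Module.finrank ℂ (gr I k)) → (Vx N → ℂ), (∀ i, IsReg I k (f i)) ∧
        LinearIndependent ℂ f ∧ ∀ i, ∀ y ∈ zer I, y ≠ 0 → f i y = eval y (P i)

/-- Version of `SD.S_B2`. -/
def S_B2 : Prop :=
  ∀ (N c : ℕ) (d : Fin c → ℕ) (I : Ideal (Sx N)), Hyp I d → ∀ (K : ℕ) (G : Fin c → Sx N),
    Data I d K G → ∀ k ≤ K, ∀ F : Vx N → ℂ, IsReg I k F →
    ∃ P : Sx N, P.IsHomogeneous k ∧ ∀ y ∈ zer I, y ≠ 0 → F y = eval y P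

/-- Version of `SD.S_W`. -/
def S_W : Prop :=
  ∀ (N c : ℕ) (d : Fin c → ℕ) (I : Ideal (Sx N)), Hyp I d → ∀ (K : ℕ) (G : Fin c → Sx N),
    Data I d K G →
    ∃ F : {i : Fin c // d i = K + 1} → Sx N, (∀ i, F i ∈ I ∧ (F i).IsHomogeneous (K + 1)) ∧
      ∀ a : {i : Fin c // d i = K + 1} → ℂ,
        ∑ i, C (a i) * F i ∈ Ideal.span (G '' {i | d i ≤ K}) → a = 0

/-- Version of `SD.S_B3`. -/
def S_B3 : Prop :=
  ∀ (N c : ℕ) (d : Fin c → ℕ) (I : Ideal (Sx N)), Hyp I d → ∀ (K : ℕ) (G : Fin c → Sx N),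
    1 ≤ K → Data I d K G → ∀ F ∈ I, F.IsHomogeneous (K + 1) →
    F ∉ Ideal.span (G '' {i | d i ≤ K}) → ∃ y ∈ zer I, y ≠ 0 ∧ grad F y ∉ GS d K G y

/-- (Lin) A prime with `D` independent coordinates contains at most `N + 1 - D` independent linear
forms.

PROOF.  `i : Fin D → Fin (N + 1)` with the `mk (X (i k))` algebraically independent, so linearly
independent over `ℂ` (`AlgebraicIndependent.linearIndependent`).  The linear map
`W × (Fin D → ℂ) → (Fin (N + 1) → ℂ)`, `(F, a) ↦` the coefficients (`coeff (Finsupp.single j 1)`) of the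
linear form `F + ∑ C (a k) * X (i k)`, is injective: if the linear form is `0` then
`∑ a k • mk (X (i k)) = - mk F = 0`, so `a = 0` and `F = 0` (a linear form with coefficients `0` is `0`).
`Module.finrank_prod`, `LinearMap.finrank_le_finrank_of_injective`.  (`W` is finite-dimensional: a
submodule of `homogeneousSubmodule _ ℂ 1`; or first show that the coefficient map is injective on
`W`.) -/
def S_Lin : Prop :=
  ∀ (N D : ℕ) (P : Ideal (Sx N)), DimGe P D → ∀ W : Submodule ℂ (Sx N),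
    (∀ F ∈ W, F.IsHomogeneous 1 ∧ F ∈ P) → Module.finrank ℂ W + D ≤ N + 1

/-- The span of the partial derivatives of `Q`. -/
def VQ (Q : Sx N) : Submodule ℂ (Sx N) := Submodule.span ℂ (Set.range fun j => pderiv j Q)

/-- (RK) THE RANK OF A QUADRIC THROUGH `X`.

PROOF.  `r = finrank (VQ Q)`; the `pderiv j Q` are linear forms.
(1) There is `z₀ ∈ zer I`, `z₀ ≠ 0` with `ξ = grad Q z₀ ≠ 0`: otherwise every `pderiv j Q` vanishes on
the punctured cone, is in `I` (`S_Null`, second part, `S_Ne`), is `0` (`nd`), and `2 Q = ∑ X_j pderiv j Q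
= 0` (`IsHomogeneous.sum_X_mul_pderiv`).  Choose `k` with `ξ k ≠ 0`.
(2) `λ_j = C (ξ k) * pderiv j Q - C (ξ j) * pderiv k Q`, `Λ = span ℂ (range λ) ≤ VQ Q`; all elements of `Λ`
vanish at `z₀`, `pderiv k Q` does not: `finrank Λ ≤ r - 1` (`Submodule.finrank_lt_finrank_of_lt`; `VQ Q` is
finite-dimensional).  `b` = a basis of `Λ` (`r' = finrank Λ` forms).
(3) `J = I ⊔ span (range λ)` is homogeneous, `z₀ ∈ zer J`.  With the local equations `F`, `h` of `Smooth` at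
`z₀`: `J ≤ span (range (F, b)) ⊔ ptI z₀ * J` (for `G ∈ I`: `h G ∈ span (range F)`,
`G = h(z₀)⁻¹ h G - h(z₀)⁻¹ (h - C h(z₀)) G`).  `S_Krull` (weights `1`, `IsWH (fun _ => 1)` is `IsHom` by
`weightedHomogeneousComponent_one`; `g = c + r'`, index `Fin (c + r')`, `Fin.append`) and `S_TB`: a
homogeneous prime `P ≥ J`, `P ≤ ptI z₀`, `DimGe P (N + 1 - (c + r'))`.
(4) For `y ∈ zer P`, `y ≠ 0`: `ξ ∈ CN I y` by the last part of `S_Perp`: let `w ∈ TF I` be homogeneous,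
`T = ∑ C (ξ i) * w i`.  `C (ξ k) * ∑ pderiv j Q * w j = ∑ λ_j w_j + pderiv k Q * T`, the left side is in
`I ≤ P`, `λ_j ∈ P`, `pderiv k Q ∉ P` (its value at `z₀ ∈ zer P` is `ξ k`), so `T ∈ P` and `eval y T = 0`.
So the constant `ξ` is a section of degree `1` over `P` (`IsSect I P 1 (fun _ => ξ)`: `P l = C (ξ l)`,
`Q = 1`, `e = 0`).
(5) `S_N2` (`J := P`, `e := c`, `q := 0`, `del := fun _ => 1`; `d j ≠ 1`): `¬ DimGe P (c + (c - 0) + 1)`.  So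
`N + 1 - (c + r') ≤ 2 c` (`S_Mono`), `N + 1 ≤ 3 c + r' ≤ 3 c + r - 1`. -/
def S_RK : Prop :=
  ∀ (N c : ℕ) (d : Fin c → ℕ) (I : Ideal (Sx N)), Hyp I d → ∀ Q ∈ I, Q.IsHomogeneous 2 → Q ≠ 0 →
    N + 2 ≤ 3 * c + Module.finrank ℂ (VQ Q)

/-- (Z) QUADRICS SINGULAR AT A POINT OF `X`.

PROOF.  `Smooth` at `y`: `F`, `f`, `h`, `e`.  `h Q = ∑ a_i F_i` with `a_i` homogeneous (take the component
of degree `e + 2`: `a_i` of degree `e + 2 - f i`, or `a_i = 0` if `f i > e + 2`).  Gradients at `y`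
(`grad_mul_of_zero`, `grad_sum`; `Q(y) = F_i(y) = 0`): `0 = h(y) grad Q (y) = ∑ a_i(y) grad (F_i) y`, so
`a_i(y) = 0`.  `J = I ⊔ span (range a)` is homogeneous, `y ∈ zer J`,
`J ≤ span (range (F, a)) ⊔ ptI y * J` (as in `S_RK` (3)); `S_Krull` with `g = c + c`, `S_TB`: a homogeneous
prime `P ≥ J`, `P ≤ ptI y`, `DimGe P (N + 1 - (c + c))`.  Derivatives of `h Q = ∑ a_i F_i`:
`h ∂_j Q + Q ∂_j h = ∑ (a_i ∂_j F_i + F_i ∂_j a_i)`, so `h ∂_j Q ∈ P`, `h ∉ P` (`h(y) ≠ 0`), `∂_j Q ∈ P`.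
`S_Lin` for `VQ Q`. -/
def S_Z : Prop :=
  ∀ (N c : ℕ) (I : Ideal (Sx N)), 2 * c ≤ N + 1 → I.IsPrime → IsHom I → Smooth I c →
    ∀ Q ∈ I, Q.IsHomogeneous 2 → ∀ y ∈ zer I, y ≠ 0 → grad Q y = 0 →
    Module.finrank ℂ (VQ Q) ≤ 2 * c

/-- (QN) No quadric through `X` is singular at a point of `X`.  PROOF.  `S_RK`, `S_Z`, `large`. -/
def S_QN : Prop :=
  ∀ (N c : ℕ) (d : Fin c → ℕ) (I : Ideal (Sx N)), Hyp I d → ∀ Q ∈ I, Q.IsHomogeneous 2 → Q ≠ 0 →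
    ∀ y ∈ zer I, y ≠ 0 → grad Q y ≠ 0

/-- The minor of the Jacobian matrix of `G`. -/
def mnr {c : ℕ} (G : Fin c → Sx N) (α : Fin c → Fin (N + 1)) : Sx N :=
  Matrix.det (Matrix.of fun i k => pderiv (α k) (G i))

/-- (Div) THE DIVISOR OF `dG_1 ∧ … ∧ dG_c`.

PROOF.  `J = I ⊔ span (range (mnr G))`: homogeneous (`mnr G α` is a form: `S_DetHom`,
`IsHomogeneous.pderiv`), `y ∈ zer J` (the rows of the matrices of values are dependent, so the
determinants vanish: `eval y (mnr G α) = det (grad (G i) y (α k))`).  `Smooth` at `y`: `F`, `f`, `h`;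
`S_Minor`: `α₀` with `μ = mnr F α₀`, `μ(y) ≠ 0`.  `h G_i = ∑_j A_ij F_j` for some `A` (`h * G i ∈ span
(range F)`).  Modulo `I`: `h ∂_k G_i ≡ ∑_j A_ij ∂_k F_j` (product rule, `G_i, F_j ∈ I`), so for all `α`
`h^c mnr G α ≡ det A * mnr F α` (determinants in `Sx N ⧸ I`: `RingHom.map_det`, `Matrix.det_mul`,
`Matrix.det_smul`), and `μ h^c mnr G α ≡ det A μ mnr F α ≡ h^c mnr G α₀ mnr F α`: it is in
`I ⊔ span {mnr G α₀}`.  So with `u = μ h^(c+1)`: `u J ⊆ span (range (F, mnr G α₀))` (for `G' ∈ I`: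
`h G' ∈ span (range F)`), `u(y) ≠ 0`, and `J ≤ span (range (F, mnr G α₀)) ⊔ ptI y * J`.
`S_Krull` (`g = c + 1`), `S_TB`: `P`. -/
def S_Div : Prop :=
  ∀ (N c : ℕ) (I : Ideal (Sx N)), I.IsPrime → IsHom I → Smooth I c →
    ∀ (G : Fin c → Sx N) (f : Fin c → ℕ), (∀ i, G i ∈ I ∧ (G i).IsHomogeneous (f i)) →
    ∀ y ∈ zer I, y ≠ 0 → ¬ LinearIndependent ℂ (fun i => grad (G i) y) →
    ∃ P : Ideal (Sx N), P.IsPrime ∧ IsHom P ∧ I ≤ P ∧ DimGe P (N + 1 - (c + 1)) ∧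
      ∀ α, mnr G α ∈ P

/-- (Cnt) COUNTING.

PROOF.  `a = ∑ f i = ∑ d i`.  Let `m ≥ a`.  `Φ : gr I (m - a) → Lam I I c m`,
`mk B ↦ (mk (B * mnr G α))_α` (`B` a form of degree `m - a`), is linear and injective (`mnr G α₁ ∉ I` for
some `α₁`: `S_Minor` at `y₀`; `I` prime).  `ρ` : reduction modulo `P` of the coordinates
(`Ideal.Quotient.factorₐ`): maps `Lam I I c m` onto `Lam I P c m` (generators to generators) and the image
of `Φ` to `0`.  `Lam I I c m` is finite-dimensional (its elements have coordinates in `gr I (m - c)`, a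
finite-dimensional space: all `a * det` are forms of degree `m - c`; `det = 0` if some `f i = 0`; or
`S_KLF`/`S_KHV`).  So `finrank (Lam I P c m) + finrank (gr I (m - a)) ≤ finrank (Lam I I c m)`
(rank-nullity for `ρ` on `Lam I I c m`).  `hyp.numW` for `I` and for `P` with `j = c`
(`Finset.powersetCard_self`): `finrank (gr P (m - a))` differs from `finrank (Lam I P c m)` and
`finrank (gr I (m - a))` from `finrank (Lam I I c m)` by `O((m+1)^(c-1))`, so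
`finrank (gr P (m - a)) ≤ C (m + 1)^(c-1)` for large `m`.  `S_D1` with `D + 1 = N - c`:
`choose (m' + (N - c - 1)) (N - c - 1) ≤ finrank (gr P m')`, `m' = m - a`,
`(m + 1)^(c-1) ≤ (a + 1)^(c-1) (m' + 1)^(c-1) ≤ (a + 1)^(c-1) (m' + 1)^(N-c-2)` (`2 c + 1 ≤ N` by `large`), and
`S_NBin` (`p = N - c - 1`) is a contradiction. -/
def S_Cnt : Prop :=
  ∀ (N c : ℕ) (d : Fin c → ℕ) (I : Ideal (Sx N)), Hyp I d →
    ∀ (G : Fin c → Sx N) (f : Fin c → ℕ), (∀ i, G i ∈ I ∧ (G i).IsHomogeneous (f i)) →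
    ∑ i, f i = ∑ i, d i → ∀ y₀ ∈ zer I, y₀ ≠ 0 → LinearIndependent ℂ (fun i => grad (G i) y₀) →
    ∀ P : Ideal (Sx N), P.IsPrime → IsHom P → I ≤ P → DimGe P (N + 1 - (c + 1)) →
    (∀ α, mnr G α ∈ P) → False

/-- (DET) PROOF.  `S_Div`, `S_Cnt`. -/
def S_DET : Prop :=
  ∀ (N c : ℕ) (d : Fin c → ℕ) (I : Ideal (Sx N)), Hyp I d →
    ∀ (G : Fin c → Sx N) (f : Fin c → ℕ), (∀ i, G i ∈ I ∧ (G i).IsHomogeneous (f i)) →
    ∑ i, f i = ∑ i, d i → ∀ y₀ ∈ zer I, y₀ ≠ 0 → LinearIndependent ℂ (fun i => grad (G i) y₀) →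
    ∀ y ∈ zer I, y ≠ 0 → LinearIndependent ℂ (fun i => grad (G i) y)

/-- (D12) The quadrics.

PROOF.  `S_W` with `K = 1` and any `G` (`Data I d 1 0` as `data_one` in `H/Ind.lean`): forms
`F i ∈ I` of degree `2` for `d i = 2`, linearly independent (`span (0 '' …) = ⊥`, the set
`{i | d i ≤ 1}` is empty).  `G i = F i` if `d i = 2`, else `0`.  `Data I d 2 G`: `hom` clear (`d i ≤ 2` iff
`d i = 2`).  `ind`: a relation between the `grad (G i) y` is `grad Q y = 0` for `Q = ∑ C (a i) * G i`, so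
`Q = 0` (`S_QN`), `a = 0`.  `gen`: degrees `0`, `1` as `data_one`.  Let `F ∈ I` be a quadric,
`F ∉ span (G '' {i | d i ≤ 2})`; then `F` and the `G i` (`d i = 2`) are linearly independent quadrics, and
(`S_QN`) their gradients are independent at all points of `X`.  `S_N2` with `J = I`, `e = c`,
`q = card {i // d i = 2}`, `f` an enumeration, `sig = Fin.snoc (grad (G (f i))) (grad F)` (sections:
`sect_grad` in `H/B5.lean`), `del = 2`: `¬ DimGe I (c + (c - q) + 1)`.  But `DimGe I (N + 1 - c)`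
(`S_Krull` for `J = I` at a point, `g = c`: a prime `P ≥ I`, then `S_TB`, and independence modulo `P ≥ I`
gives independence modulo `I`), and `2 c + 1 ≤ N + 1 - c` (`large`), `S_Mono`: contradiction. -/
def S_D12 : Prop :=
  ∀ (N c : ℕ) (d : Fin c → ℕ) (I : Ideal (Sx N)), Hyp I d → ∃ G : Fin c → Sx N, Data I d 2 G

/-- (D23) The cubic.

PROOF.  If no `d i` is `3`: `G' = G`.  `gen` for degree `3`: if `F ∈ I` is a cubic, `F ∉ span (G '' …)`,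
then `S_B3` (`K = 2`): `y` with `grad F y ∉ GS d 2 G y`; but all `d i = 2`, the `c` vectors `grad (G i) y` are
independent in `CN I y` of dimension `c` (`S_Perp`), so `GS d 2 G y = CN I y ∋ grad F y`.
Otherwise `d i₀ = 3`, all the others are `2`.  `S_W` (`K = 2`): `F₀ ∈ I` a cubic, not in `span (G '' {i | d i ≤ 2})`
(`a = 1`).  `G' = Function.update G i₀ F₀`.  `S_B3`: `y₀` with `grad F₀ y₀ ∉ GS d 2 G y₀`: the `grad (G' i) y₀`
are independent; `S_DET` (`f = d`): they are independent at all `y`: `ind` for `Data I d 3 G'`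
(all `i` have `d i ≤ 3`).  `gen`: degrees `≤ 2`: from `Data I d 2 G` (`span (G '' {d ≤ 2}) ≤ span (G' '' …)`).
Let `F ∈ I` be a cubic, `F ∉ span (G' '' {i | d i ≤ 3})`; `y` any point of `X` (`S_Ne`):
`grad F y ∈ CN I y = span (grad (G' i) y)`, `grad F y = ∑ b i • grad (G' i) y`.  `F₁ = F - C (b i₀) * F₀ ∈ I`,
`F₁ ∉ span (G '' {i | d i ≤ 2})`, `grad F₁ y ∈ GS d 2 G y`.  But `S_B3` for `F₁` and `S_DET` for
`Function.update G i₀ F₁` give `grad F₁ y ∉ GS d 2 G y` (independence at `y`): contradiction. -/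
def S_D23 : Prop :=
  ∀ (N c : ℕ) (d : Fin c → ℕ) (I : Ideal (Sx N)), Hyp I d → (∀ i, d i ≤ 3) →
    (∀ i j, d i = 3 → d j = 3 → i = j) → ∀ G : Fin c → Sx N, Data I d 2 G →
    ∃ G' : Fin c → Sx N, Data I d 3 G'

/-- (Ind) PROOF.  `S_D12`, `S_D23`: `G` with `Data I d 3 G`.  By induction `Data I d K G` for `K ≥ 3`:
`gen` for degree `K + 1`: as in the first part of (D23) (`S_B3`; `{i | d i ≤ K}` is everything,
`GS d K G y = CN I y`).  So every form of `I` is in `span (range G)`, and `I = span (range G)` as in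
`tInd` (`H/Ind.lean`). -/
def S_Ind : Prop :=
  ∀ (N c : ℕ) (d : Fin c → ℕ) (I : Ideal (Sx N)), Hyp I d → (∀ i, d i ≤ 3) →
    (∀ i j, d i = 3 → d j = 3 → i = j) →
    ∃ G : Fin c → Sx N, (∀ i, (G i).IsHomogeneous (d i)) ∧ I = Ideal.span (Set.range G)

/-! ## The result -/

/-- THEOREM Q1.  `X ⊆ ℙ^N` smooth, nondegenerate, of dimension `n`, codimension `c ≥ 3`, degree
`D = ∑ h_i ≤ n - 1`, with Hilbert polynomial `∑ h_i binom (n + k - i) n`, `h_i = h_(s-i)`, `s ≥ 4`,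
`h^0(O_X(k)) ≤ ∑ h_i binom (n + k - i) n`, `deg N_X|_l = c + s` for all lines, `D ≥ (s - 1) c + 2`.  Then
`X` is a complete intersection.

PROOF (helper60: `Q1/Main.lean`).  `3 c + 2 s + 1 ≤ N`: `S_R`, `S_CovH`.  Otherwise `(s-3)(c-2) ≤ 3`,
`D ≤ 2 c + 2 s - 1`; `h_1 ≥ c`; the numerical statements of part 1; `S_Ind` for the type `(2,2,3)`. -/
def S_Q1 : Prop :=
  ∀ (N n c s : ℕ) (I : Ideal (Sx N)) (h : ℕ → ℕ), N = n + c → 3 ≤ c → 4 ≤ s → I.IsPrime →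
    IsHom I → (∀ F ∈ I, F.IsHomogeneous 1 → F = 0) → Smooth I c → h 0 = 1 →
    (∀ i ≤ s, h (s - i) = h i) →
    (∀ᶠ k : ℕ in Filter.atTop, Module.finrank ℂ (gr I k) = hsum n s h k) →
    (∀ (k r : ℕ) (f : Fin r → (Vx N → ℂ)), (∀ i, IsReg I k (f i)) → LinearIndependent ℂ f →
      r ≤ hsum n s h k) →
    (∀ x v : Vx N, IsLine I x v → DegEq I c (c + s) x v) →
    (s - 1) * c + 2 ≤ ∑ i ∈ Finset.range (s + 1), h i →
    ∑ i ∈ Finset.range (s + 1), h i + 1 ≤ n →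
    ∃ (d : Fin c → ℕ) (G : Fin c → Sx N), (∀ i, 2 ≤ d i ∧ (G i).IsHomogeneous (d i)) ∧
      I = Ideal.span (Set.range G)

end Pool.Agent.Lib.MP_776403_ag.SD.Q1
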