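import Pool.Agent.Lib.MP_776403_ag.SD.SpecB
import Pool.Agent.Lib.MP_776403_ag.SD.Q1.Spec

/-!
# THEOREM SD: `X` is not empty
-/

set_option autoImplicit false

open MvPolynomial

noncomputable section

namespace Pool.Agent.Lib.MP_776403_ag.SD.Q1

theorem tNe : S_Null → S_Ne := by
  intro hN N c d I h
  by_contra hcon
  push Not at hcon
  have h1 : (X 0 : Sx N) ∈ I := by
    refine (hN N I h.prime h.hom).1 _ fun z hz => ?_
    rw [hcon z hz, eval_X]
    rfl
  exact X_ne_zero (R := ℂ) (0 : Fin (N + 1)) (h.nd _ h1 (isHomogeneous_X ℂ 0))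

end Pool.Agent.Lib.MP_776403_ag.SD.Q1
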