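import Pool.Agent.Lib.MP_776403_ag.SD.Main
import Pool.Agent.Lib.MP_776403_ag.SD.Q1.Pt
import Pool.Agent.Lib.MP_776403_ag.SD.Q1.B1K
import Pool.Agent.Lib.MP_776403_ag.SD.Q1.RegDim
import Pool.Agent.Lib.MP_776403_ag.SD.Q1.W
import Pool.Agent.Lib.MP_776403_ag.SD.Q1.B2
import Pool.Agent.Lib.MP_776403_ag.SD.Q1.B3

/-!
# THEOREM Q1, part 2: the modules B1K, RegDim, W, B2, B3 from the hypotheses `Q1.Hyp`
-/

set_option autoImplicit false

namespace Pool.Agent.Lib.MP_776403_ag.SD.Q1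

theorem mNe : S_Ne := tNe tNull

theorem mB1K : S_B1K := tB1K (tB1 (tKosR tPencil tKos1 tKos2) tKosI tKosM)

theorem mRegDim : S_RegDim := tRegDim tNull mNe

theorem mB2 : S_B2 := tB2 mB1K mRegDim

theorem mW : S_W := tW mB1K mRegDim

theorem mB3 : S_B3 := tB3 mB2 tNull mNe tMinor tDetHom

theorem mN2f : S_N2 := mN2 tD1 tD6p tNull mPerp

end Pool.Agent.Lib.MP_776403_ag.SD.Q1
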