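import Pool.Agent.Lib.MP_776403_ag.SD.Q1.Base

/-!
# THEOREM Q1: Krull's height theorem at a point, in the form in which it is used
-/

set_option autoImplicit false

open MvPolynomial

noncomputable section

namespace Pool.Agent.Lib.MP_776403_ag.SD.Q1

variable {N : ℕ}

/-- An ideal generated by forms is homogeneous. -/
theorem span_hom (s : Set (Sx N)) (hs : ∀ f ∈ s, ∃ m : ℕ, f.IsHomogeneous m) :
    IsHom (Ideal.span s) := by
  intro F hF m
  let _ := MvPolynomial.gradedAlgebra (σ := Fin (N + 1)) (R := ℂ)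
  have h1 : (Ideal.span s).IsHomogeneous (homogeneousSubmodule (Fin (N + 1)) ℂ) := by
    refine Ideal.homogeneous_span _ _ ?_
    intro f hf
    obtain ⟨n, hn⟩ := hs f hf
    exact ⟨n, hn⟩
  exact homogeneousComponent_mem_of_mem h1 hF m

/-- Sums of homogeneous ideals are homogeneous. -/
theorem sup_hom {I J : Ideal (Sx N)} (hI : IsHom I) (hJ : IsHom J) : IsHom (I ⊔ J) := by
  intro F hF m
  obtain ⟨a, ha, b, hb, rfl⟩ := Submodule.mem_sup.1 hF
  rw [map_add]
  exact Submodule.add_mem_sup (hI a ha m) (hJ b hb m)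

/-- Algebraically independent elements modulo a prime give independent coordinates. -/
theorem dimGe_of_indep (P : Ideal (Sx N)) (hP : P.IsPrime) (D : ℕ) (y : Fin D → Sx N ⧸ P)
    (hy : AlgebraicIndependent ℂ y) : DimGe P D := by
  have : IsDomain (Sx N ⧸ P) := Ideal.Quotient.isDomain P
  have htop : Algebra.adjoin ℂ (Set.range fun i : Fin (N + 1) => Ideal.Quotient.mk P (X i)) = ⊤ := by
    have h6 : (Set.range fun i : Fin (N + 1) => Ideal.Quotient.mk P (X i))
        = (Ideal.Quotient.mkₐ ℂ P) '' (Set.range (X : Fin (N + 1) → Sx N)) := by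
      rw [← Set.range_comp]
      rfl
    rw [h6, ← AlgHom.map_adjoin, MvPolynomial.adjoin_range_X, Algebra.map_top,
      AlgHom.range_eq_top]
    exact Ideal.Quotient.mkₐ_surjective ℂ P
  have halg2 : Algebra.IsAlgebraic
      (Algebra.adjoin ℂ (Set.range fun i : Fin (N + 1) => Ideal.Quotient.mk P (X i)))
      (Sx N ⧸ P) := by
    refine ⟨fun r => ?_⟩
    have h7 : r ∈ Algebra.adjoin ℂ (Set.range fun i : Fin (N + 1) =>
        Ideal.Quotient.mk P (X i)) := by
      rw [htop]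
      trivial
    exact isAlgebraic_algebraMap (⟨r, h7⟩ : Algebra.adjoin ℂ (Set.range fun i : Fin (N + 1) =>
      Ideal.Quotient.mk P (X i)))
  obtain ⟨i, hi⟩ := tTB (Fin (N + 1)) (Sx N ⧸ P) (fun i : Fin (N + 1) =>
    Ideal.Quotient.mk P (X i)) halg2 _ y hy
  exact ⟨i, hi⟩

/-- KRULL AT A POINT: `J` is homogeneous, `z` a zero of `J`, and after multiplication by `u`,
`u(z) ≠ 0`, all elements of `J` are combinations of `g` elements of `J`. -/
theorem krullPt (J : Ideal (Sx N)) (hJ : IsHom J) (z : Vx N) (hz : z ∈ zer J) (g : ℕ)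
    (b : Fin g → Sx N) (hb : ∀ i, b i ∈ J) (u : Sx N) (hu : eval z u ≠ 0)
    (hub : ∀ G ∈ J, u * G ∈ Ideal.span (Set.range b)) :
    ∃ P : Ideal (Sx N), P.IsPrime ∧ IsHom P ∧ J ≤ P ∧ z ∈ zer P ∧ DimGe P (N + 1 - g) := by
  have hJz : J ≤ ptI z := fun G hG => by
    rw [ptI, RingHom.mem_ker]
    exact hz G hG
  have hgen : J ≤ Ideal.span (Set.range b) ⊔ ptI z * J := by
    intro G hG
    have h1 : G = C (eval z u)⁻¹ * (u * G) + (1 - C (eval z u)⁻¹ * u) * G := by ring
    rw [h1]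
    refine Submodule.add_mem_sup (Ideal.mul_mem_left _ _ (hub G hG)) (Ideal.mul_mem_mul ?_ hG)
    rw [ptI, RingHom.mem_ker, map_sub, map_mul, map_one, eval_C, inv_mul_cancel₀ hu, sub_self]
  obtain ⟨P, hP, hJP, hPz, hPW, y, hy⟩ := mKrull (Fin (N + 1)) (fun _ => 1) J z g b
    (fun G hG m => hJ G hG m) hJz hb hgen
  refine ⟨P, hP, hPW, hJP, fun F hF => ?_, ?_⟩
  · have := hPz hF
    rwa [ptI, RingHom.mem_ker] at this
  · have hd := dimGe_of_indep P hP _ y hy
    rwa [Fintype.card_fin] at hd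

/-- Dimensions modulo a smaller ideal. -/
theorem dimGe_anti {P Q : Ideal (Sx N)} (h : P ≤ Q) {D : ℕ} (hQ : DimGe Q D) : DimGe P D := by
  obtain ⟨i, hi⟩ := hQ
  exact ⟨i, AlgebraicIndependent.of_comp (Ideal.Quotient.factorₐ ℂ h) hi⟩

/-- The dimension of a smooth variety. -/
theorem dimGe_smooth (c : ℕ) (I : Ideal (Sx N)) (hI : IsHom I) (hS : Smooth I c)
    (hne : ∃ y ∈ zer I, y ≠ 0) : DimGe I (N + 1 - c) := by
  obtain ⟨y, hy, hy0⟩ := hne
  obtain ⟨F, f, h, e, hF, hh, hh0, hli, hG⟩ := hS y hy hy0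
  obtain ⟨P, -, -, hIP, -, hd⟩ := krullPt I hI y hy c F (fun i => (hF i).1) h hh0 hG
  exact dimGe_anti hIP hd

end Pool.Agent.Lib.MP_776403_ag.SD.Q1
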