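import Pool.Agent.Lib.MP_776403_ag.SD.Q1.Spec

/-!
# THEOREM Q1: linear forms in a prime ideal
-/

set_option autoImplicit false

open MvPolynomial

noncomputable section

namespace Pool.Agent.Lib.MP_776403_ag.SD.Q1

namespace LinAux

variable {N : ℕ}

/-- The coefficients of a linear form. -/
def cf (N : ℕ) : Sx N →ₗ[ℂ] (Fin (N + 1) → ℂ) :=
  LinearMap.pi fun j => lcoeff ℂ (Finsupp.single j 1)

theorem cf_zero {F : Sx N} (hF : F.IsHomogeneous 1) (h : cf N F = 0) : F = 0 := by
  ext m
  rw [coeff_zero]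
  by_contra hm
  have h1 : Finsupp.degree m = 1 := by
    by_contra hd
    exact hm (hF.coeff_eq_zero hd)
  obtain ⟨j, hj⟩ : ∃ j, m = Finsupp.single j 1 := by
    exact (Finsupp.sum_eq_one_iff _).mp h1
  rw [hj] at hm
  exact hm (congrFun h j)

end LinAux

open LinAux

theorem qLin : S_Lin := by
  intro N D P hD W hW
  obtain ⟨i, hi⟩ := hD
  have hli : LinearIndependent ℂ fun k => Ideal.Quotient.mk P (X (i k) : Sx N) :=
    hi.linearIndependent
  let ψ : (Fin D → ℂ) →ₗ[ℂ] Sx N := Fintype.linearCombination ℂ (fun k => (X (i k) : Sx N))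
  have hψ : ∀ a, ψ a = ∑ k, a k • (X (i k) : Sx N) := fun a => rfl
  have hψh : ∀ a, (ψ a).IsHomogeneous 1 := fun a => by
    rw [hψ]
    exact (homogeneousSubmodule (Fin (N + 1)) ℂ 1).sum_mem fun k _ =>
      (homogeneousSubmodule (Fin (N + 1)) ℂ 1).smul_mem _ (isHomogeneous_X ℂ (i k))
  let φ : (W × (Fin D → ℂ)) →ₗ[ℂ] (Fin (N + 1) → ℂ) :=
    (cf N) ∘ₗ (LinearMap.coprod W.subtype ψ)
  have hφ : Function.Injective φ := by
    rw [injective_iff_map_eq_zero]
    rintro ⟨F, a⟩ h
    have h0 : (F : Sx N) + ψ a = 0 := by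
      refine cf_zero ?_ h
      exact (hW F F.2).1.add (hψh a)
    have h1 : a = 0 := by
      have h2 := congrArg (Ideal.Quotient.mk P) h0
      rw [map_add, Ideal.Quotient.eq_zero_iff_mem.2 (hW F F.2).2, zero_add, map_zero, hψ,
        map_sum] at h2
      rw [Fintype.linearIndependent_iff] at hli
      funext k
      exact hli a h2 k
    subst h1
    rw [map_zero, add_zero] at h0
    exact Prod.ext (Subtype.ext h0) rfl
  have hfW : Module.Finite ℂ W := by
    refine Module.Finite.of_injective (φ ∘ₗ LinearMap.inl ℂ W (Fin D → ℂ)) ?_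
    exact hφ.comp LinearMap.inl_injective
  have h := LinearMap.finrank_le_finrank_of_injective hφ
  rw [Module.finrank_prod, Module.finrank_pi, Module.finrank_pi, Fintype.card_fin,
    Fintype.card_fin] at h
  exact h

end Pool.Agent.Lib.MP_776403_ag.SD.Q1
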