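import Pool.Agent.Lib.MP_776403_ag.SD.Q1.Kr

/-!
# THEOREM Q1: quadrics singular at a point of `X`
-/

set_option autoImplicit false

open MvPolynomial

noncomputable section

namespace Pool.Agent.Lib.MP_776403_ag.SD.Q1

namespace ZAux

variable {N : ℕ}

private theorem comp_mul {g R : Sx N} {d : ℕ} (hR : R.IsHomogeneous d)
    (δ : ℕ) : homogeneousComponent (d + δ) (g * R) = homogeneousComponent δ g * R := by
  conv_lhs => rw [← sum_homogeneousComponent g]
  rw [Finset.sum_mul, map_sum]
  have h1 : ∀ k ∈ Finset.range (g.totalDegree + 1),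
      homogeneousComponent (d + δ) (homogeneousComponent k g * R) =
        if k = δ then homogeneousComponent δ g * R else 0 := by
    intro k _
    have h2 : (homogeneousComponent k g * R).IsHomogeneous (k + d) :=
      (homogeneousComponent_isHomogeneous k g).mul hR
    rw [homogeneousComponent_of_mem ((mem_homogeneousSubmodule _ _).2 h2)]
    by_cases hk : k = δ
    · rw [if_pos (by omega), if_pos hk, hk]
    · rw [if_neg (by omega), if_neg hk]
  rw [Finset.sum_congr rfl h1, Finset.sum_ite_eq']
  split_ifs with h3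
  · rfl
  · have h4 : g.totalDegree < δ := by
      rw [Finset.mem_range] at h3
      omega
    rw [homogeneousComponent_eq_zero _ _ h4, zero_mul]

private theorem comp_mul_low {g R : Sx N} {d : ℕ} (hR : R.IsHomogeneous d)
    {e : ℕ} (he : e < d) : homogeneousComponent e (g * R) = 0 := by
  conv_lhs => rw [← sum_homogeneousComponent g]
  rw [Finset.sum_mul, map_sum]
  refine Finset.sum_eq_zero fun k _ => ?_
  have h2 : (homogeneousComponent k g * R).IsHomogeneous (k + d) :=
    (homogeneousComponent_isHomogeneous k g).mul hR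
  rw [homogeneousComponent_of_mem ((mem_homogeneousSubmodule _ _).2 h2), if_neg (by omega)]

/-- A form in the ideal generated by forms is a combination with forms as coefficients. -/
theorem hom_comb {c n : ℕ} {F : Fin c → Sx N} {f : Fin c → ℕ} (hF : ∀ i, (F i).IsHomogeneous (f i))
    {R : Sx N} (hR : R.IsHomogeneous n) (h : R ∈ Ideal.span (Set.range F)) :
    ∃ a : Fin c → Sx N, (∀ i, ∃ m, (a i).IsHomogeneous m) ∧ ∑ i, a i * F i = R := by
  rw [Ideal.mem_span_range_iff_exists_fun] at h
  obtain ⟨a, ha⟩ := h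
  refine ⟨fun i => if f i ≤ n then homogeneousComponent (n - f i) (a i) else 0, fun i => ?_, ?_⟩
  · by_cases hi : f i ≤ n
    · refine ⟨n - f i, ?_⟩
      simp only [if_pos hi]
      exact homogeneousComponent_isHomogeneous _ _
    · refine ⟨0, ?_⟩
      simp only [if_neg hi]
      exact isHomogeneous_zero _ _ _
  · have h1 := congrArg (homogeneousComponent n) ha
    rw [map_sum, homogeneousComponent_of_mem ((mem_homogeneousSubmodule _ _).2 hR),
      if_pos rfl] at h1
    rw [← h1]
    refine Finset.sum_congr rfl fun i _ => ?_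
    by_cases hi : f i ≤ n
    · simp only [if_pos hi]
      have h2 := comp_mul (g := a i) (hF i) (n - f i)
      rw [Nat.add_sub_cancel' hi] at h2
      exact h2.symm
    · simp only [if_neg hi]
      rw [zero_mul, comp_mul_low (hF i) (by omega)]

end ZAux

open ZAux

theorem qZ (hLin : S_Lin) : S_Z := by
  classical
  intro N c I hcN hI hIh hS Q hQ hQh y hy hy0 hgr
  obtain ⟨F, f, h, e, hF, hh, hh0, hli, hG⟩ := hS y hy hy0
  obtain ⟨a, hah, ha⟩ := hom_comb (fun i => (hF i).2) (hh.mul hQh) (hG Q hQ)
  -- the coefficients vanish at `y`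
  have hay : ∀ i, eval y (a i) = 0 := by
    have h1 : ∑ i, eval y (a i) • grad (F i) y = 0 := by
      have h2 := congrArg (fun R => grad R y) ha
      simp only [grad_sum] at h2
      have h3 : ∀ i, grad (a i * F i) y = eval y (a i) • grad (F i) y := fun i =>
        grad_mul_of_zero (hy _ (hF i).1)
      rw [Finset.sum_congr rfl fun i _ => h3 i, grad_mul_of_zero (hy _ hQ), hgr, smul_zero] at h2
      exact h2
    exact (Fintype.linearIndependent_iff.1 hli) _ h1
  -- the ideal
  set J : Ideal (Sx N) := I ⊔ Ideal.span (Set.range a) with hJ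
  have hJh : IsHom J := sup_hom hIh (span_hom _ (by
    rintro _ ⟨i, rfl⟩
    exact hah i))
  have hyJ : y ∈ zer J := by
    intro R hR
    obtain ⟨u, hu, v, hv, rfl⟩ := Submodule.mem_sup.1 hR
    rw [map_add, hy u hu, zero_add]
    rw [Ideal.mem_span_range_iff_exists_fun] at hv
    obtain ⟨b, rfl⟩ := hv
    rw [map_sum]
    refine Finset.sum_eq_zero fun i _ => ?_
    rw [map_mul, hay i, mul_zero]
  obtain ⟨P, hP, hPh, hJP, hyP, hPd⟩ := krullPt J hJh y hyJ (c + c) (Fin.append F a)
    (fun i => by
      refine Fin.addCases (fun i => ?_) (fun i => ?_) i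
      · rw [Fin.append_left]
        exact Ideal.mem_sup_left (hF i).1
      · rw [Fin.append_right]
        exact Ideal.mem_sup_right (Ideal.subset_span ⟨i, rfl⟩)) h hh0 (fun R hR => by
      obtain ⟨u, hu, v, hv, rfl⟩ := Submodule.mem_sup.1 hR
      rw [mul_add]
      refine Ideal.add_mem _ ?_ (Ideal.mul_mem_left _ _ ?_)
      · refine Ideal.span_mono ?_ (hG u hu)
        rintro _ ⟨i, rfl⟩
        exact ⟨Fin.castAdd c i, Fin.append_left _ _ _⟩
      · refine Ideal.span_mono ?_ hv
        rintro _ ⟨i, rfl⟩
        exact ⟨Fin.natAdd c i, Fin.append_right _ _ _⟩)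
  have hIP : I ≤ P := le_sup_left.trans hJP
  have haP : ∀ i, a i ∈ P := fun i =>
    hJP (Ideal.mem_sup_right (Ideal.subset_span ⟨i, rfl⟩))
  have hhP : h ∉ P := fun h' => hh0 (hyP h h')
  -- the partial derivatives of `Q` are in `P`
  have hdP : ∀ j, pderiv j Q ∈ P := by
    intro j
    have h1 := congrArg (pderiv j) ha
    rw [map_sum, Derivation.leibniz, smul_eq_mul, smul_eq_mul] at h1
    have h2 : h * pderiv j Q ∈ P := by
      have h3 : h * pderiv j Q = ∑ i, pderiv j (a i * F i) - Q * pderiv j h := by
        rw [h1]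
        ring
      rw [h3]
      refine Ideal.sub_mem _ (Ideal.sum_mem _ fun i _ => ?_) (Ideal.mul_mem_right _ _ (hIP hQ))
      rw [Derivation.leibniz, smul_eq_mul, smul_eq_mul]
      exact Ideal.add_mem _ (Ideal.mul_mem_right _ _ (haP i))
        (Ideal.mul_mem_right _ _ (hIP (hF i).1))
    exact (hP.mem_or_mem h2).resolve_left hhP
  have h4 := hLin N _ P hPd (VQ Q) (fun R hR => by
    refine ⟨?_, ?_⟩
    · have : VQ Q ≤ homogeneousSubmodule (Fin (N + 1)) ℂ 1 := by
        refine Submodule.span_le.2 ?_
        rintro _ ⟨j, rfl⟩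
        exact hQh.pderiv
      exact this hR
    · have : VQ Q ≤ P.restrictScalars ℂ := by
        refine Submodule.span_le.2 ?_
        rintro _ ⟨j, rfl⟩
        exact hdP j
      exact this hR)
  omega

end Pool.Agent.Lib.MP_776403_ag.SD.Q1
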