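import Pool.Agent.Lib.MP_776403_ag.SD.Q1.RK
import Pool.Agent.Lib.MP_776403_ag.SD.Q1.Z
import Pool.Agent.Lib.MP_776403_ag.SD.Q1.Lin

/-!
# THEOREM Q1: small assemblies
-/

set_option autoImplicit false

open MvPolynomial

noncomputable section

namespace Pool.Agent.Lib.MP_776403_ag.SD.Q1

/-- No quadric through `X` is singular at a point of `X`. -/
theorem qQN : S_QN := by
  intro N c d I hyp Q hQ hQh hQ0 y hy hy0 hgr
  have h1 := qRK N c d I hyp Q hQ hQh hQ0
  have h2 := qZ qLin N c I (by have := hyp.large; omega) hyp.prime hyp.hom hyp.smooth Q hQ hQh y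
    hy hy0 hgr
  have h3 := hyp.large
  omega

theorem qDET (hDiv : S_Div) (hCnt : S_Cnt) : S_DET := by
  intro N c d I hyp G f hG hf y₀ hy₀ hy₀0 hli y hy hy0
  by_contra hcon
  obtain ⟨P, hP, hPh, hIP, hPd, hmn⟩ := hDiv N c I hyp.prime hyp.hom hyp.smooth G f hG y hy hy0 hcon
  exact hCnt N c d I hyp G f hG hf y₀ hy₀ hy₀0 hli P hP hPh hIP hPd hmn

end Pool.Agent.Lib.MP_776403_ag.SD.Q1
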