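import Pool.Agent.Lib.MP_776403_ag.SD.Q1.Spec
import Pool.Agent.Lib.MP_776403_ag.SD.D1
import Pool.Agent.Lib.MP_776403_ag.SD.NBin
import Pool.Agent.Lib.MP_776403_ag.SD.Minor
import Pool.Agent.Lib.MP_776403_ag.SD.DetHom

/-!
# THEOREM Q1, module Cnt: counting (helper2)
-/

set_option autoImplicit false

open MvPolynomial

noncomputable section

namespace Pool.Agent.Lib.MP_776403_ag.SD.Q1

namespace CntAux

variable {N : ℕ}

theorem fin_gr (J : Ideal (Sx N)) (m : ℕ) : Module.Finite ℂ (gr J m) :=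
  Module.Finite.iff_fg.2 ((homogeneousSubmodule_fg (Fin (N + 1)) ℂ m).map _)

theorem mem_gr (J : Ideal (Sx N)) {m : ℕ} {F : Sx N} (hF : F.IsHomogeneous m) :
    Ideal.Quotient.mk J F ∈ gr J m :=
  ⟨F, (mem_homogeneousSubmodule _ _).2 hF, rfl⟩

/-- `Lam I J j m` is finite-dimensional. -/
theorem fin_Lam (I J : Ideal (Sx N)) (j m : ℕ) : Module.Finite ℂ (Lam I J j m) := by
  classical
  set W : Submodule ℂ (Sx N ⧸ J) := ⨆ k ∈ Finset.range (m + 1), gr J k with hW
  have hWfg : W.FG := by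
    rw [hW]
    exact Submodule.fg_biSup (Finset.range (m + 1)) (fun k => gr J k)
      fun k _ => Module.Finite.iff_fg.1 (fin_gr J k)
  have hpi : (Submodule.pi Set.univ fun _ : Fin j → Fin (N + 1) => W).FG :=
    Submodule.fg_pi fun _ => hWfg
  have hfin : Module.Finite ℂ (Submodule.pi Set.univ fun _ : Fin j → Fin (N + 1) => W) :=
    Module.Finite.iff_fg.2 hpi
  have hle : Lam I J j m ≤ Submodule.pi Set.univ fun _ : Fin j → Fin (N + 1) => W := by
    refine Submodule.span_le.2 ?_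
    rintro z ⟨a, e, F, f, ha, hF, hm, rfl⟩
    intro α _
    have h1 : (Matrix.det (Matrix.of fun i k => pderiv (α k) (F i))).IsHomogeneous
        (∑ i, (f i - 1)) :=
      tDetHom N (Fin j) _ (fun i => f i - 1) fun i k => (hF i).2.pderiv
    have h2 : ∑ i, (f i - 1) ≤ ∑ i, f i := Finset.sum_le_sum fun i _ => Nat.sub_le _ _
    have h3 : e + ∑ i, (f i - 1) ∈ Finset.range (m + 1) := Finset.mem_range.2 (by omega)
    exact (le_biSup (fun k => gr J k) h3) (mem_gr J (ha.mul h1))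
  exact Submodule.finiteDimensional_of_le hle

/-- The reduction of the coordinates. -/
def red {I P : Ideal (Sx N)} (h : I ≤ P) (α : Type) :
    (α → Sx N ⧸ I) →ₗ[ℂ] (α → Sx N ⧸ P) :=
  LinearMap.pi fun i => (Ideal.Quotient.factorₐ ℂ h).toLinearMap ∘ₗ LinearMap.proj i

theorem red_apply {I P : Ideal (Sx N)} (h : I ≤ P) (α : Type) (z : α → Sx N) :
    red h α (fun i => Ideal.Quotient.mk I (z i)) = fun i => Ideal.Quotient.mk P (z i) := rfl

theorem red_Lam {I P : Ideal (Sx N)} (h : I ≤ P) (j m : ℕ) :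
    (Lam I I j m).map (red h (Fin j → Fin (N + 1))) = Lam I P j m := by
  unfold Lam
  rw [Submodule.map_span]
  congr 1
  ext z
  constructor
  · rintro ⟨z', ⟨a, e, F, f, ha, hF, hm, rfl⟩, rfl⟩
    exact ⟨a, e, F, f, ha, hF, hm, red_apply h _ _⟩
  · rintro ⟨a, e, F, f, ha, hF, hm, rfl⟩
    exact ⟨_, ⟨a, e, F, f, ha, hF, hm, rfl⟩, red_apply h _ _⟩

/-- Multiplication by the vector of the minors. -/
def mulv (I : Ideal (Sx N)) (α : Type) (w : α → Sx N) :
    (Sx N ⧸ I) →ₗ[ℂ] (α → Sx N ⧸ I) :=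
  LinearMap.pi fun i => LinearMap.mulRight ℂ (Ideal.Quotient.mk I (w i))

theorem mulv_apply (I : Ideal (Sx N)) (α : Type) (w : α → Sx N) (B : Sx N) :
    mulv I α w (Ideal.Quotient.mk I B) = fun i => Ideal.Quotient.mk I (B * w i) := by
  funext i
  rw [map_mul]
  rfl

theorem mulv_inj {I : Ideal (Sx N)} (hI : I.IsPrime) (α : Type) (w : α → Sx N) (i : α)
    (hi : w i ∉ I) : Function.Injective (mulv I α w) := by
  have := Ideal.Quotient.isDomain I
  rw [← LinearMap.ker_eq_bot, LinearMap.ker_eq_bot']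
  intro z hz
  have h1 : z * Ideal.Quotient.mk I (w i) = 0 := congrFun hz i
  rcases mul_eq_zero.1 h1 with h | h
  · exact h
  · exact absurd (Ideal.Quotient.eq_zero_iff_mem.1 h) hi

/-- The count in one degree. -/
theorem count {c : ℕ} {I P : Ideal (Sx N)} (hI : I.IsPrime) (hIP : I ≤ P) (G : Fin c → Sx N)
    (f : Fin c → ℕ) (hG : ∀ i, G i ∈ I ∧ (G i).IsHomogeneous (f i))
    (α : Fin c → Fin (N + 1)) (hα : mnr G α ∉ I) (hP : ∀ α, mnr G α ∈ P) (m : ℕ)
    (hm : ∑ i, f i ≤ m) :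
    Module.finrank ℂ (Lam I P c m) + Module.finrank ℂ (gr I (m - ∑ i, f i)) ≤
      Module.finrank ℂ (Lam I I c m) := by
  have hfin := fin_Lam I I c m
  set L := Lam I I c m with hL
  set φ := mulv I (Fin c → Fin (N + 1)) (mnr G) with hφ
  set ρ := red hIP (Fin c → Fin (N + 1)) with hρ
  set K := (gr I (m - ∑ i, f i)).map φ with hK
  have hKL : K ≤ L := by
    rintro _ ⟨_, ⟨B, hB, rfl⟩, rfl⟩
    have hB' : B.IsHomogeneous (m - ∑ i, f i) := (mem_homogeneousSubmodule _ _).1 hB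
    refine Submodule.subset_span ⟨B, m - ∑ i, f i, G, f, hB', hG, by omega, ?_⟩
    exact mulv_apply I _ (mnr G) B
  have hKρ : ∀ z ∈ K, ρ z = 0 := by
    rintro _ ⟨_, ⟨B, hB, rfl⟩, rfl⟩
    have h1 : φ (Ideal.Quotient.mk I B) = fun i => Ideal.Quotient.mk I (B * mnr G i) :=
      mulv_apply I _ (mnr G) B
    change ρ (φ (Ideal.Quotient.mk I B)) = 0
    rw [h1, red_apply]
    funext i
    exact Ideal.Quotient.eq_zero_iff_mem.2 (P.mul_mem_left B (hP i))
  have h1 := LinearMap.finrank_range_add_finrank_ker (ρ.domRestrict L)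
  have h2 : LinearMap.range (ρ.domRestrict L) = Lam I P c m := by
    rw [LinearMap.range_domRestrict, hL, hρ, red_Lam]
  have h3 : Module.finrank ℂ (gr I (m - ∑ i, f i)) = Module.finrank ℂ K :=
    (Submodule.equivMapOfInjective φ (mulv_inj hI _ _ α hα) _).finrank_eq
  have h4 : Module.finrank ℂ K = Module.finrank ℂ (K.comap L.subtype) :=
    (Submodule.comapSubtypeEquivOfLe hKL).symm.finrank_eq
  have h5 : K.comap L.subtype ≤ LinearMap.ker (ρ.domRestrict L) := by
    intro z hz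
    rw [LinearMap.mem_ker]
    exact hKρ _ hz
  have h6 := Submodule.finrank_mono h5
  rw [h2] at h1
  omega

end CntAux

open CntAux in
/-- Counting. -/
theorem qCnt : S_Cnt := by
  intro N c d I hyp G f hG hfd y₀ hy₀ _ hind P hPp hPh hIP hdim hmin
  have hc := hyp.pos
  have hlarge := hyp.large
  -- a minor which is not in `I`
  obtain ⟨α, hα⟩ : ∃ α, mnr G α ∉ I := by
    obtain ⟨B, hB⟩ := tMinor (Fin c) (N + 1) (fun i => grad (G i) y₀) hind
    refine ⟨B, fun h => hB ?_⟩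
    have h1 := hy₀ _ h
    unfold mnr at h1
    rw [RingHom.map_det] at h1
    exact h1
  set a := ∑ i, f i with ha
  have hnum : ∀ J : Ideal (Sx N), J.IsPrime → IsHom J → I ≤ J →
      Gw (c - 1) (fun m => (Module.finrank ℂ (Lam I J c m) : ℤ) -
        (Module.finrank ℂ (gr J (m - a)) : ℤ)) := by
    intro J hJp hJh hIJ
    refine (hyp.numW J hJp hJh hIJ c le_rfl).of_eventually_eq (Filter.Eventually.of_forall fun m => ?_)
    have h1 : Finset.powersetCard c (Finset.univ : Finset (Fin c)) = {Finset.univ} := by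
      have h2 := Finset.powersetCard_self (Finset.univ : Finset (Fin c))
      rwa [Finset.card_univ, Fintype.card_fin] at h2
    rw [h1, Finset.sum_singleton, ← hfd, ha]
  obtain ⟨C, hC0, hC⟩ := ((hnum I hyp.prime hyp.hom le_rfl).sub (hnum P hPp hPh hIP)).exists_nonneg
  -- the Hilbert function of `P` is small
  have hsmall : ∀ᶠ m : ℕ in Filter.atTop,
      (Module.finrank ℂ (gr P (m - a)) : ℤ) ≤ C * ((m : ℤ) + 1) ^ (c - 1) := by
    filter_upwards [hC, Filter.eventually_ge_atTop a] with m hm hma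
    have h1 := count hyp.prime hIP G f hG α hα hmin m hma
    have h2 : ((Module.finrank ℂ (Lam I P c m) : ℤ)) + (Module.finrank ℂ (gr I (m - a)) : ℤ) ≤
        (Module.finrank ℂ (Lam I I c m) : ℤ) := by exact_mod_cast h1
    have h3 := (le_abs_self _).trans hm
    linarith
  -- the Hilbert function of `P` is large
  obtain ⟨p, hp⟩ : ∃ p, N + 1 - (c + 1) = p + 1 := ⟨N + 1 - (c + 1) - 1, by omega⟩
  rw [hp] at hdim
  have hbin := nBin p (C * ((a : ℤ) + 1) ^ (c - 1)) (by omega)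
  have hsm' := (Filter.tendsto_add_atTop_nat a).eventually hsmall
  obtain ⟨m, hm1, hm2⟩ := (hbin.and hsm').exists
  have hD := tD1 N P p hdim m
  rw [Nat.add_sub_cancel] at hm2
  have hD' : ((Nat.choose (m + p) p : ℕ) : ℤ) ≤ (Module.finrank ℂ (gr P m) : ℤ) := by
    exact_mod_cast hD
  have h1 : (((m + a : ℕ) : ℤ) + 1) ^ (c - 1) ≤ ((a : ℤ) + 1) ^ (c - 1) * ((m : ℤ) + 1) ^ (p - 1) := by
    calc (((m + a : ℕ) : ℤ) + 1) ^ (c - 1) ≤ (((a : ℤ) + 1) * ((m : ℤ) + 1)) ^ (c - 1) := by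
          refine pow_le_pow_left₀ (by positivity) ?_ _
          push_cast
          have h2 : (0 : ℤ) ≤ (a : ℤ) * (m : ℤ) := by positivity
          nlinarith
      _ = ((a : ℤ) + 1) ^ (c - 1) * ((m : ℤ) + 1) ^ (c - 1) := mul_pow _ _ _
      _ ≤ ((a : ℤ) + 1) ^ (c - 1) * ((m : ℤ) + 1) ^ (p - 1) := by
          refine mul_le_mul_of_nonneg_left ?_ (by positivity)
          exact pow_le_pow_right₀ (Gw.one_le m) (by omega)
  have h2 : C * (((m + a : ℕ) : ℤ) + 1) ^ (c - 1) ≤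
      C * (((a : ℤ) + 1) ^ (c - 1) * ((m : ℤ) + 1) ^ (p - 1)) :=
    mul_le_mul_of_nonneg_left h1 hC0
  have h3 : C * (((a : ℤ) + 1) ^ (c - 1) * ((m : ℤ) + 1) ^ (p - 1)) =
      C * ((a : ℤ) + 1) ^ (c - 1) * ((m : ℤ) + 1) ^ (p - 1) := by ring
  linarith

end Pool.Agent.Lib.MP_776403_ag.SD.Q1
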