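import Pool.Agent.Lib.MP_776403_ag.SD.Q1.Spec
import Pool.Agent.Lib.MP_776403_ag.SD.Main

/-!
# THEOREM Q1: cutting `X` by forms at a smooth point

`qCut`: a component through `y` of the zero set in `X` of an ideal which near `y` is generated over
`I` by `g` elements has codimension `≤ c + g`.  `qCutF`: the case of an ideal generated by `g` forms.
`qDim`: the dimension of `X`.
-/

set_option autoImplicit false

open MvPolynomial

noncomputable section

namespace Pool.Agent.Lib.MP_776403_ag.SD.Q1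

variable {N : ℕ}

/-- An ideal generated by forms is homogeneous. -/
theorem qSpanHom (s : Set (Sx N)) (hs : ∀ f ∈ s, ∃ m : ℕ, f.IsHomogeneous m) :
    IsHom (Ideal.span s) := by
  intro F hF m
  let _ := MvPolynomial.gradedAlgebra (σ := Fin (N + 1)) (R := ℂ)
  have h1 : (Ideal.span s).IsHomogeneous (homogeneousSubmodule (Fin (N + 1)) ℂ) := by
    refine Ideal.homogeneous_span _ _ ?_
    intro f hf
    obtain ⟨n, hn⟩ := hs f hf
    exact ⟨n, hn⟩
  exact homogeneousComponent_mem_of_mem h1 hF m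

/-- The sum of homogeneous ideals. -/
theorem qSupHom {I J : Ideal (Sx N)} (hI : IsHom I) (hJ : IsHom J) : IsHom (I ⊔ J) := by
  intro F hF m
  obtain ⟨A, hA, B, hB, rfl⟩ := Submodule.mem_sup.1 hF
  rw [map_add]
  exact Ideal.add_mem _ (Ideal.mem_sup_left (hI A hA m)) (Ideal.mem_sup_right (hJ B hB m))

/-- The coordinates generate the coordinate ring. -/
theorem qDimGe (P : Ideal (Sx N)) (hP : P.IsPrime) (D : ℕ) (y : Fin D → Sx N ⧸ P)
    (hy : AlgebraicIndependent ℂ y) : DimGe P D := by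
  have : IsDomain (Sx N ⧸ P) := Ideal.Quotient.isDomain P
  have htop : Algebra.adjoin ℂ (Set.range fun i : Fin (N + 1) => Ideal.Quotient.mk P (X i)) = ⊤ := by
    have h6 : (Set.range fun i : Fin (N + 1) => Ideal.Quotient.mk P (X i))
        = (Ideal.Quotient.mkₐ ℂ P) '' (Set.range (X : Fin (N + 1) → Sx N)) := by
      rw [← Set.range_comp]
      rfl
    rw [h6, ← AlgHom.map_adjoin, MvPolynomial.adjoin_range_X, Algebra.map_top,
      AlgHom.range_eq_top]
    exact Ideal.Quotient.mkₐ_surjective ℂ P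
  have halg2 : Algebra.IsAlgebraic
      (Algebra.adjoin ℂ (Set.range fun i : Fin (N + 1) => Ideal.Quotient.mk P (X i)))
      (Sx N ⧸ P) := by
    refine ⟨fun r => ?_⟩
    have h7 : r ∈ Algebra.adjoin ℂ (Set.range fun i : Fin (N + 1) =>
        Ideal.Quotient.mk P (X i)) := by
      rw [htop]
      trivial
    exact isAlgebraic_algebraMap (⟨r, h7⟩ : Algebra.adjoin ℂ (Set.range fun i : Fin (N + 1) =>
      Ideal.Quotient.mk P (X i)))
  obtain ⟨i, hi⟩ := tTB (Fin (N + 1)) (Sx N ⧸ P) (fun i : Fin (N + 1) =>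
    Ideal.Quotient.mk P (X i)) halg2 _ y hy
  exact ⟨i, hi⟩

/-- Cutting at a smooth point: near `y` the ideal `J` is generated by `I` and `g` elements. -/
theorem qCut {c g : ℕ} {I J : Ideal (Sx N)} (hs : Smooth I c) (hJ : IsHom J) (hIJ : I ≤ J)
    {y : Vx N} (hy : y ∈ zer J) (hy0 : y ≠ 0) (b : Fin g → Sx N) (hb : ∀ i, b i ∈ J)
    (u : Sx N) (hu : eval y u ≠ 0) (h : ∀ G ∈ J, u * G ∈ I ⊔ Ideal.span (Set.range b)) :
    ∃ P : Ideal (Sx N), P.IsPrime ∧ IsHom P ∧ J ≤ P ∧ P ≤ ptI y ∧ DimGe P (N + 1 - (c + g)) := by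
  have hyI : y ∈ zer I := fun F hF => hy F (hIJ hF)
  obtain ⟨F, f, w, e, hF, hw, hwy, -, hgen⟩ := hs y hyI hy0
  have hJy : J ≤ ptI y := fun G hG => RingHom.mem_ker.2 (hy G hG)
  obtain ⟨P, hP, hJP, hPy, hPW, z, hz⟩ := mKrull (Fin (N + 1)) (fun _ => 1) J y (c + g)
    (Fin.append F b) (fun G hG m => hJ G hG m) hJy
    (fun i => by
      refine Fin.addCases (fun i => ?_) (fun i => ?_) i
      · rw [Fin.append_left]
        exact hIJ (hF i).1
      · rw [Fin.append_right]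
        exact hb i)
    (fun G hG => by
      have h1 : w * u * G ∈ Ideal.span (Set.range (Fin.append F b)) := by
        obtain ⟨A, hA, B, hB, hAB⟩ := Submodule.mem_sup.1 (h G hG)
        rw [mul_assoc, ← hAB, mul_add]
        refine Ideal.add_mem _ ?_ (Ideal.mul_mem_left _ _ ?_)
        · refine Ideal.span_mono ?_ (hgen A hA)
          rintro _ ⟨i, rfl⟩
          exact ⟨Fin.castAdd g i, Fin.append_left F b i⟩
        · refine Ideal.span_mono ?_ hB
          rintro _ ⟨i, rfl⟩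
          exact ⟨Fin.natAdd c i, Fin.append_right F b i⟩
      have h2 : eval y (w * u) ≠ 0 := by
        rw [map_mul]
        exact mul_ne_zero hwy hu
      have h3 : G = C (eval y (w * u))⁻¹ * (w * u * G) +
          (1 - C (eval y (w * u))⁻¹ * (w * u)) * G := by ring
      rw [h3]
      refine Ideal.add_mem _ (Ideal.mem_sup_left (Ideal.mul_mem_left _ _ h1))
        (Ideal.mem_sup_right (Ideal.mul_mem_mul ?_ hG))
      refine RingHom.mem_ker.2 ?_
      rw [map_sub, map_one, map_mul, eval_C, inv_mul_cancel₀ h2, sub_self])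
  refine ⟨P, hP, hPW, hJP, hPy, ?_⟩
  have h4 := qDimGe P hP _ z hz
  rwa [Fintype.card_fin] at h4

/-- Cutting by forms. -/
theorem qCutF {c g : ℕ} {I : Ideal (Sx N)} (hs : Smooth I c) (hI : IsHom I)
    {y : Vx N} (hy : y ∈ zer I) (hy0 : y ≠ 0) (b : Fin g → Sx N) (e : Fin g → ℕ)
    (hb : ∀ i, (b i).IsHomogeneous (e i)) (hby : ∀ i, eval y (b i) = 0) :
    ∃ P : Ideal (Sx N), P.IsPrime ∧ IsHom P ∧ I ≤ P ∧ (∀ i, b i ∈ P) ∧ P ≤ ptI y ∧
      DimGe P (N + 1 - (c + g)) := by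
  have hJ : IsHom (I ⊔ Ideal.span (Set.range b)) := by
    refine qSupHom hI (qSpanHom _ ?_)
    rintro _ ⟨i, rfl⟩
    exact ⟨_, hb i⟩
  have hyJ : y ∈ zer (I ⊔ Ideal.span (Set.range b)) := by
    have h1 : I ⊔ Ideal.span (Set.range b) ≤ ptI y := by
      refine sup_le (fun G hG => RingHom.mem_ker.2 (hy G hG)) (Ideal.span_le.2 ?_)
      rintro _ ⟨i, rfl⟩
      exact RingHom.mem_ker.2 (hby i)
    exact fun G hG => RingHom.mem_ker.1 (h1 hG)
  obtain ⟨P, hP, hPH, hJP, hPy, hD⟩ := qCut hs hJ le_sup_left hyJ hy0 b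
    (fun i => Ideal.mem_sup_right (Ideal.subset_span ⟨i, rfl⟩)) 1 (by simp)
    (fun G hG => by rwa [one_mul])
  exact ⟨P, hP, hPH, le_sup_left.trans hJP,
    fun i => hJP (Ideal.mem_sup_right (Ideal.subset_span ⟨i, rfl⟩)), hPy, hD⟩

/-- Independence modulo a larger ideal. -/
theorem qDimMono {I P : Ideal (Sx N)} (hIP : I ≤ P) {D : ℕ} (h : DimGe P D) : DimGe I D := by
  obtain ⟨i, hi⟩ := h
  refine ⟨i, ?_⟩
  have h1 : (fun k => Ideal.Quotient.mk P (X (i k))) =
      (Ideal.Quotient.factorₐ ℂ hIP) ∘ fun k => Ideal.Quotient.mk I (X (i k)) := rfl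
  rw [h1] at hi
  exact AlgebraicIndependent.of_comp _ hi

/-- The dimension of `X`. -/
theorem qDim {c : ℕ} {I : Ideal (Sx N)} (hs : Smooth I c) (hI : IsHom I)
    {y : Vx N} (hy : y ∈ zer I) (hy0 : y ≠ 0) : DimGe I (N + 1 - c) := by
  obtain ⟨P, -, -, hIP, -, -, hD⟩ := qCutF (g := 0) hs hI hy hy0 Fin.elim0 Fin.elim0
    (fun i => i.elim0) (fun i => i.elim0)
  exact qDimMono hIP hD

end Pool.Agent.Lib.MP_776403_ag.SD.Q1
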