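import Pool.Agent.Lib.MP_776403_ag.SD.Q1.Kr

/-!
# THEOREM Q1: the quadrics of the ideal
-/

set_option autoImplicit false

open MvPolynomial

noncomputable section

namespace Pool.Agent.Lib.MP_776403_ag.SD.Q1

namespace D12Aux

variable {N c : ℕ} {d : Fin c → ℕ} {I : Ideal (Sx N)}

theorem form_zero (hI : I.IsPrime) {F : Sx N} (hF : F ∈ I) (h : F.IsHomogeneous 0) : F = 0 := by
  rw [← totalDegree_zero_iff_isHomogeneous, totalDegree_eq_zero_iff_eq_C] at h
  by_cases ha : coeff 0 F = 0
  · rw [h, ha, C_0]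
  · exfalso
    apply hI.ne_top
    rw [Ideal.eq_top_iff_one]
    have h1 : C (coeff 0 F)⁻¹ * F ∈ I := I.mul_mem_left _ hF
    rw [h, coeff_C, if_pos rfl, ← C_mul, inv_mul_cancel₀ ha, C_1] at h1
    exact h1

theorem low_zero (hH : Hyp I d) {k : ℕ} (hk : k ≤ 1) {F : Sx N} (hF : F ∈ I)
    (hFk : F.IsHomogeneous k) : F = 0 := by
  rcases Nat.le_one_iff_eq_zero_or_eq_one.1 hk with rfl | rfl
  · exact form_zero hH.prime hF hFk
  · exact hH.nd F hF hFk

theorem data_one (hH : Hyp I d) (G : Fin c → Sx N) : Data I d 1 G where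
  hom := by
    intro i hi
    have := hH.two_le i
    omega
  ind := by
    intro y _ _
    have : IsEmpty {i // d i ≤ 1} := ⟨fun i => by
      have h1 := hH.two_le i.1
      have h2 := i.2
      omega⟩
    exact linearIndependent_empty_type
  gen := by
    intro k hk F hF hFk
    rw [low_zero hH hk hF hFk]
    exact Submodule.zero_mem _

/-- The gradient of a form in `I` is a section. -/
theorem sect_grad {J : Ideal (Sx N)} {F : Sx N} {m : ℕ} (hF : F ∈ I)
    (hm : F.IsHomogeneous m) : IsSect I J m (fun y => grad F y) := by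
  intro y _ _
  refine ⟨Submodule.subset_span ⟨F, hF, rfl⟩, fun l => pderiv l F, 1, 0, fun l => ?_,
    isHomogeneous_one _ _, ?_, fun z _ _ l => ?_⟩
  · rw [zero_add]
    exact hm.pderiv
  · rw [map_one]
    exact one_ne_zero
  · rw [map_one, mul_one]
    rfl

/-- Independent quadrics have independent gradients. -/
theorem grads_indep (h : S_QN) (hH : Hyp I d) {ι : Type} [Fintype ι] (H : ι → Sx N)
    (hHI : ∀ i, H i ∈ I ∧ (H i).IsHomogeneous 2)
    (hind : ∀ a : ι → ℂ, ∑ i, C (a i) * H i = 0 → a = 0) {y : Vx N} (hy : y ∈ zer I)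
    (hy0 : y ≠ 0) : LinearIndependent ℂ (fun i => grad (H i) y) := by
  rw [Fintype.linearIndependent_iff]
  intro g hg
  have h1 : grad (∑ i, C (g i) * H i) y = 0 := by
    rw [grad_sum, ← hg]
    exact Finset.sum_congr rfl fun i _ => grad_C_mul _ _ _
  have h2 : ∑ i, C (g i) * H i = 0 := by
    by_contra hne
    refine h N c d I hH _ (Ideal.sum_mem _ fun i _ => I.mul_mem_left _ (hHI i).1) ?_ hne y hy hy0 h1
    refine IsHomogeneous.sum _ _ _ fun i _ => ?_
    have h3 := (isHomogeneous_C (Fin (N + 1)) (g i)).mul (hHI i).2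
    rwa [zero_add] at h3
  intro i
  exact congrFun (hind g h2) i

/-- Independence with one more form. -/
theorem snoc_indep {q : ℕ} (G : Fin q → Sx N) (F : Sx N) (Q : Ideal (Sx N)) (hG : ∀ i, G i ∈ Q)
    (hF : F ∉ Q) (hind : ∀ a : Fin q → ℂ, ∑ i, C (a i) * G i = 0 → a = 0)
    (a : Fin (q + 1) → ℂ)
    (ha : ∑ i, C (a i) * (Fin.snoc (α := fun _ => Sx N) G F : Fin (q + 1) → Sx N) i = 0) :
    a = 0 := by
  rw [Fin.sum_univ_castSucc, Fin.snoc_last] at ha
  simp only [Fin.snoc_castSucc] at ha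
  have h1 : a (Fin.last q) = 0 := by
    by_contra hne
    apply hF
    have h2 : F = C (a (Fin.last q))⁻¹ * (C (a (Fin.last q)) * F) := by
      rw [← mul_assoc, ← C_mul, inv_mul_cancel₀ hne, C_1, one_mul]
    rw [h2, eq_neg_of_add_eq_zero_right ha]
    exact Q.mul_mem_left _ (Q.neg_mem (Ideal.sum_mem _ fun i _ => Q.mul_mem_left _ (hG i)))
  rw [h1, C_0, zero_mul, add_zero] at ha
  have h3 := hind (fun i => a (Fin.castSucc i)) ha
  funext i
  refine Fin.lastCases ?_ (fun i => ?_) i
  · exact h1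
  · exact congrFun h3 i

end D12Aux

open D12Aux

theorem qD12 (h : S_QN) : S_D12 := by
  intro N c d I hH
  classical
  obtain ⟨F, hF, hFi⟩ := mW N c d I hH 1 0 (data_one hH 0)
  have hFi' : ∀ a : {i : Fin c // d i = 1 + 1} → ℂ, ∑ i, C (a i) * F i = 0 → a = 0 := by
    intro a ha
    apply hFi a
    rw [ha]
    exact Submodule.zero_mem _
  have h2 : ∀ i, d i ≤ 2 → d i = 1 + 1 := fun i hi => le_antisymm hi (hH.two_le i)
  let G : Fin c → Sx N := fun i => if hi : d i = 1 + 1 then F ⟨i, hi⟩ else 0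
  have hG : ∀ (i : Fin c) (hi : d i = 1 + 1), G i = F ⟨i, hi⟩ := fun i hi => dif_pos hi
  have hGI : ∀ i, d i ≤ 2 → G i ∈ I ∧ (G i).IsHomogeneous 2 := by
    intro i hi
    rw [hG i (h2 i hi)]
    exact hF ⟨i, h2 i hi⟩
  have hGi : ∀ a : {i : Fin c // d i ≤ 2} → ℂ, ∑ i, C (a i) * G i = 0 → a = 0 := by
    intro a ha
    let e : {i : Fin c // d i = 1 + 1} ≃ {i : Fin c // d i ≤ 2} :=
      Equiv.subtypeEquivRight fun i => ⟨fun hi => hi.le, h2 i⟩
    have h3 : ∑ i, C (a (e i)) * F i = 0 := by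
      rw [← ha]
      refine Fintype.sum_equiv e _ _ fun i => ?_
      have h4 : G (e i) = F i := hG i.1 i.2
      rw [h4]
    have h5 := hFi' (fun i => a (e i)) h3
    funext i
    have h6 := congrFun h5 (e.symm i)
    simpa using h6
  refine ⟨G, fun i hi => ?_, fun y hy hy0 => ?_, fun k hk F0 hF0 hFk => ?_⟩
  · rw [h2 i hi]
    exact hGI i hi
  · exact grads_indep h hH (fun i : {i : Fin c // d i ≤ 2} => G i) (fun i => hGI i.1 i.2) hGi hy hy0
  · rcases Nat.lt_or_ge k 2 with hk2 | hk2
    · rw [low_zero hH (Nat.lt_succ_iff.1 hk2) hF0 hFk]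
      exact Submodule.zero_mem _
    · obtain rfl : k = 2 := le_antisymm hk hk2
      by_contra hne
      let e : Fin (Fintype.card {i : Fin c // d i ≤ 2}) ≃ {i : Fin c // d i ≤ 2} :=
        (Fintype.equivFin _).symm
      let f : Fin (Fintype.card {i : Fin c // d i ≤ 2}) → Fin c := fun i => (e i).1
      have hfK : ∀ i, d (f i) ≤ 2 := fun i => (e i).2
      have hfr : ∀ j, d j ≤ 2 → ∃ i, f i = j := fun j hj => ⟨e.symm ⟨j, hj⟩, by simp [f]⟩
      let H : Fin (Fintype.card {i : Fin c // d i ≤ 2} + 1) → Sx N :=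
        Fin.snoc (α := fun _ => Sx N) (fun i => G (f i)) F0
      have hHI : ∀ i, H i ∈ I ∧ (H i).IsHomogeneous 2 := by
        intro i
        refine Fin.lastCases ?_ (fun i => ?_) i
        · simp only [H, Fin.snoc_last]
          exact ⟨hF0, hFk⟩
        · simp only [H, Fin.snoc_castSucc]
          exact hGI _ (hfK i)
      have hHi : ∀ a : Fin (Fintype.card {i : Fin c // d i ≤ 2} + 1) → ℂ,
          ∑ i, C (a i) * H i = 0 → a = 0 := by
        refine snoc_indep _ F0 (Ideal.span (G '' {i | d i ≤ 2}))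
          (fun i => Ideal.subset_span ⟨f i, hfK i, rfl⟩) hne ?_
        intro a ha
        have h3 : ∑ i, C (a (e.symm i)) * G i = 0 := by
          rw [← ha]
          refine Fintype.sum_equiv e.symm _ _ fun i => ?_
          have h4 : f (e.symm i) = i.1 := by simp [f]
          rw [h4]
        have h5 := hGi (fun i => a (e.symm i)) h3
        funext i
        have h6 := congrFun h5 (e i)
        simpa using h6
      have hdim : ¬ DimGe I (c + (c - Fintype.card {i : Fin c // d i ≤ 2}) + 1) := by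
        refine mN2f N c d I hH.prime hH.hom hH.smooth I hH.prime hH.hom le_rfl c hH.pos
          (hH.numW I hH.prime hH.hom le_rfl) _ (fun i y => grad (H i) y) (fun _ => 2) f
          (fun i => sect_grad (hHI i).1 (hHI i).2) (fun _ => by norm_num)
          (fun y hy hy0 => grads_indep h hH H hHI hHi hy hy0) ?_ ?_ ?_
        · intro i j hij
          exact e.injective (Subtype.ext hij)
        · intro i
          exact (h2 _ (hfK i)).symm
        · intro j hj hj2
          exact hj (hfr j (le_of_eq hj2))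
      have hlarge := hH.large
      have hpos := hH.pos
      exact hdim (tMono _ I _ _ (by omega)
        (dimGe_smooth c I hH.hom hH.smooth (mNe N c d I hH)))

end Pool.Agent.Lib.MP_776403_ag.SD.Q1
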