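import Pool.Agent.Lib.MP_776403_ag.SD.Q1.Base

/-!
# THEOREM Q1, module D23: the cubic of the ideal (helper55)
-/

set_option autoImplicit false

open MvPolynomial

noncomputable section

namespace Pool.Agent.Lib.MP_776403_ag.SD.Q1

namespace D23Aux

variable {N c : ℕ} {d : Fin c → ℕ} {I : Ideal (Sx N)}

theorem grad_sub_C (F F₀ : Sx N) (a : ℂ) (y : Vx N) :
    grad (F - C a * F₀) y = grad F y - a • grad F₀ y := by
  funext k
  simp [grad]

/-- `c` independent vectors of the conormal space span it. -/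
theorem cn_le (hH : Hyp I d) {y : Vx N} (hy : y ∈ zer I) (hy0 : y ≠ 0) (G : Fin c → Sx N)
    (hG : ∀ i, G i ∈ I) (hi : LinearIndependent ℂ (fun i => grad (G i) y)) {F : Sx N} (hF : F ∈ I) :
    grad F y ∈ Submodule.span ℂ (Set.range fun i => grad (G i) y) := by
  obtain ⟨h1, h2, -, -⟩ := mPerp N c I hH.prime hH.hom hH.smooth y hy hy0
  have h3 : Submodule.span ℂ (Set.range fun i => grad (G i) y) = CN I y := by
    refine Submodule.eq_of_le_of_finrank_eq ?_ ?_
    · rw [Submodule.span_le]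
      rintro _ ⟨i, rfl⟩
      exact h2 _ (hG i)
    · rw [finrank_span_eq_card hi, h1, Fintype.card_fin]
  rw [h3]
  exact h2 F hF

/-- All generators have degree at most `K`: the gradients are independent. -/
theorem ind_all {K : ℕ} (hall : ∀ i, d i ≤ K) {G : Fin c → Sx N} (hG : Data I d K G) {y : Vx N}
    (hy : y ∈ zer I) (hy0 : y ≠ 0) : LinearIndependent ℂ (fun i => grad (G i) y) := by
  have h1 := (hG.ind y hy hy0).comp (fun i : Fin c => (⟨i, hall i⟩ : {i // d i ≤ K})) (by
    intro i j h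
    exact congrArg Subtype.val h)
  exact h1

/-- All generators have degree `2`. -/
theorem case1 (hH : Hyp I d) (hall : ∀ i, d i ≤ 2) {G : Fin c → Sx N} (hG : Data I d 2 G) :
    Data I d 3 G where
  hom := fun i _ => hG.hom i (hall i)
  ind := fun y hy hy0 => (ind_all hall hG hy hy0).comp (fun i : {i // d i ≤ 3} => i.1)
    Subtype.val_injective
  gen := by
    intro k hk F hF hFk
    have hset : {i : Fin c | d i ≤ 2} ⊆ {i | d i ≤ 3} := fun i hi => Nat.le_succ_of_le hi
    have hmono : Ideal.span (G '' {i | d i ≤ 2}) ≤ Ideal.span (G '' {i | d i ≤ 3}) :=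
      Ideal.span_mono (Set.image_mono hset)
    by_cases hk2 : k ≤ 2
    · exact hmono (hG.gen k hk2 F hF hFk)
    · have hk3 : k = 3 := by omega
      subst hk3
      by_contra hn
      obtain ⟨y, hy, hy0, hyn⟩ := mB3 N c d I hH 2 G (by norm_num) hG F hF hFk
        (fun h => hn (hmono h))
      apply hyn
      have h1 := cn_le hH hy hy0 G (fun i => (hG.hom i (hall i)).1) (ind_all hall hG hy hy0) hF
      refine Submodule.span_mono ?_ h1
      rintro _ ⟨i, rfl⟩
      exact ⟨i, hall i, rfl⟩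

/-- With a new cubic the gradients are independent everywhere. -/
theorem key (h : S_DET) (hH : Hyp I d) {i₀ : Fin c} (hi₀ : d i₀ = 3)
    (hoth : ∀ j, j ≠ i₀ → d j = 2) {G : Fin c → Sx N} (hG : Data I d 2 G) {F₁ : Sx N}
    (hF : F₁ ∈ I) (hF3 : F₁.IsHomogeneous 3) (hFn : F₁ ∉ Ideal.span (G '' {i | d i ≤ 2}))
    {y : Vx N} (hy : y ∈ zer I) (hy0 : y ≠ 0) :
    LinearIndependent ℂ (fun i => grad (Function.update G i₀ F₁ i) y) := by
  obtain ⟨y₀, hy₀, hy₀0, hn⟩ := mB3 N c d I hH 2 G (by norm_num) hG F₁ hF hF3 hFn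
  refine h N c d I hH (Function.update G i₀ F₁) d ?_ rfl y₀ hy₀ hy₀0 ?_ y hy hy0
  · intro i
    by_cases hi : i = i₀
    · subst hi
      rw [Function.update_self, hi₀]
      exact ⟨hF, hF3⟩
    · rw [Function.update_of_ne hi]
      exact hG.hom i (hoth i hi).le
  · have hne : ∀ i : Fin c, d i ≤ 2 → i ≠ i₀ := by
      rintro i hi rfl
      omega
    have h1 : LinearIndepOn ℂ (fun i => grad (Function.update G i₀ F₁ i) y₀)
        {i : Fin c | d i ≤ 2} := by
      have h2 := hG.ind y₀ hy₀ hy₀0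
      have h3 : (fun i : {i : Fin c // d i ≤ 2} => grad (G i) y₀) =
          fun i : {i : Fin c // d i ≤ 2} => grad (Function.update G i₀ F₁ i) y₀ := by
        funext i
        rw [Function.update_of_ne (hne i.1 i.2)]
      rw [h3] at h2
      exact h2
    have h2 : LinearIndepOn ℂ (fun i => grad (Function.update G i₀ F₁ i) y₀)
        (insert i₀ {i : Fin c | d i ≤ 2}) := by
      refine h1.insert ?_
      rw [Function.update_self]
      intro hmem
      apply hn
      refine Submodule.span_mono ?_ hmem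
      rintro _ ⟨i, hi, rfl⟩
      refine ⟨i, hi, ?_⟩
      simp only
      rw [Function.update_of_ne (hne i hi)]
    have h3 : insert i₀ {i : Fin c | d i ≤ 2} = Set.univ := by
      refine Set.eq_univ_of_forall fun i => ?_
      by_cases hi : i = i₀
      · exact Or.inl hi
      · exact Or.inr (hoth i hi).le
    rw [h3] at h2
    exact linearIndepOn_univ_iff.1 h2

theorem case2 (h : S_DET) (hH : Hyp I d) {i₀ : Fin c} (hi₀ : d i₀ = 3)
    (hoth : ∀ j, j ≠ i₀ → d j = 2) {G : Fin c → Sx N} (hG : Data I d 2 G) :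
    ∃ G' : Fin c → Sx N, Data I d 3 G' := by
  obtain ⟨F, hF, hFi⟩ := mW N c d I hH 2 G hG
  obtain ⟨F₀, hF₀I, hF₀3, hF₀n⟩ : ∃ F₀ : Sx N, F₀ ∈ I ∧ F₀.IsHomogeneous 3 ∧
      F₀ ∉ Ideal.span (G '' {i | d i ≤ 2}) := by
    refine ⟨F ⟨i₀, hi₀⟩, (hF _).1, (hF _).2, fun hmem => ?_⟩
    have h1 := hFi (Pi.single ⟨i₀, hi₀⟩ 1) (by
      rw [Finset.sum_eq_single (⟨i₀, hi₀⟩ : {i : Fin c // d i = 2 + 1})]
      · rw [Pi.single_eq_same, C_1, one_mul]
        exact hmem
      · intro b _ hb
        rw [Pi.single_eq_of_ne hb, C_0, zero_mul]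
      · intro hb
        exact absurd (Finset.mem_univ _) hb)
    have h2 := congrFun h1 ⟨i₀, hi₀⟩
    rw [Pi.single_eq_same] at h2
    exact one_ne_zero h2
  have hle3 : ∀ i, d i ≤ 3 := by
    intro i
    by_cases hi : i = i₀
    · rw [hi, hi₀]
    · rw [hoth i hi]
      norm_num
  have hhom : ∀ i, Function.update G i₀ F₀ i ∈ I ∧
      (Function.update G i₀ F₀ i).IsHomogeneous (d i) := by
    intro i
    by_cases hi : i = i₀
    · subst hi
      rw [Function.update_self, hi₀]
      exact ⟨hF₀I, hF₀3⟩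
    · rw [Function.update_of_ne hi]
      exact hG.hom i (hoth i hi).le
  have hmono : Ideal.span (G '' {i | d i ≤ 2}) ≤
      Ideal.span (Function.update G i₀ F₀ '' {i | d i ≤ 3}) := by
    refine Ideal.span_mono ?_
    rintro _ ⟨i, hi, rfl⟩
    have hne : i ≠ i₀ := by
      rintro rfl
      have : d i ≤ 2 := hi
      omega
    exact ⟨i, hle3 i, Function.update_of_ne hne _ _⟩
  have hF₀m : F₀ ∈ Ideal.span (Function.update G i₀ F₀ '' {i | d i ≤ 3}) :=
    Ideal.subset_span ⟨i₀, hle3 i₀, Function.update_self _ _ _⟩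
  refine ⟨Function.update G i₀ F₀, ⟨fun i _ => hhom i, fun y hy hy0 => ?_, ?_⟩⟩
  · exact (key h hH hi₀ hoth hG hF₀I hF₀3 hF₀n hy hy0).comp (fun i : {i // d i ≤ 3} => i.1)
      Subtype.val_injective
  · intro k hk P hP hPk
    by_cases hk2 : k ≤ 2
    · exact hmono (hG.gen k hk2 P hP hPk)
    · have hk3 : k = 3 := by omega
      subst hk3
      by_contra hn
      obtain ⟨y, hy, hy0⟩ := mNe N c d I hH
      have h1 := cn_le hH hy hy0 _ (fun i => (hhom i).1)
        (key h hH hi₀ hoth hG hF₀I hF₀3 hF₀n hy hy0) hP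
      obtain ⟨b, hb⟩ := (Submodule.mem_span_range_iff_exists_fun ℂ).1 h1
      have hF₁I : P - C (b i₀) * F₀ ∈ I := I.sub_mem hP (I.mul_mem_left _ hF₀I)
      have hF₁3 : (P - C (b i₀) * F₀).IsHomogeneous 3 := hPk.sub (hF₀3.C_mul _)
      have hF₁n : P - C (b i₀) * F₀ ∉ Ideal.span (G '' {i | d i ≤ 2}) := by
        intro hmem
        apply hn
        have h2 := Ideal.add_mem _ (hmono hmem)
          (Ideal.mul_mem_left _ (C (b i₀)) hF₀m)
        rwa [sub_add_cancel] at h2
      have h2 := key h hH hi₀ hoth hG hF₁I hF₁3 hF₁n hy hy0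
      have h3 := Fintype.linearIndependent_iff.1 h2 (fun i => if i = i₀ then 1 else -b i) (by
        rw [← Finset.add_sum_erase _ _ (Finset.mem_univ i₀), if_pos rfl, one_smul,
          Function.update_self, grad_sub_C, ← hb,
          ← Finset.add_sum_erase _ _ (Finset.mem_univ i₀), Function.update_self]
        have h4 : ∑ x ∈ Finset.univ.erase i₀, (if x = i₀ then (1 : ℂ) else -b x) •
            grad (Function.update G i₀ (P - C (b i₀) * F₀) x) y =
            -∑ x ∈ Finset.univ.erase i₀, b x • grad (Function.update G i₀ F₀ x) y := by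
          rw [← Finset.sum_neg_distrib]
          refine Finset.sum_congr rfl fun x hx => ?_
          have hx' : x ≠ i₀ := (Finset.mem_erase.1 hx).1
          rw [if_neg hx', Function.update_of_ne hx', Function.update_of_ne hx', neg_smul]
        rw [h4]
        abel)
      have h4 := h3 i₀
      rw [if_pos rfl] at h4
      exact one_ne_zero h4

end D23Aux

theorem qD23 (h : S_DET) : S_D23 := by
  intro N c d I hH h3 huniq G hG
  by_cases hex : ∃ i, d i = 3
  · obtain ⟨i₀, hi₀⟩ := hex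
    refine D23Aux.case2 h hH hi₀ (fun j hj => ?_) hG
    have h1 := h3 j
    have h2 := hH.two_le j
    have h4 : d j ≠ 3 := fun h5 => hj (huniq j i₀ h5 hi₀)
    omega
  · refine ⟨G, D23Aux.case1 hH (fun i => ?_) hG⟩
    have h1 := h3 i
    have h4 : d i ≠ 3 := fun h5 => hex ⟨i, h5⟩
    omega

end Pool.Agent.Lib.MP_776403_ag.SD.Q1
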