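import Pool.Agent.Lib.MP_776403_ag.SD.Q1.Cut

/-!
# THEOREM Q1, module Div: the divisor of `dG_1 ∧ … ∧ dG_c`
-/

set_option autoImplicit false

open MvPolynomial

noncomputable section

namespace Pool.Agent.Lib.MP_776403_ag.SD.Q1

namespace DivAux

variable {N : ℕ}

/-- The minors are forms. -/
theorem mnr_hom {c : ℕ} {G : Fin c → Sx N} {f : Fin c → ℕ} (hG : ∀ i, (G i).IsHomogeneous (f i))
    (α : Fin c → Fin (N + 1)) : (mnr G α).IsHomogeneous (∑ i, (f i - 1)) :=
  tDetHom N (Fin c) (Matrix.of fun i k => pderiv (α k) (G i)) (fun i => f i - 1)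
    fun i _ => (hG i).pderiv

/-- Values of the minors. -/
theorem eval_mnr {c : ℕ} (G : Fin c → Sx N) (α : Fin c → Fin (N + 1)) (y : Vx N) :
    eval y (mnr G α) = Matrix.det (Matrix.of fun i k => grad (G i) y (α k)) := by
  unfold mnr
  rw [RingHom.map_det]
  rfl

/-- The minors vanish where the gradients are dependent. -/
theorem eval_mnr_eq_zero {c : ℕ} {G : Fin c → Sx N} {y : Vx N}
    (h : ¬ LinearIndependent ℂ (fun i => grad (G i) y)) (α : Fin c → Fin (N + 1)) :
    eval y (mnr G α) = 0 := by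
  rw [eval_mnr]
  by_contra h1
  apply h
  have h2 : LinearIndependent ℂ (Matrix.of fun i k => grad (G i) y (α k)).row :=
    Matrix.linearIndependent_rows_of_det_ne_zero h1
  exact LinearIndependent.of_comp (LinearMap.funLeft ℂ ℂ α) h2

/-- A product formula modulo `I`. -/
theorem mnr_mul {c : ℕ} {I : Ideal (Sx N)} {G F : Fin c → Sx N} (hG : ∀ i, G i ∈ I)
    (hF : ∀ i, F i ∈ I) (h : Sx N) (A : Fin c → Fin c → Sx N)
    (hA : ∀ i, ∑ j, A i j * F j = h * G i) (α : Fin c → Fin (N + 1)) :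
    Ideal.Quotient.mk I h ^ c * Ideal.Quotient.mk I (mnr G α) =
      Matrix.det (Matrix.of fun i j => Ideal.Quotient.mk I (A i j)) *
        Ideal.Quotient.mk I (mnr F α) := by
  have h0 : ∀ {K : Sx N}, K ∈ I → Ideal.Quotient.mk I K = 0 := fun hK =>
    Ideal.Quotient.eq_zero_iff_mem.2 hK
  unfold mnr
  rw [RingHom.map_det, RingHom.map_det, ← Matrix.det_mul]
  have h1 : Ideal.Quotient.mk I h • (Ideal.Quotient.mk I).mapMatrix
      (Matrix.of fun i k => pderiv (α k) (G i)) =
      (Matrix.of fun i j => Ideal.Quotient.mk I (A i j)) * (Ideal.Quotient.mk I).mapMatrix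
      (Matrix.of fun i k => pderiv (α k) (F i)) := by
    ext i k
    rw [Matrix.smul_apply, Matrix.mul_apply, smul_eq_mul, RingHom.mapMatrix_apply, Matrix.map_apply,
      Matrix.of_apply]
    have h2 := congrArg (fun K => Ideal.Quotient.mk I (pderiv (α k) K)) (hA i)
    simp only [map_sum, Derivation.leibniz, smul_eq_mul, map_add, map_mul, h0 (hG i),
      h0 (hF _), zero_mul, add_zero] at h2
    rw [← h2]
    refine Finset.sum_congr rfl fun j _ => ?_
    rfl
  rw [← h1, Matrix.det_smul, Fintype.card_fin]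

end DivAux

open DivAux

theorem qDiv : S_Div := by
  intro N c I hI hIH hs G f hG y hy hy0 hdep
  obtain ⟨F, fs, h, e, hF, -, hhy, hli, hgen⟩ := hs y hy hy0
  obtain ⟨α₀, hα₀⟩ := tMinor (Fin c) (N + 1) (fun i => grad (F i) y) hli
  have hμ : eval y (mnr F α₀) ≠ 0 := by
    rw [eval_mnr]
    exact hα₀
  have hA : ∀ i, ∃ a : Fin c → Sx N, ∑ j, a j * F j = h * G i := fun i =>
    (Ideal.mem_span_range_iff_exists_fun).1 (hgen (G i) (hG i).1)
  choose A hA using hA
  have hmul := mnr_mul (fun i => (hG i).1) (fun i => (hF i).1) h A hA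
  have hJH : IsHom (I ⊔ Ideal.span (Set.range (mnr G))) := by
    refine qSupHom hIH (qSpanHom _ ?_)
    rintro _ ⟨α, rfl⟩
    exact ⟨_, mnr_hom (fun i => (hG i).2) α⟩
  have hyJ : y ∈ zer (I ⊔ Ideal.span (Set.range (mnr G))) := by
    have h1 : I ⊔ Ideal.span (Set.range (mnr G)) ≤ ptI y := by
      refine sup_le (fun K hK => RingHom.mem_ker.2 (hy K hK)) (Ideal.span_le.2 ?_)
      rintro _ ⟨α, rfl⟩
      exact RingHom.mem_ker.2 (eval_mnr_eq_zero hdep α)
    exact fun K hK => RingHom.mem_ker.1 (h1 hK)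
  obtain ⟨P, hP, hPH, hJP, -, hD⟩ := qCut (g := 1) hs hJH le_sup_left hyJ hy0
    (fun _ => mnr G α₀) (fun _ => Ideal.mem_sup_right (Ideal.subset_span ⟨α₀, rfl⟩))
    (mnr F α₀ * h ^ c) (by
      rw [map_mul, map_pow]
      exact mul_ne_zero hμ (pow_ne_zero _ hhy))
    (by
      have h2 : ∀ α, mnr F α₀ * h ^ c * mnr G α ∈
          I ⊔ Ideal.span (Set.range fun _ : Fin 1 => mnr G α₀) := by
        intro α
        have h3 : mnr F α₀ * h ^ c * mnr G α - h ^ c * mnr F α * mnr G α₀ ∈ I := by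
          rw [← Ideal.Quotient.eq_zero_iff_mem, map_sub, sub_eq_zero]
          simp only [map_mul, map_pow]
          have h4 := hmul α
          have h5 := hmul α₀
          calc _ = Ideal.Quotient.mk I (mnr F α₀) *
                (Ideal.Quotient.mk I h ^ c * Ideal.Quotient.mk I (mnr G α)) := by ring
            _ = Ideal.Quotient.mk I (mnr F α) * (Matrix.det
                (Matrix.of fun i j => Ideal.Quotient.mk I (A i j)) *
                Ideal.Quotient.mk I (mnr F α₀)) := by rw [h4]; ring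
            _ = _ := by rw [← h5]; ring
        have h6 : mnr F α₀ * h ^ c * mnr G α =
            (mnr F α₀ * h ^ c * mnr G α - h ^ c * mnr F α * mnr G α₀) +
              h ^ c * mnr F α * mnr G α₀ := by ring
        rw [h6]
        exact Ideal.add_mem _ (Ideal.mem_sup_left h3) (Ideal.mem_sup_right
          (Ideal.mul_mem_left _ _ (Ideal.subset_span ⟨0, rfl⟩)))
      intro K hK
      obtain ⟨K₁, hK₁, K₂, hK₂, rfl⟩ := Submodule.mem_sup.1 hK
      rw [mul_add]
      refine Ideal.add_mem _ (Ideal.mem_sup_left (Ideal.mul_mem_left _ _ hK₁)) ?_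
      refine Submodule.span_induction (p := fun K _ => mnr F α₀ * h ^ c * K ∈
          I ⊔ Ideal.span (Set.range fun _ : Fin 1 => mnr G α₀)) ?_ ?_ ?_ ?_ hK₂
      · rintro _ ⟨α, rfl⟩
        exact h2 α
      · rw [mul_zero]
        exact Ideal.zero_mem _
      · intro a b _ _ ha hb
        rw [mul_add]
        exact Ideal.add_mem _ ha hb
      · intro a b _ hb
        rw [smul_eq_mul, mul_left_comm]
        exact Ideal.mul_mem_left _ _ hb)
  exact ⟨P, hP, hPH, le_sup_left.trans hJP, hD,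
    fun α => hJP (Ideal.mem_sup_right (Ideal.subset_span ⟨α, rfl⟩))⟩

end Pool.Agent.Lib.MP_776403_ag.SD.Q1
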