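import Pool.Agent.Lib.MP_776403_ag.SD.Q1.Base

/-!
# THEOREM Q1, module Ind: the conclusion of the induction
-/

set_option autoImplicit false

open MvPolynomial

noncomputable section

namespace Pool.Agent.Lib.MP_776403_ag.SD.Q1

namespace IndAux

variable {N c : ℕ} {d : Fin c → ℕ} {I : Ideal (Sx N)}

/-- If all `d i ≤ K` then the span of the differentials is the conormal space. -/
theorem gs_eq (hH : Hyp I d) {K : ℕ} (hd : ∀ i, d i ≤ K) {G : Fin c → Sx N} (hG : Data I d K G)
    {y : Vx N} (hy : y ∈ zer I) (hy0 : y ≠ 0) : GS d K G y = CN I y := by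
  obtain ⟨h1, h2, -, -⟩ := mPerp N c I hH.prime hH.hom hH.smooth y hy hy0
  have hle : GS d K G y ≤ CN I y := by
    unfold GS
    rw [Submodule.span_le]
    rintro _ ⟨i, hi, rfl⟩
    exact h2 _ (hG.hom i hi).1
  refine Submodule.eq_of_le_of_finrank_le hle ?_
  rw [h1]
  have h3 := hG.ind y hy hy0
  have h4 : Module.finrank ℂ (Submodule.span ℂ
      (Set.range fun i : {i // d i ≤ K} => grad (G i.1) y)) = Fintype.card {i // d i ≤ K} :=
    finrank_span_eq_card h3
  have h5 : Fintype.card {i // d i ≤ K} = c := by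
    rw [Fintype.card_of_subtype Finset.univ (fun i => by simp [hd i])]
    simp
  have h6 : Submodule.span ℂ (Set.range fun i : {i // d i ≤ K} => grad (G i.1) y) ≤ GS d K G y := by
    rw [Submodule.span_le]
    rintro _ ⟨i, rfl⟩
    exact Submodule.subset_span ⟨i.1, i.2, rfl⟩
  have h7 := Submodule.finrank_mono h6
  rw [h4, h5] at h7
  exact h7

/-- The step. -/
theorem step (hH : Hyp I d) {K : ℕ} (hK : 1 ≤ K) (hd : ∀ i, d i ≤ K) {G : Fin c → Sx N}
    (hG : Data I d K G) : Data I d (K + 1) G where
  hom := fun i _ => hG.hom i (hd i)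
  ind := by
    intro y hy hy0
    have h1 := hG.ind y hy hy0
    exact h1.comp (fun i : {i // d i ≤ K + 1} => (⟨i.1, hd i.1⟩ : {i // d i ≤ K})) (by
      intro a b hab
      exact Subtype.ext (congrArg (fun z : {i // d i ≤ K} => z.1) hab))
  gen := by
    intro k hk F hF hFk
    have hmono : Ideal.span (G '' {i | d i ≤ K}) ≤ Ideal.span (G '' {i | d i ≤ K + 1}) :=
      Ideal.span_mono (Set.image_mono fun i _ => by
        have := hd i
        show d i ≤ K + 1
        omega)
    rcases Nat.lt_or_ge K k with hlt | hge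
    · have hk' : k = K + 1 := by omega
      subst hk'
      apply hmono
      by_contra hcon
      obtain ⟨y, hy, hy0, hyG⟩ := mB3 N c d I hH K G hK hG F hF hFk hcon
      rw [gs_eq hH hd hG hy hy0] at hyG
      exact hyG ((mPerp N c I hH.prime hH.hom hH.smooth y hy hy0).2.1 F hF)
    · exact hmono (hG.gen k hge F hF hFk)

end IndAux

open IndAux

theorem qInd (h1 : S_D12) (h2 : S_D23) : S_Ind := by
  intro N c d I hH hd3 huniq
  obtain ⟨G0, hG0⟩ := h1 N c d I hH
  obtain ⟨G, hG⟩ := h2 N c d I hH hd3 huniq G0 hG0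
  have hall : ∀ K : ℕ, Data I d (3 + K) G := by
    intro K
    induction K with
    | zero => exact hG
    | succ K ih =>
      have h5 : 1 ≤ 3 + K := by omega
      have h6 : 3 ≤ 3 + K := by omega
      exact step hH h5 (fun i => (hd3 i).trans h6) ih
  have hhom : ∀ i, G i ∈ I ∧ (G i).IsHomogeneous (d i) := fun i => hG.hom i (hd3 i)
  refine ⟨G, fun i => (hhom i).2, le_antisymm ?_ ?_⟩
  · intro F hF
    have hsum := sum_homogeneousComponent F
    rw [← hsum]
    refine Ideal.sum_mem _ (fun k _ => ?_)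
    have h4 := (hall k).gen k (by omega) (homogeneousComponent k F) (hH.hom F hF k)
      (homogeneousComponent_isHomogeneous k F)
    exact Ideal.span_mono (Set.image_subset_range _ _) h4
  · rw [Ideal.span_le]
    rintro _ ⟨i, rfl⟩
    exact (hhom i).1

end Pool.Agent.Lib.MP_776403_ag.SD.Q1
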