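import Pool.Agent.Lib.MP_776403_ag.SD.Q1.Spec
import Pool.Agent.Lib.MP_776403_ag.SD.Z.RL

/-!
# THEOREM Q1 from its parts
-/

set_option autoImplicit false

noncomputable section

namespace Pool.Agent.Lib.MP_776403_ag.SD.Q1

open Polynomial RAux RLAux ZAux

namespace MainAux

/-- `h_1 ≥ c`. -/
theorem le_h1 (N n c s : ℕ) (I : Ideal (Sx N)) (h : ℕ → ℕ) (hN : N = n + c)
    (hs : 1 ≤ s) (hI : I.IsPrime) (hIh : IsHom I) (hne : ∃ y ∈ zer I, y ≠ 0)
    (hnd : ∀ F ∈ I, F.IsHomogeneous 1 → F = 0) (h0 : h 0 = 1)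
    (hReg : ∀ (k r : ℕ) (f : Fin r → (Vx N → ℂ)), (∀ i, IsReg I k (f i)) →
      LinearIndependent ℂ f → r ≤ hsum n s h k) : c ≤ h 1 := by
  obtain ⟨x, hx, hx0⟩ := hne
  have h1 : LinearIndependent ℂ (fun i : Fin (N + 1) => HFbAux.fn I (MvPolynomial.X i : Sx N)) := by
    rw [Fintype.linearIndependent_iff]
    intro b hb i
    have h2 : (∑ j, b j • (MvPolynomial.X j : Sx N)) ∈ I := by
      refine (tNull N I hI hIh).2 ⟨x, hx, hx0⟩ _ 1 ?_ ?_
      · exact (MvPolynomial.homogeneousSubmodule (Fin (N + 1)) ℂ 1).sum_mem fun j _ =>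
          (MvPolynomial.homogeneousSubmodule (Fin (N + 1)) ℂ 1).smul_mem _
            (MvPolynomial.isHomogeneous_X ℂ j)
      · intro z hz hz0
        have h3 := congrFun hb z
        rw [Finset.sum_apply] at h3
        rw [map_sum]
        refine Eq.trans (Finset.sum_congr rfl fun j _ => ?_) h3
        rw [Pi.smul_apply, HFbAux.fn_of _ hz hz0, MvPolynomial.smul_eval, smul_eq_mul]
    have h4 := hnd _ h2 ((MvPolynomial.homogeneousSubmodule (Fin (N + 1)) ℂ 1).sum_mem fun j _ =>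
          (MvPolynomial.homogeneousSubmodule (Fin (N + 1)) ℂ 1).smul_mem _
            (MvPolynomial.isHomogeneous_X ℂ j))
    have h5 := congrArg (MvPolynomial.eval (Pi.single i (1 : ℂ))) h4
    rw [map_sum, map_zero, Finset.sum_eq_single i] at h5
    · rwa [MvPolynomial.smul_eval, MvPolynomial.eval_X, Pi.single_eq_same, mul_one] at h5
    · intro j _ hj
      rw [MvPolynomial.smul_eval, MvPolynomial.eval_X, Pi.single_eq_of_ne hj, mul_zero]
    · intro h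
      exact absurd (Finset.mem_univ i) h
  have h2 := hReg 1 (N + 1) _ (fun i => HFbAux.fn_reg I (MvPolynomial.isHomogeneous_X ℂ i)) h1
  have h3 : hsum n s h 1 = (n + 1) + h 1 := by
    unfold hsum
    obtain ⟨s', rfl⟩ : ∃ s', s = s' + 1 := ⟨s - 1, by omega⟩
    rw [Finset.sum_range_succ', Finset.sum_range_succ']
    rw [Finset.sum_eq_zero (fun i _ => by rw [if_neg (by omega), mul_zero])]
    simp [h0]
    ring
  rw [h3] at h2
  omega

theorem hP4 (h : ℕ → ℕ) (h0 : h 0 = 1) (h3 : h 3 = h 1) (h4 : h 4 = 1) :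
    hP 4 h = 1 + C (h 1 : ℤ) * X + C (h 2 : ℤ) * X ^ 2 + C (h 1 : ℤ) * X ^ 3 + X ^ 4 := by
  unfold hP
  simp only [Finset.sum_range_succ, Finset.sum_range_zero, ← C_mul_X_pow_eq_monomial, h0, h3, h4]
  simp only [Nat.cast_one, map_one, one_mul, pow_zero, mul_one, pow_one, zero_add]

theorem hP5 (h : ℕ → ℕ) (h0 : h 0 = 1) (h3 : h 3 = h 2) (h4 : h 4 = h 1) (h5 : h 5 = 1) :
    hP 5 h = 1 + C (h 1 : ℤ) * X + C (h 2 : ℤ) * X ^ 2 + C (h 2 : ℤ) * X ^ 3 +
      C (h 1 : ℤ) * X ^ 4 + X ^ 5 := by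
  unfold hP
  simp only [Finset.sum_range_succ, Finset.sum_range_zero, ← C_mul_X_pow_eq_monomial, h0, h3, h4,
    h5]
  simp only [Nat.cast_one, map_one, one_mul, pow_zero, mul_one, pow_one, zero_add]

theorem hP6 (h : ℕ → ℕ) (h0 : h 0 = 1) (h4 : h 4 = h 2) (h5 : h 5 = h 1) (h6 : h 6 = 1) :
    hP 6 h = 1 + C (h 1 : ℤ) * X + C (h 2 : ℤ) * X ^ 2 + C (h 3 : ℤ) * X ^ 3 +
      C (h 2 : ℤ) * X ^ 4 + C (h 1 : ℤ) * X ^ 5 + X ^ 6 := by
  unfold hP
  simp only [Finset.sum_range_succ, Finset.sum_range_zero, ← C_mul_X_pow_eq_monomial, h0, h4, h5,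
    h6]
  simp only [Nat.cast_one, map_one, one_mul, pow_zero, mul_one, pow_one, zero_add]

theorem arith {N n c s D : ℕ} (hN : N = n + c) (hc : 3 ≤ c) (hs : 4 ≤ s)
    (hD : (s - 1) * c + 2 ≤ D) (hn : D + 1 ≤ n) (hr : ¬ 3 * c + 2 * s + 1 ≤ N) :
    c = 3 ∧ (s = 4 ∨ s = 5 ∨ s = 6) ∨ c = 4 ∧ s = 4 ∨ c = 5 ∧ s = 4 := by
  obtain ⟨u, rfl⟩ : ∃ u, s = u + 4 := ⟨s - 4, by omega⟩
  obtain ⟨v, rfl⟩ : ∃ v, c = v + 3 := ⟨c - 3, by omega⟩
  have e1 : (u + 4 - 1) * (v + 3) = u * v + 3 * u + 3 * v + 9 := by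
    rw [show u + 4 - 1 = u + 3 by omega]
    ring
  rw [e1] at hD
  have h1 : u * v + u + v ≤ 2 := by omega
  have h2 : u ≤ 2 := by omega
  have h3 : v ≤ 2 := by omega
  interval_cases u <;> interval_cases v <;> omega

/-- The type `(2, 2, 3)`. -/
theorem prod223 (d : Fin 3 → ℕ) (hd : ∀ i, d i = 2 ∨ d i = 3) (hs : ∑ i, d i = 7) :
    (1 - X : ℤ[X]) ^ 3 * (1 + C (3 : ℤ) * X + C (4 : ℤ) * X ^ 2 + C (3 : ℤ) * X ^ 3 + X ^ 4) =
      ∏ i, (1 - X ^ (d i)) := by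
  rw [Fin.sum_univ_three] at hs
  rw [Fin.prod_univ_three]
  have e3 : (C (3 : ℤ) : ℤ[X]) = 3 := rfl
  have e4 : (C (4 : ℤ) : ℤ[X]) = 4 := rfl
  rw [e3, e4]
  rcases hd 0 with h0 | h0 <;> rcases hd 1 with h1 | h1 <;> rcases hd 2 with h2 | h2 <;>
    rw [h0, h1, h2] at hs ⊢ <;> first | (exfalso; omega) | ring

theorem uniq3 (d : Fin 3 → ℕ) (hd : ∀ i, d i = 2 ∨ d i = 3) (hs : ∑ i, d i = 7) :
    ∀ i j, d i = 3 → d j = 3 → i = j := by
  rw [Fin.sum_univ_three] at hs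
  intro i j hi hj
  rcases hd 0 with h0 | h0 <;> rcases hd 1 with h1 | h1 <;> rcases hd 2 with h2 | h2 <;>
    rw [h0, h1, h2] at hs <;> try (exfalso; omega)
  all_goals
    match i, j, hi, hj with
    | 0, 0, _, _ => rfl
    | 1, 1, _, _ => rfl
    | 2, 2, _, _ => rfl
    | 0, 1, hi, hj => exfalso; omega
    | 0, 2, hi, hj => exfalso; omega
    | 1, 0, hi, hj => exfalso; omega
    | 1, 2, hi, hj => exfalso; omega
    | 2, 0, hi, hj => exfalso; omega
    | 2, 1, hi, hj => exfalso; omega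

/-- `X` is not empty. -/
theorem nonempty_of {N : ℕ} {I : Ideal (Sx N)} (hI : I.IsPrime) (hIh : IsHom I)
    (hnd : ∀ F ∈ I, F.IsHomogeneous 1 → F = 0) : ∃ y ∈ zer I, y ≠ 0 := by
  by_contra hcon
  push Not at hcon
  have h1 : (MvPolynomial.X 0 : Sx N) ∈ I := by
    refine (tNull N I hI hIh).1 (MvPolynomial.X 0) (fun z hz => ?_)
    rw [hcon z hz]
    simp
  have h2 := hnd _ h1 (MvPolynomial.isHomogeneous_X ℂ 0)
  exact MvPolynomial.X_ne_zero (R := ℂ) (0 : Fin (N + 1)) h2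

end MainAux

open MainAux

/-- THEOREM Q1 in the small cases. -/
theorem zQ1S (hDat : S_SDat) (hErr : S_NumErr) (hHci : S_GHci)
    (h3a : S_Num3a) (h3b : S_Num3b) (h3c : S_Num3c) (h4 : S_Num4) (h5 : S_Num5)
    (hInd : S_Ind) (N n c s : ℕ) (I : Ideal (Sx N)) (h : ℕ → ℕ) (hN : N = n + c) (hc3 : 3 ≤ c)
    (hs4 : 4 ≤ s) (hI : I.IsPrime) (hIh : IsHom I) (hnd : ∀ F ∈ I, F.IsHomogeneous 1 → F = 0)
    (hS : Smooth I c) (h0 : h 0 = 1) (hsym : ∀ i ≤ s, h (s - i) = h i)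
    (hHP : ∀ᶠ k : ℕ in Filter.atTop, Module.finrank ℂ (gr I k) = hsum n s h k)
    (hReg : ∀ (k r : ℕ) (f : Fin r → (Vx N → ℂ)), (∀ i, IsReg I k (f i)) →
      LinearIndependent ℂ f → r ≤ hsum n s h k)
    (hDl : (s - 1) * c + 2 ≤ ∑ i ∈ Finset.range (s + 1), h i)
    (hDn : ∑ i ∈ Finset.range (s + 1), h i + 1 ≤ n) (hr : ¬ 3 * c + 2 * s + 1 ≤ N) :
    ∃ (d : Fin c → ℕ) (G : Fin c → Sx N), (∀ i, 2 ≤ d i ∧ (G i).IsHomogeneous (d i)) ∧
      I = Ideal.span (Set.range G) := by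
  have hc : 1 ≤ c := by omega
  have hne : ∃ y ∈ zer I, y ≠ 0 := nonempty_of hI hIh hnd
  have hcs := arith hN hc3 hs4 hDl hDn hr
  -- the numerator of the Hilbert series
  obtain ⟨K, hK⟩ := Filter.eventually_atTop.1 hHP
  set E : ℤ[X] := ∑ k ∈ Finset.range K,
    monomial k ((hsum n s h k : ℤ) - (Module.finrank ℂ (gr I k) : ℤ)) with hE
  set q0 : ℤ[X] := hP s h - (1 - X) ^ (n + 1) * E with hq0d
  have hQP : QP N c (fun k => Module.finrank ℂ (gr I k)) q0 :=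
    QP_change hN (QP_hsum hN s h) K hK
  have hq1 : q0.eval 1 = ((∑ i ∈ Finset.range (s + 1), h i : ℕ) : ℤ) := by
    rw [hq0d, eval_sub, eval_mul, eval_pow, eval_sub, eval_one, eval_X, sub_self,
      zero_pow (by omega), zero_mul, sub_zero, hP_eval]
  have hq1' : 0 < q0.eval 1 := by
    rw [hq1]
    have h1 : h 0 ≤ ∑ i ∈ Finset.range (s + 1), h i :=
      Finset.single_le_sum (f := h) (fun _ _ => Nat.zero_le _) (Finset.mem_range.2 (by omega))
    rw [h0] at h1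
    exact_mod_cast h1
  obtain ⟨q, hq0, hDat', hqj⟩ := hDat N c (by omega) I q0 hI hIh hS hne hQP hq1'
  have hcm : c < N + 1 - 2 * c := by
    have e1 : (s - 1) * c ≥ 3 * c := Nat.mul_le_mul_right c (by omega)
    omega
  obtain ⟨y, hy⟩ := SDV.pBr c (N + 1 - 2 * c) q hcm hDat'
  have hV : (PowerSeries.X : PowerSeries ℂ) ^ (N + 1 - 2 * c) ∣
      SDV.tau ((1 - X) ^ c * hP s h) - SDV.gx y := by
    have h1 := SDV.pP1 c (N + 1 - 2 * c) q y hDat' hy
    rw [hq0] at h1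
    have h3 : SDV.tau ((1 - X) ^ c * hP s h) - SDV.gx y =
        (SDV.tau ((1 - X) ^ c * q0) - SDV.gx y) + SDV.tau ((1 - X) ^ (c + (n + 1)) * E) := by
      have h4 : (1 - X : ℤ[X]) ^ c * hP s h =
          (1 - X) ^ c * q0 + (1 - X) ^ (c + (n + 1)) * E := by
        rw [hq0d, pow_add]
        ring
      rw [h4]
      unfold SDV.tau
      rw [map_add]
      ring
    rw [h3]
    refine dvd_add h1 ((SDV.pT1 _ _).1 ?_)
    exact Dvd.dvd.mul_right (pow_dvd_pow _ (by omega)) _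
  have hh1 := le_h1 N n c s I h hN (by omega) hI hIh hne hnd h0 hReg
  rcases hcs with ⟨rfl, rfl | rfl | rfl⟩ | ⟨rfl, rfl⟩ | ⟨rfl, rfl⟩
  · -- `c = 3`, `s = 4`
    have e4 : h 4 = 1 := by rw [← h0, ← hsym 0 (by omega)]
    have e3 : h 3 = h 1 := by rw [← hsym 1 (by omega)]
    rw [hP4 h h0 e3 e4] at hV
    have hD : ∑ i ∈ Finset.range (4 + 1), h i = 2 + 2 * h 1 + h 2 := by
      simp only [Finset.sum_range_succ, Finset.sum_range_zero, h0, e3, e4]
      ring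
    rw [hD] at hDl hDn
    obtain ⟨ha, hb, d, hyd, hd, hds⟩ := h3a (h 1) (h 2) (N + 1 - 2 * 3) y (by omega) hh1
      (by omega) (by omega) hV
    have hprod : (1 - X : ℤ[X]) ^ 3 * hP 4 h = ∏ i, (1 - X ^ (d i)) := by
      rw [hP4 h h0 e3 e4, ha, hb]
      exact prod223 d hd hds
    have hdiv := dvd_of_int q y d hyd hy
    have hd2 : ∀ i, 2 ≤ d i := fun i => by
      rcases hd i with h | h <;> omega
    obtain ⟨G, hG1, hG2⟩ := hInd N 3 d I
      { pos := by omega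
        two_le := hd2
        large := by omega
        prime := hI
        hom := hIh
        nd := hnd
        smooth := hS
        numW := hErr N 3 I d hI hIh hS hc (by omega) q (by rw [hq0]; exact hQP)
          (by rw [hq0]; exact ne_of_gt hq1') hqj hdiv
        reg := fun k r f hf hli => by
          have h1 := hReg k r f hf hli
          have h2 := hHci N 3 _ (hP 4 h) d (QP_hsum hN 4 h) hprod k
          rw [← h2]
          exact_mod_cast h1 }
      (fun i => by rcases hd i with h | h <;> omega)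
      (uniq3 d hd hds)
    exact ⟨d, G, fun i => ⟨hd2 i, hG1 i⟩, hG2⟩
  · -- `c = 3`, `s = 5`
    exfalso
    have e5 : h 5 = 1 := by rw [← h0, ← hsym 0 (by omega)]
    have e4 : h 4 = h 1 := by rw [← hsym 1 (by omega)]
    have e3 : h 3 = h 2 := by rw [← hsym 2 (by omega)]
    rw [hP5 h h0 e3 e4 e5] at hV
    have hD : ∑ i ∈ Finset.range (5 + 1), h i = 2 + 2 * h 1 + 2 * h 2 := by
      simp only [Finset.sum_range_succ, Finset.sum_range_zero, h0, e3, e4, e5]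
      ring
    rw [hD] at hDl hDn
    exact h3b (h 1) (h 2) (N + 1 - 2 * 3) y (by omega) hh1 (by omega) hV
  · -- `c = 3`, `s = 6`
    exfalso
    have e6 : h 6 = 1 := by rw [← h0, ← hsym 0 (by omega)]
    have e5 : h 5 = h 1 := by rw [← hsym 1 (by omega)]
    have e4 : h 4 = h 2 := by rw [← hsym 2 (by omega)]
    rw [hP6 h h0 e4 e5 e6] at hV
    have hD : ∑ i ∈ Finset.range (6 + 1), h i = 2 + 2 * h 1 + 2 * h 2 + h 3 := by
      simp only [Finset.sum_range_succ, Finset.sum_range_zero, h0, e4, e5, e6]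
      ring
    rw [hD] at hDl hDn
    exact h3c (h 1) (h 2) (h 3) (N + 1 - 2 * 3) y (by omega) hh1 (by omega) hV
  · -- `c = 4`, `s = 4`
    exfalso
    have e4 : h 4 = 1 := by rw [← h0, ← hsym 0 (by omega)]
    have e3 : h 3 = h 1 := by rw [← hsym 1 (by omega)]
    rw [hP4 h h0 e3 e4] at hV
    have hD : ∑ i ∈ Finset.range (4 + 1), h i = 2 + 2 * h 1 + h 2 := by
      simp only [Finset.sum_range_succ, Finset.sum_range_zero, h0, e3, e4]
      ring
    rw [hD] at hDl hDn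
    exact h4 (h 1) (h 2) (N + 1 - 2 * 4) y (by omega) hh1 (by omega) (by omega) hV
  · -- `c = 5`, `s = 4`
    exfalso
    have e4 : h 4 = 1 := by rw [← h0, ← hsym 0 (by omega)]
    have e3 : h 3 = h 1 := by rw [← hsym 1 (by omega)]
    rw [hP4 h h0 e3 e4] at hV
    have hD : ∑ i ∈ Finset.range (4 + 1), h i = 2 + 2 * h 1 + h 2 := by
      simp only [Finset.sum_range_succ, Finset.sum_range_zero, h0, e3, e4]
      ring
    rw [hD] at hDl hDn
    exact h5 (h 1) (h 2) (N + 1 - 2 * 5) y (by omega) hh1 (by omega) hV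

/-- THEOREM Q1 from its parts. -/
theorem zQ1 (hR : S_R) (hCov : S_CovH) (hDat : S_SDat) (hErr : S_NumErr) (hHci : S_GHci)
    (h3a : S_Num3a) (h3b : S_Num3b) (h3c : S_Num3c) (h4 : S_Num4) (h5 : S_Num5)
    (hInd : S_Ind) : S_Q1 := by
  intro N n c s I h hN hc3 hs4 hI hIh hnd hS h0 hsym hHP hReg hdeg hDl hDn
  by_cases hr : 3 * c + 2 * s + 1 ≤ N
  · refine hR N n c s (c + s) I h hN (by omega) hI hIh hnd hS h0 hHP hReg hdeg ?_ (by omega)
      (by omega)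
    exact hCov N c _ I (by omega) hI hIh hnd hS
      (gr_le N n c s I h hN hI hIh (nonempty_of hI hIh hnd) hReg)
  · exact zQ1S hDat hErr hHci h3a h3b h3c h4 h5 hInd N n c s I h hN hc3 hs4 hI hIh hnd hS h0 hsym
      hHP hReg hDl hDn hr

end Pool.Agent.Lib.MP_776403_ag.SD.Q1
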