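import Pool.Agent.Lib.MP_776403_ag.SD.Q1.Spec
import Pool.Agent.Lib.MP_776403_ag.SD.V.Main

/-!
# THEOREM Q1: the Chern roots in codimension 3
-/

set_option autoImplicit false

noncomputable section

namespace Pool.Agent.Lib.MP_776403_ag.SD.Q1

namespace Num3Aux

open Polynomial

theorem coeff_eu (x : ℂ) (n : ℕ) :
    PowerSeries.coeff n (SDV.eu x) = x ^ n / (n.factorial : ℂ) := by
  unfold SDV.eu
  rw [PowerSeries.coeff_rescale, PowerSeries.coeff_exp]
  simp [div_eq_mul_inv]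

/-- The coefficients of `tau`. -/
theorem coef (n : ℕ) (f : ℕ → ℤ) (k : ℕ) :
    PowerSeries.coeff k (SDV.tau (∑ i ∈ Finset.range n, C (f i) * X ^ i)) =
      (∑ i ∈ Finset.range n, (f i : ℂ) * (-(i : ℂ)) ^ k) / (k.factorial : ℂ) := by
  have h1 : SDV.tau (∑ i ∈ Finset.range n, C (f i) * X ^ i) =
      ∑ i ∈ Finset.range n, PowerSeries.C (f i : ℂ) * SDV.eu (-(i : ℂ)) := by
    have h2 : ∀ F : ℤ[X], SDV.tau F = Polynomial.aeval (SDV.eu (-1)) F := fun _ => rfl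
    rw [h2, map_sum]
    refine Finset.sum_congr rfl fun i _ => ?_
    rw [map_mul, ← h2 (X ^ i), (SDV.pT2 0).2.2.2 i, aeval_C]
    congr 1
    simp
  rw [h1, map_sum, Finset.sum_div]
  refine Finset.sum_congr rfl fun i _ => ?_
  rw [PowerSeries.coeff_C_mul, coeff_eu, mul_div_assoc]

theorem ber3 : _root_.bernoulli 3 = 0 := by
  rw [_root_.bernoulli_eq_bernoulli'_of_ne_one (by norm_num)]
  exact _root_.bernoulli'_three

theorem ber4 : _root_.bernoulli 4 = -1 / 30 := by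
  rw [_root_.bernoulli_eq_bernoulli'_of_ne_one (by norm_num)]
  exact _root_.bernoulli'_four

/-- The power sums from the coefficients. -/
theorem core (hRec : S_Rec) (F : ℤ[X]) (m : ℕ) (hm : 8 ≤ m) (x : Fin 3 → ℂ)
    (hdiv : (PowerSeries.X : PowerSeries ℂ) ^ m ∣ SDV.tau F - SDV.gx x) (t : ℕ → ℂ)
    (ht : ∀ k, PowerSeries.coeff k (SDV.tau F) = t k) (h0 : t 0 = 0) (h1 : t 1 = 0)
    (h2 : t 2 = 0) :
    t 4 = -(1 / 2) * t 3 * ∑ l, x l ∧
    2 * t 5 = -(1 / 2) * t 4 * ∑ l, x l + 1 / 12 * t 3 * ∑ l, x l ^ 2 ∧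
    4 * t 7 = -(1 / 2) * t 6 * ∑ l, x l + 1 / 12 * t 5 * ∑ l, x l ^ 2 -
      1 / 720 * t 3 * ∑ l, x l ^ 4 := by
  have a4 := hRec 3 m F x hdiv 4 (by omega)
  have a5 := hRec 3 m F x hdiv 5 (by omega)
  have a7 := hRec 3 m F x hdiv 7 (by omega)
  simp only [ht, Finset.sum_range_succ, Finset.sum_range_zero] at a4 a5 a7
  norm_num [ber3, ber4, h0, h1, h2, Nat.factorial, _root_.bernoulli_two,
    _root_.bernoulli_one, _root_.bernoulli_zero] at a4 a5 a7
  refine ⟨?_, ?_, ?_⟩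
  · linear_combination a4
  · linear_combination a5
  · linear_combination a7

/-- The identity between the power sums, over `ℚ`. -/
theorem key (x : Fin 3 → ℂ) (t : ℕ → ℂ) (T3 T4 T5 T6 T7 E : ℚ) (hT : T3 ≠ 0)
    (e3 : t 3 = T3) (e4 : t 4 = T4) (e5 : t 5 = T5) (e6 : t 6 = T6) (e7 : t 7 = T7)
    (hE : ∏ l, x l = (E : ℂ))
    (h : t 4 = -(1 / 2) * t 3 * ∑ l, x l ∧
      2 * t 5 = -(1 / 2) * t 4 * ∑ l, x l + 1 / 12 * t 3 * ∑ l, x l ^ 2 ∧
      4 * t 7 = -(1 / 2) * t 6 * ∑ l, x l + 1 / 12 * t 5 * ∑ l, x l ^ 2 -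
        1 / 720 * t 3 * ∑ l, x l ^ 4) :
    ∃ P1 P2 P4 : ℚ, ∑ l, x l = (P1 : ℂ) ∧ ∑ l, x l ^ 2 = (P2 : ℂ) ∧
      T3 * P1 = -2 * T4 ∧ T3 * P2 = 24 * T5 + 6 * T4 * P1 ∧
      T3 * P4 = 720 * (-(1 / 2) * T6 * P1 + 1 / 12 * T5 * P2 - 4 * T7) ∧
      P4 = P1 ^ 4 - 2 * P1 ^ 2 * (P1 ^ 2 - P2) + (P1 ^ 2 - P2) ^ 2 / 2 + 4 * P1 * E := by
  obtain ⟨a1, a2, a4⟩ := h
  rw [e3, e4] at a1
  rw [e3, e4, e5] at a2
  rw [e3, e5, e6, e7] at a4
  have hT' : (T3 : ℂ) ≠ 0 := by exact_mod_cast hT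
  set P1 : ℚ := -2 * T4 / T3 with hP1
  set P2 : ℚ := (24 * T5 + 6 * T4 * P1) / T3 with hP2
  set P4 : ℚ := 720 * (-(1 / 2) * T6 * P1 + 1 / 12 * T5 * P2 - 4 * T7) / T3 with hP4
  have b1 : T3 * P1 = -2 * T4 := by rw [hP1]; field_simp
  have b2 : T3 * P2 = 24 * T5 + 6 * T4 * P1 := by rw [hP2]; field_simp
  have b4 : T3 * P4 = 720 * (-(1 / 2) * T6 * P1 + 1 / 12 * T5 * P2 - 4 * T7) := by
    rw [hP4]; field_simp
  have c1 : ∑ l, x l = (P1 : ℂ) := by
    apply mul_left_cancel₀ hT'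
    have : (T3 : ℂ) * (P1 : ℂ) = -2 * T4 := by exact_mod_cast b1
    rw [this]
    linear_combination 2 * a1
  rw [c1] at a1 a2 a4
  have c2 : ∑ l, x l ^ 2 = (P2 : ℂ) := by
    apply mul_left_cancel₀ hT'
    have : (T3 : ℂ) * (P2 : ℂ) = 24 * T5 + 6 * T4 * P1 := by exact_mod_cast b2
    rw [this]
    linear_combination -12 * a2
  rw [c2] at a2 a4
  have c4 : ∑ l, x l ^ 4 = (P4 : ℂ) := by
    apply mul_left_cancel₀ hT'
    have h5 : ((T3 * P4 : ℚ) : ℂ) =
        ((720 * (-(1 / 2) * T6 * P1 + 1 / 12 * T5 * P2 - 4 * T7) : ℚ) : ℂ) := by rw [b4]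
    push_cast at h5
    rw [h5]
    linear_combination 720 * a4
  refine ⟨P1, P2, P4, c1, c2, b1, b2, b4, ?_⟩
  have h6 : (P4 : ℂ) = P1 ^ 4 - 2 * P1 ^ 2 * (P1 ^ 2 - P2) + (P1 ^ 2 - P2) ^ 2 / 2 +
      4 * P1 * E := by
    rw [← c1, ← c2, ← c4, ← hE, Fin.sum_univ_three, Fin.sum_univ_three, Fin.sum_univ_three,
      Fin.prod_univ_three]
    ring
  exact_mod_cast h6

end Num3Aux

open Num3Aux Polynomial

/-- The coefficients for `S_Num3a`. -/
def Num3Aux.fa (a b : ℤ) : ℕ → ℤ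
  | 0 => 1
  | 1 => a - 3
  | 2 => b - 3 * a + 3
  | 3 => 4 * a - 3 * b - 1
  | 4 => 1 - 4 * a + 3 * b
  | 5 => 3 * a - b - 3
  | 6 => 3 - a
  | 7 => -1
  | _ => 0

/-- The coefficients for `S_Num3b`. -/
def Num3Aux.fb (a b : ℤ) : ℕ → ℤ
  | 0 => 1
  | 1 => a - 3
  | 2 => b - 3 * a + 3
  | 3 => 3 * a - 2 * b - 1
  | 4 => 0
  | 5 => 1 - 3 * a + 2 * b
  | 6 => 3 * a - b - 3
  | 7 => 3 - a
  | 8 => -1
  | _ => 0

/-- The coefficients for `S_Num3c`. -/
def Num3Aux.fc (a b e : ℤ) : ℕ → ℤ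
  | 0 => 1
  | 1 => a - 3
  | 2 => b - 3 * a + 3
  | 3 => 3 * a - 3 * b + e - 1
  | 4 => 4 * b - a - 3 * e
  | 5 => a - 4 * b + 3 * e
  | 6 => 1 - 3 * a + 3 * b - e
  | 7 => 3 * a - b - 3
  | 8 => 3 - a
  | 9 => -1
  | _ => 0

/-- The Taylor coefficients. -/
def Num3Aux.tt (n : ℕ) (f : ℕ → ℤ) (k : ℕ) : ℂ :=
  (∑ i ∈ Finset.range n, (f i : ℂ) * (-(i : ℂ)) ^ k) / (k.factorial : ℂ)

theorem qNum3a (h : S_Rec) : S_Num3a := by
  intro a b m x hm ha hD1 hD2 hdiv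
  have hprod := SDV.pPr 3 m _ x (by omega) hdiv
  simp only [eval_add, eval_one, eval_mul, eval_C, eval_X, eval_pow, one_pow, mul_one] at hprod
  have hF : (1 - X : ℤ[X]) ^ 3 * (1 + C (a : ℤ) * X + C (b : ℤ) * X ^ 2 +
      C (a : ℤ) * X ^ 3 + X ^ 4) = ∑ i ∈ Finset.range 8, C (fa a b i) * X ^ i := by
    simp only [Finset.sum_range_succ, Finset.sum_range_zero, fa, C_sub, C_add, C_mul, C_1, C_neg,
      C_ofNat]
    ring
  rw [hF] at hdiv
  have hc := core h _ m hm x hdiv (tt 8 (fa a b)) (coef 8 (fa a b))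
    (by simp [tt, Finset.sum_range_succ, fa]; ring) (by simp [tt, Finset.sum_range_succ, fa]; ring)
    (by simp [tt, Finset.sum_range_succ, fa]; ring)
  obtain ⟨P1, P2, P4, p1, p2, q1, q2, q4, q5⟩ := key x (tt 8 (fa a b)) (2 + 2 * a + b)
    (-(7 / 2) * (2 + 2 * a + b))
    ((1980 + 1620 * a + 750 * b) / 120) (-(21000 + 13440 * a + 5460 * b) / 720)
    ((203532 + 102732 * a + 35406 * b) / 5040) (2 + 2 * a + b) (by positivity)
    (by simp [tt, Finset.sum_range_succ, fa, Nat.factorial]; ring)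
    (by simp [tt, Finset.sum_range_succ, fa, Nat.factorial]; ring)
    (by simp [tt, Finset.sum_range_succ, fa, Nat.factorial]; ring)
    (by simp [tt, Finset.sum_range_succ, fa, Nat.factorial]; ring)
    (by simp [tt, Finset.sum_range_succ, fa, Nat.factorial]; ring)
    (by rw [hprod]; push_cast; ring) hc
  have hD0 : (2 + 2 * (a : ℚ) + b) ≠ 0 := by positivity
  have r1 : P1 = 7 := by
    apply mul_left_cancel₀ hD0
    rw [q1]
    ring
  rw [r1] at q2 q4 q5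
  have r2 := eq_div_of_mul_eq hD0 ((mul_comm P2 _).trans q2)
  have r4 := eq_div_of_mul_eq hD0 ((mul_comm P4 _).trans q4)
  have hab : a = 3 ∧ b = 4 := by
    rw [r4, r2] at q5
    have ha2 : a ≤ 5 := by omega
    have hb2 : b ≤ 5 := by omega
    interval_cases a <;> interval_cases b <;>
      first
      | exact ⟨rfl, rfl⟩
      | (exfalso; omega)
      | (exfalso; norm_num at q5)
  obtain ⟨rfl, rfl⟩ := hab
  refine ⟨rfl, rfl, ?_⟩
  have r3 : P2 = 17 := by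
    rw [r2]
    norm_num
  rw [r1, Fin.sum_univ_three] at p1
  rw [r3, Fin.sum_univ_three] at p2
  rw [Fin.prod_univ_three] at hprod
  have s1 : x 0 + x 1 + x 2 = 7 := by rw [p1]; norm_num
  have s2 : x 0 * x 1 + x 0 * x 2 + x 1 * x 2 = 16 := by
    have s3 : x 0 ^ 2 + x 1 ^ 2 + x 2 ^ 2 = 17 := by rw [p2]; norm_num
    linear_combination (1 / 2) * (x 0 + x 1 + x 2 + 7) * s1 - (1 / 2) * s3
  have s3 : x 0 * x 1 * x 2 = 12 := by rw [hprod]; norm_num
  have hx : ∀ i, x i = 2 ∨ x i = 3 := by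
    intro i
    have h1 : (x i - 2) ^ 2 * (x i - 3) = 0 := by
      have h2 : ∀ y : ℂ, (y - 2) ^ 2 * (y - 3) = (y - x 0) * (y - x 1) * (y - x 2) := by
        intro y
        linear_combination y ^ 2 * s1 - y * s2 + s3
      rw [h2]
      fin_cases i <;> simp
    rcases mul_eq_zero.1 h1 with h2 | h2
    · left
      have := pow_eq_zero_iff (two_ne_zero) |>.1 h2
      linear_combination this
    · right
      linear_combination h2
  refine ⟨fun i => if x i = 2 then 2 else 3, fun i => ?_, fun i => ?_, ?_⟩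
  · rcases hx i with h1 | h1
    · simp [h1]
    · have h2 : x i ≠ 2 := by
        rw [h1]
        norm_num
      simp only [if_neg h2]
      rw [h1]
      norm_num
  · by_cases h1 : x i = 2
    · left; simp [h1]
    · right; simp [h1]
  · have h5 : ((∑ i, (if x i = 2 then 2 else 3) : ℕ) : ℂ) = 7 := by
      push_cast
      rw [Fin.sum_univ_three]
      have h6 : ∀ i, (if x i = 2 then (2 : ℂ) else 3) = x i := by
        intro i
        rcases hx i with h1 | h1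
        · simp [h1]
        · rw [h1]
          norm_num
      rw [h6, h6, h6]
      exact s1
    exact_mod_cast h5

theorem qNum3b (h : S_Rec) : S_Num3b := by
  intro a b m x hm ha hab hdiv
  have hprod := SDV.pPr 3 m _ x (by omega) hdiv
  simp only [eval_add, eval_one, eval_mul, eval_C, eval_X, eval_pow, one_pow, mul_one] at hprod
  have hF : (1 - X : ℤ[X]) ^ 3 * (1 + C (a : ℤ) * X + C (b : ℤ) * X ^ 2 + C (b : ℤ) * X ^ 3 +
      C (a : ℤ) * X ^ 4 + X ^ 5) = ∑ i ∈ Finset.range 9, C (fb a b i) * X ^ i := by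
    simp only [Finset.sum_range_succ, Finset.sum_range_zero, fb, C_sub, C_add, C_mul, C_1, C_neg,
      C_ofNat, C_0]
    ring
  rw [hF] at hdiv
  have hc := core h _ m hm x hdiv (tt 9 (fb a b)) (coef 9 (fb a b))
    (by simp [tt, Finset.sum_range_succ, fb]; ring) (by simp [tt, Finset.sum_range_succ, fb]; ring)
    (by simp [tt, Finset.sum_range_succ, fb]; ring)
  obtain ⟨P1, P2, P4, p1, p2, q1, q2, q4, q5⟩ := key x (tt 9 (fb a b)) (2 + 2 * a + 2 * b)
    (-4 * (2 + 2 * a + 2 * b))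
    ((2700 + 2220 * a + 1980 * b) / 120) (-(34080 + 22560 * a + 16800 * b) / 720)
    ((390012 + 211932 * a + 127932 * b) / 5040) (2 + 2 * a + 2 * b) (by positivity)
    (by simp [tt, Finset.sum_range_succ, fb, Nat.factorial]; ring)
    (by simp [tt, Finset.sum_range_succ, fb, Nat.factorial]; ring)
    (by simp [tt, Finset.sum_range_succ, fb, Nat.factorial]; ring)
    (by simp [tt, Finset.sum_range_succ, fb, Nat.factorial]; ring)
    (by simp [tt, Finset.sum_range_succ, fb, Nat.factorial]; ring)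
    (by rw [hprod]; push_cast; ring) hc
  have hD0 : (2 + 2 * (a : ℚ) + 2 * b) ≠ 0 := by positivity
  have r1 : P1 = 8 := by
    apply mul_left_cancel₀ hD0
    rw [q1]
    ring
  rw [r1] at q2 q4 q5
  have r2 := eq_div_of_mul_eq hD0 ((mul_comm P2 _).trans q2)
  have r4 := eq_div_of_mul_eq hD0 ((mul_comm P4 _).trans q4)
  rw [r4, r2] at q5
  obtain rfl : b = 6 - a := by omega
  have ha2 : a ≤ 6 := by omega
  interval_cases a <;> norm_num at q5

theorem qNum3c (h : S_Rec) : S_Num3c := by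
  intro a b e m x hm ha hab hdiv
  have hprod := SDV.pPr 3 m _ x (by omega) hdiv
  simp only [eval_add, eval_one, eval_mul, eval_C, eval_X, eval_pow, one_pow, mul_one] at hprod
  have hF : (1 - X : ℤ[X]) ^ 3 * (1 + C (a : ℤ) * X + C (b : ℤ) * X ^ 2 + C (e : ℤ) * X ^ 3 +
      C (b : ℤ) * X ^ 4 + C (a : ℤ) * X ^ 5 + X ^ 6) =
      ∑ i ∈ Finset.range 10, C (fc a b e i) * X ^ i := by
    simp only [Finset.sum_range_succ, Finset.sum_range_zero, fc, C_sub, C_add, C_mul, C_1, C_neg,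
      C_ofNat, C_0]
    ring
  rw [hF] at hdiv
  have hc := core h _ m hm x hdiv (tt 10 (fc a b e)) (coef 10 (fc a b e))
    (by simp [tt, Finset.sum_range_succ, fc]; ring) (by simp [tt, Finset.sum_range_succ, fc]; ring)
    (by simp [tt, Finset.sum_range_succ, fc]; ring)
  obtain ⟨P1, P2, P4, p1, p2, q1, q2, q4, q5⟩ := key x (tt 10 (fc a b e)) (2 + 2 * a + 2 * b + e)
    (-(9 / 2) * (2 + 2 * a + 2 * b + e))
    ((3540 + 2940 * a + 2580 * b + 1230 * e) / 120)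
    (-(51840 + 35640 * a + 25920 * b + 11340 * e) / 720)
    ((684012 + 398412 * a + 237132 * b + 92526 * e) / 5040) (2 + 2 * a + 2 * b + e)
    (by positivity)
    (by simp [tt, Finset.sum_range_succ, fc, Nat.factorial]; ring)
    (by simp [tt, Finset.sum_range_succ, fc, Nat.factorial]; ring)
    (by simp [tt, Finset.sum_range_succ, fc, Nat.factorial]; ring)
    (by simp [tt, Finset.sum_range_succ, fc, Nat.factorial]; ring)
    (by simp [tt, Finset.sum_range_succ, fc, Nat.factorial]; ring)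
    (by rw [hprod]; push_cast; ring) hc
  have hD0 : (2 + 2 * (a : ℚ) + 2 * b + e) ≠ 0 := by positivity
  have r1 : P1 = 9 := by
    apply mul_left_cancel₀ hD0
    rw [q1]
    ring
  rw [r1] at q2 q4 q5
  have r2 := eq_div_of_mul_eq hD0 ((mul_comm P2 _).trans q2)
  have r4 := eq_div_of_mul_eq hD0 ((mul_comm P4 _).trans q4)
  rw [r4, r2] at q5
  obtain rfl : e = 15 - 2 * a - 2 * b := by omega
  have ha2 : a ≤ 7 := by omega
  have hb2 : b ≤ 4 := by omega
  interval_cases a <;> interval_cases b <;> first | (exfalso; omega) | norm_num at q5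

end Pool.Agent.Lib.MP_776403_ag.SD.Q1
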