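import Pool.Agent.Lib.MP_776403_ag.SD.Q1.Spec
import Pool.Agent.Lib.MP_776403_ag.SD.V.PA

/-!
# THEOREM Q1, the Chern roots in codimension 5 (Num5)
-/

set_option autoImplicit false

noncomputable section

namespace Pool.Agent.Lib.MP_776403_ag.SD.Q1

namespace Num5Aux

lemma b0 : _root_.bernoulli 0 = 1 := bernoulli_zero
lemma b1 : _root_.bernoulli 1 = -1 / 2 := bernoulli_one
lemma b2 : _root_.bernoulli 2 = 1 / 6 := by rw [bernoulli_two]; norm_num
lemma b3 : _root_.bernoulli 3 = 0 := bernoulli_eq_zero_of_odd ⟨1, rfl⟩ (by norm_num)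
lemma b4 : _root_.bernoulli 4 = -1 / 30 := by decide +kernel
lemma b5 : _root_.bernoulli 5 = 0 := bernoulli_eq_zero_of_odd ⟨2, rfl⟩ (by norm_num)
lemma b6 : _root_.bernoulli 6 = 1 / 42 := by decide +kernel
lemma b7 : _root_.bernoulli 7 = 0 := bernoulli_eq_zero_of_odd ⟨3, rfl⟩ (by norm_num)
lemma b8 : _root_.bernoulli 8 = -1 / 30 := by decide +kernel

/-- the coefficients of `tau F` -/
lemma coeff_tau (f : ℕ → ℤ) (n k : ℕ) :
    PowerSeries.coeff k (SDV.tau (∑ i ∈ Finset.range n, Polynomial.C (f i) * Polynomial.X ^ i)) =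
      ∑ i ∈ Finset.range n, (f i : ℂ) * ((-(i : ℂ)) ^ k / (k.factorial : ℂ)) := by
  have h1 : SDV.tau (∑ i ∈ Finset.range n, Polynomial.C (f i) * Polynomial.X ^ i) =
      ∑ i ∈ Finset.range n, (f i) • SDV.tau (Polynomial.X ^ i) := by
    unfold SDV.tau
    rw [map_sum]
    refine Finset.sum_congr rfl fun i _ => ?_
    rw [map_mul, Polynomial.aeval_C, eq_intCast, zsmul_eq_mul]
  rw [h1, map_sum]
  refine Finset.sum_congr rfl fun i _ => ?_
  rw [(SDV.pT2 0).2.2.2 i, map_zsmul, zsmul_eq_mul]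
  unfold SDV.eu
  rw [PowerSeries.coeff_rescale, PowerSeries.coeff_exp]
  simp [div_eq_mul_inv]

/-- Newton's identities for five numbers -/
lemma newton (x : Fin 5 → ℂ) (p : ℕ → ℂ) (hp : ∀ j, ∑ l, x l ^ j = p j) :
    ∃ e2 e3 e4 : ℂ, p 2 = p 1 * p 1 - 2 * e2 ∧ p 3 = p 1 * p 2 - e2 * p 1 + 3 * e3 ∧
      p 4 = p 1 * p 3 - e2 * p 2 + e3 * p 1 - 4 * e4 ∧
      p 5 = p 1 * p 4 - e2 * p 3 + e3 * p 2 - e4 * p 1 + 5 * ∏ l, x l ∧
      p 6 = p 1 * p 5 - e2 * p 4 + e3 * p 3 - e4 * p 2 + (∏ l, x l) * p 1 ∧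
      p 7 = p 1 * p 6 - e2 * p 5 + e3 * p 4 - e4 * p 3 + (∏ l, x l) * p 2 ∧
      p 8 = p 1 * p 7 - e2 * p 6 + e3 * p 5 - e4 * p 4 + (∏ l, x l) * p 3 := by
  obtain ⟨a, ha⟩ : ∃ a, x 0 = a := ⟨_, rfl⟩
  obtain ⟨b, hb⟩ : ∃ a, x 1 = a := ⟨_, rfl⟩
  obtain ⟨c, hc⟩ : ∃ a, x 2 = a := ⟨_, rfl⟩
  obtain ⟨d, hd⟩ : ∃ a, x 3 = a := ⟨_, rfl⟩
  obtain ⟨e, he⟩ : ∃ a, x 4 = a := ⟨_, rfl⟩
  simp only [Fin.sum_univ_five, ha, hb, hc, hd, he] at hp
  simp only [Fin.prod_univ_five, ha, hb, hc, hd, he, ← hp]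
  refine ⟨a * b + a * c + a * d + a * e + b * c + b * d + b * e + c * d + c * e + d * e,
    a * b * c + a * b * d + a * b * e + a * c * d + a * c * e + a * d * e + b * c * d +
      b * c * e + b * d * e + c * d * e,
    a * b * c * d + a * b * c * e + a * b * d * e + a * c * d * e + b * c * d * e,
    ?_, ?_, ?_, ?_, ?_, ?_, ?_⟩ <;> ring

/-- no solution in the case `(5, 5)` -/
lemma contraA (P3 P5 P7 e2 e3 e4 : ℂ)
    (h2 : (301/17) = 9 * 9 - 2 * e2)
    (h3 : P3 = 9 * (301/17) - e2 * 9 + 3 * e3)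
    (h4 : (32405/289) = 9 * P3 - e2 * (301/17) + e3 * 9 - 4 * e4)
    (h5 : P5 = 9 * (32405/289) - e2 * P3 + e3 * (301/17) - e4 * 9 + 5 * 17)
    (h6 : (5584189/4913) = 9 * P5 - e2 * (32405/289) + e3 * P3 - e4 * (301/17) + 17 * 9)
    (h7 : P7 = 9 * (5584189/4913) - e2 * P5 + e3 * (32405/289) - e4 * P3 + 17 * (301/17))
    (h8 : (1045032485/83521) = 9 * P7 - e2 * (5584189/4913) + e3 * P5 - e4 * (32405/289) + 17 * P3) : False := by
  have he2 : e2 = (538/17) := by linear_combination (1 / 2) * h2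
  have hP3 : P3 = (-2133/17) + 3 * e3 := by rw [h3, he2]; ring
  have he4 : e4 = (-130173/289) + 9 * e3 := by
    rw [hP3, he2] at h4
    linear_combination (1 / 4) * h4
  have hP5 : P5 = (2635321/289) + (-2690/17) * e3 := by rw [h5, hP3, he2, he4]; ring
  have hP7 : P7 = (-1643725193/4913) + (2196493/289) * e3 + (-27) * e3 ^ 2 := by rw [h7, hP5, hP3, he2, he4]; ring
  have q1 : (420119796/4913) + (-29052/17) * e3 + 3 * e3 ^ 2 = 0 := by
    rw [hP5, hP3, he2, he4] at h6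
    linear_combination -h6
  have q2 : (-251499174924/83521) + (22126852/289) * e3 + (-6821/17) * e3 ^ 2 = 0 := by
    rw [hP7, hP5, hP3, he2, he4] at h8
    linear_combination -h8
  have h1 : (1 : ℂ) = 0 := by
    linear_combination ((-599983029314350375/306285465693962016) + (699725434575283/48360863004309792) * e3) * q1 +
      ((-17038331423975489/306285465693962016) + (33134630606629/306285465693962016) * e3) * q2
  exact one_ne_zero h1

/-- no solution in the case `(6, 3)` -/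
lemma contraB (P3 P5 P7 e2 e3 e4 : ℂ)
    (h2 : (325/17) = 9 * 9 - 2 * e2)
    (h3 : P3 = 9 * (325/17) - e2 * 9 + 3 * e3)
    (h4 : (55685/289) = 9 * P3 - e2 * (325/17) + e3 * 9 - 4 * e4)
    (h5 : P5 = 9 * (55685/289) - e2 * P3 + e3 * (325/17) - e4 * 9 + 5 * 17)
    (h6 : (14151685/4913) = 9 * P5 - e2 * (55685/289) + e3 * P3 - e4 * (325/17) + 17 * 9)
    (h7 : P7 = 9 * (14151685/4913) - e2 * P5 + e3 * (55685/289) - e4 * P3 + 17 * (325/17))
    (h8 : (3552856325/83521) = 9 * P7 - e2 * (14151685/4913) + e3 * P5 - e4 * (55685/289) + 17 * P3) : False := by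
  have he2 : e2 = (526/17) := by linear_combination (1 / 2) * h2
  have hP3 : P3 = (-1809/17) + 3 * e3 := by rw [h3, he2]; ring
  have he4 : e4 = (-125853/289) + 9 * e3 := by
    rw [hP3, he2] at h4
    linear_combination (1 / 4) * h4
  have hP5 : P5 = (2609941/289) + (-2630/17) * e3 := by rw [h5, hP3, he2, he4]; ring
  have hP7 : P7 = (-1471535153/4913) + (2093401/289) * e3 + (-27) * e3 ^ 2 := by rw [h7, hP5, hP3, he2, he4]; ring
  have q1 : (397532892/4913) + (-28404/17) * e3 + 3 * e3 ^ 2 = 0 := by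
    rw [hP5, hP3, he2, he4] at h6
    linear_combination -h6
  have q2 : (-229284486228/83521) + (20964124/289) * e3 + (-6761/17) * e3 ^ 2 = 0 := by
    rw [hP7, hP5, hP3, he2, he4] at h8
    linear_combination -h8
  have h1 : (1 : ℂ) = 0 := by
    linear_combination ((-92419108428417853/422599758071469760) + (6457120312630457/3803397822643227840) * e3) * q1 +
      ((-8172499267700077/1267799274214409280) + (16235918549729/1267799274214409280) * e3) * q2
  exact one_ne_zero h1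

/-- no solution in the case `(7, 1)` -/
lemma contraC (P3 P5 P7 e2 e3 e4 : ℂ)
    (h2 : (349/17) = 9 * 9 - 2 * e2)
    (h3 : P3 = 9 * (349/17) - e2 * 9 + 3 * e3)
    (h4 : (81845/289) = 9 * P3 - e2 * (349/17) + e3 * 9 - 4 * e4)
    (h5 : P5 = 9 * (81845/289) - e2 * P3 + e3 * (349/17) - e4 * 9 + 5 * 17)
    (h6 : (25833901/4913) = 9 * P5 - e2 * (81845/289) + e3 * P3 - e4 * (349/17) + 17 * 9)
    (h7 : P7 = 9 * (25833901/4913) - e2 * P5 + e3 * (81845/289) - e4 * P3 + 17 * (349/17))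
    (h8 : (7851976805/83521) = 9 * P7 - e2 * (25833901/4913) + e3 * P5 - e4 * (81845/289) + 17 * P3) : False := by
  have he2 : e2 = (514/17) := by linear_combination (1 / 2) * h2
  have hP3 : P3 = (-1485/17) + 3 * e3 := by rw [h3, he2]; ring
  have he4 : e4 = (-122109/289) + 9 * e3 := by
    rw [hP3, he2] at h4
    linear_combination (1 / 4) * h4
  have hP5 : P5 = (2623441/289) + (-2570/17) * e3 := by rw [h5, hP3, he2, he4]; ring
  have hP7 : P7 = (-1295560793/4913) + (1996357/289) * e3 + (-27) * e3 ^ 2 := by rw [h7, hP5, hP3, he2, he4]; ring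
  have q1 : (376851972/4913) + (-27756/17) * e3 + 3 * e3 ^ 2 = 0 := by
    rw [hP5, hP3, he2, he4] at h6
    linear_combination -h6
  have q2 : (-209481420828/83521) + (19868788/289) * e3 + (-6701/17) * e3 ^ 2 = 0 := by
    rw [hP7, hP5, hP3, he2, he4] at h8
    linear_combination -h8
  have h1 : (1 : ℂ) = 0 := by
    linear_combination ((-511409056200422069/10274994206730276384) + (12526045793557939/30824982620190829152) * e3) * q1 +
      ((-15644308012663115/10274994206730276384) + (31777761302863/10274994206730276384) * e3) * q2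
  exact one_ne_zero h1

/-- the coefficients in the case `(5, 5)` -/
def fA : ℕ → ℤ
  | 0 => 1
  | 1 => 0
  | 2 => -10
  | 3 => 20
  | 4 => -19
  | 5 => 19
  | 6 => -20
  | 7 => 10
  | 8 => 0
  | 9 => -1
  | _ => 0

lemma FA : (1 - Polynomial.X : Polynomial ℤ) ^ 5 *
      (1 + Polynomial.C ((5 : ℕ) : ℤ) * Polynomial.X + Polynomial.C ((5 : ℕ) : ℤ) * Polynomial.X ^ 2 +
        Polynomial.C ((5 : ℕ) : ℤ) * Polynomial.X ^ 3 + Polynomial.X ^ 4) =
      ∑ i ∈ Finset.range 10, Polynomial.C (fA i) * Polynomial.X ^ i := by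
  simp only [Finset.sum_range_succ, Finset.sum_range_zero, fA]
  norm_num
  ring

lemma coA :
    PowerSeries.coeff 0 (SDV.tau (∑ i ∈ Finset.range 10, Polynomial.C (fA i) * Polynomial.X ^ i)) =
      0 ∧
    PowerSeries.coeff 1 (SDV.tau (∑ i ∈ Finset.range 10, Polynomial.C (fA i) * Polynomial.X ^ i)) =
      0 ∧
    PowerSeries.coeff 2 (SDV.tau (∑ i ∈ Finset.range 10, Polynomial.C (fA i) * Polynomial.X ^ i)) =
      0 ∧
    PowerSeries.coeff 3 (SDV.tau (∑ i ∈ Finset.range 10, Polynomial.C (fA i) * Polynomial.X ^ i)) =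
      0 ∧
    PowerSeries.coeff 4 (SDV.tau (∑ i ∈ Finset.range 10, Polynomial.C (fA i) * Polynomial.X ^ i)) =
      0 ∧
    PowerSeries.coeff 5 (SDV.tau (∑ i ∈ Finset.range 10, Polynomial.C (fA i) * Polynomial.X ^ i)) =
      17 ∧
    PowerSeries.coeff 6 (SDV.tau (∑ i ∈ Finset.range 10, Polynomial.C (fA i) * Polynomial.X ^ i)) =
      (-153/2) ∧
    PowerSeries.coeff 7 (SDV.tau (∑ i ∈ Finset.range 10, Polynomial.C (fA i) * Polynomial.X ^ i)) =
      (554/3) ∧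
    PowerSeries.coeff 8 (SDV.tau (∑ i ∈ Finset.range 10, Polynomial.C (fA i) * Polynomial.X ^ i)) =
      (-2517/8) ∧
    PowerSeries.coeff 9 (SDV.tau (∑ i ∈ Finset.range 10, Polynomial.C (fA i) * Polynomial.X ^ i)) =
      (60683/144) ∧
    PowerSeries.coeff 10 (SDV.tau (∑ i ∈ Finset.range 10, Polynomial.C (fA i) * Polynomial.X ^ i)) =
      (-75157/160) ∧
    PowerSeries.coeff 11 (SDV.tau (∑ i ∈ Finset.range 10, Polynomial.C (fA i) * Polynomial.X ^ i)) =
      (6822791/15120) ∧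
    PowerSeries.coeff 12 (SDV.tau (∑ i ∈ Finset.range 10, Polynomial.C (fA i) * Polynomial.X ^ i)) =
      (-642613/1680) ∧
    PowerSeries.coeff 13 (SDV.tau (∑ i ∈ Finset.range 10, Polynomial.C (fA i) * Polynomial.X ^ i)) =
      (15086909/51840) := by
  simp only [coeff_tau]
  refine ⟨?_, ?_, ?_, ?_, ?_, ?_, ?_, ?_, ?_, ?_, ?_, ?_, ?_, ?_⟩ <;>
    simp only [Finset.sum_range_succ, Finset.sum_range_zero, fA] <;>
    norm_num [Nat.factorial]

lemma pwA (h : S_Rec) (m : ℕ) (hm : 14 ≤ m) (x : Fin 5 → ℂ)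
    (hdiv : (PowerSeries.X : PowerSeries ℂ) ^ m ∣
      SDV.tau (∑ i ∈ Finset.range 10, Polynomial.C (fA i) * Polynomial.X ^ i) - SDV.gx x)
    (p : ℕ → ℂ) (hp : ∀ j, ∑ l, x l ^ j = p j) :
    p 1 = 9 ∧ p 2 = (301/17) ∧ p 4 = (32405/289) ∧ p 6 = (5584189/4913) ∧ p 8 = (1045032485/83521) := by
  obtain ⟨c, hc⟩ : ∃ c : ℕ → ℂ, ∀ k, PowerSeries.coeff k
      (SDV.tau (∑ i ∈ Finset.range 10, Polynomial.C (fA i) * Polynomial.X ^ i)) = c k :=
    ⟨fun k => _, fun k => rfl⟩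
  have hco := coA
  have p0 : p 0 = 5 := by
    rw [← hp 0]
    simp
  have r6 := h 5 m _ x hdiv 6 (by omega)
  have r7 := h 5 m _ x hdiv 7 (by omega)
  have r9 := h 5 m _ x hdiv 9 (by omega)
  have r11 := h 5 m _ x hdiv 11 (by omega)
  have r13 := h 5 m _ x hdiv 13 (by omega)
  simp only [hc] at hco r6 r7 r9 r11 r13
  obtain ⟨c0, c1, c2, c3, c4, c5, c6, c7, c8, c9, c10, c11, c12, c13⟩ := hco
  simp only [Finset.sum_range_succ, Finset.sum_range_zero, hp, Nat.reduceSub, Nat.sub_zero,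
    Nat.sub_self, Nat.reduceAdd, zero_add, c0, c1, c2, c3, c4, c5, c6, c7, c8, c9, c10, c11, c12, c13,
    b0, b1, b2, b3, b4, b5, b6, b7, b8, zero_mul, add_zero, p0] at r6 r7 r9 r11 r13
  norm_num [Nat.factorial] at r6 r7 r9 r11 r13
  have q1 : p 1 = 9 := by
    linear_combination (2/17) * r6
  have q2 : p 2 = (301/17) := by
    linear_combination (-12/17) * r7 - (27) * q1
  have q4 : p 4 = (32405/289) := by
    linear_combination (720/17) * r9 - (-113265/17) * q1 - (-11080/17) * q2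
  have q6 : p 6 = (5584189/4913) := by
    linear_combination (-30240/17) * r11 - (835569/2) * q1 - (2123905/34) * q2 - (-7756/17) * q4
  have q8 : p 8 = (1045032485/83521) := by
    linear_combination (1209600/17) * r13 - (-231340680/17) * q1 - (-136455820/51) * q2 - (2123905/51) * q4 - (-22160/51) * q6
  exact ⟨q1, q2, q4, q6, q8⟩

/-- the coefficients in the case `(6, 3)` -/
def fB : ℕ → ℤ
  | 0 => 1
  | 1 => 1
  | 2 => -17
  | 3 => 41
  | 4 => -54
  | 5 => 54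
  | 6 => -41
  | 7 => 17
  | 8 => -1
  | 9 => -1
  | _ => 0

lemma FB : (1 - Polynomial.X : Polynomial ℤ) ^ 5 *
      (1 + Polynomial.C ((6 : ℕ) : ℤ) * Polynomial.X + Polynomial.C ((3 : ℕ) : ℤ) * Polynomial.X ^ 2 +
        Polynomial.C ((6 : ℕ) : ℤ) * Polynomial.X ^ 3 + Polynomial.X ^ 4) =
      ∑ i ∈ Finset.range 10, Polynomial.C (fB i) * Polynomial.X ^ i := by
  simp only [Finset.sum_range_succ, Finset.sum_range_zero, fB]
  norm_num
  ring

lemma coB :
    PowerSeries.coeff 0 (SDV.tau (∑ i ∈ Finset.range 10, Polynomial.C (fB i) * Polynomial.X ^ i)) =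
      0 ∧
    PowerSeries.coeff 1 (SDV.tau (∑ i ∈ Finset.range 10, Polynomial.C (fB i) * Polynomial.X ^ i)) =
      0 ∧
    PowerSeries.coeff 2 (SDV.tau (∑ i ∈ Finset.range 10, Polynomial.C (fB i) * Polynomial.X ^ i)) =
      0 ∧
    PowerSeries.coeff 3 (SDV.tau (∑ i ∈ Finset.range 10, Polynomial.C (fB i) * Polynomial.X ^ i)) =
      0 ∧
    PowerSeries.coeff 4 (SDV.tau (∑ i ∈ Finset.range 10, Polynomial.C (fB i) * Polynomial.X ^ i)) =
      0 ∧
    PowerSeries.coeff 5 (SDV.tau (∑ i ∈ Finset.range 10, Polynomial.C (fB i) * Polynomial.X ^ i)) =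
      17 ∧
    PowerSeries.coeff 6 (SDV.tau (∑ i ∈ Finset.range 10, Polynomial.C (fB i) * Polynomial.X ^ i)) =
      (-153/2) ∧
    PowerSeries.coeff 7 (SDV.tau (∑ i ∈ Finset.range 10, Polynomial.C (fB i) * Polynomial.X ^ i)) =
      (557/3) ∧
    PowerSeries.coeff 8 (SDV.tau (∑ i ∈ Finset.range 10, Polynomial.C (fB i) * Polynomial.X ^ i)) =
      (-2553/8) ∧
    PowerSeries.coeff 9 (SDV.tau (∑ i ∈ Finset.range 10, Polynomial.C (fB i) * Polynomial.X ^ i)) =
      (62183/144) ∧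
    PowerSeries.coeff 10 (SDV.tau (∑ i ∈ Finset.range 10, Polynomial.C (fB i) * Polynomial.X ^ i)) =
      (-77797/160) ∧
    PowerSeries.coeff 11 (SDV.tau (∑ i ∈ Finset.range 10, Polynomial.C (fB i) * Polynomial.X ^ i)) =
      (1781597/3780) ∧
    PowerSeries.coeff 12 (SDV.tau (∑ i ∈ Finset.range 10, Polynomial.C (fB i) * Polynomial.X ^ i)) =
      (-42262/105) ∧
    PowerSeries.coeff 13 (SDV.tau (∑ i ∈ Finset.range 10, Polynomial.C (fB i) * Polynomial.X ^ i)) =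
      (15964349/51840) := by
  simp only [coeff_tau]
  refine ⟨?_, ?_, ?_, ?_, ?_, ?_, ?_, ?_, ?_, ?_, ?_, ?_, ?_, ?_⟩ <;>
    simp only [Finset.sum_range_succ, Finset.sum_range_zero, fB] <;>
    norm_num [Nat.factorial]

lemma pwB (h : S_Rec) (m : ℕ) (hm : 14 ≤ m) (x : Fin 5 → ℂ)
    (hdiv : (PowerSeries.X : PowerSeries ℂ) ^ m ∣
      SDV.tau (∑ i ∈ Finset.range 10, Polynomial.C (fB i) * Polynomial.X ^ i) - SDV.gx x)
    (p : ℕ → ℂ) (hp : ∀ j, ∑ l, x l ^ j = p j) :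
    p 1 = 9 ∧ p 2 = (325/17) ∧ p 4 = (55685/289) ∧ p 6 = (14151685/4913) ∧ p 8 = (3552856325/83521) := by
  obtain ⟨c, hc⟩ : ∃ c : ℕ → ℂ, ∀ k, PowerSeries.coeff k
      (SDV.tau (∑ i ∈ Finset.range 10, Polynomial.C (fB i) * Polynomial.X ^ i)) = c k :=
    ⟨fun k => _, fun k => rfl⟩
  have hco := coB
  have p0 : p 0 = 5 := by
    rw [← hp 0]
    simp
  have r6 := h 5 m _ x hdiv 6 (by omega)
  have r7 := h 5 m _ x hdiv 7 (by omega)
  have r9 := h 5 m _ x hdiv 9 (by omega)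
  have r11 := h 5 m _ x hdiv 11 (by omega)
  have r13 := h 5 m _ x hdiv 13 (by omega)
  simp only [hc] at hco r6 r7 r9 r11 r13
  obtain ⟨c0, c1, c2, c3, c4, c5, c6, c7, c8, c9, c10, c11, c12, c13⟩ := hco
  simp only [Finset.sum_range_succ, Finset.sum_range_zero, hp, Nat.reduceSub, Nat.sub_zero,
    Nat.sub_self, Nat.reduceAdd, zero_add, c0, c1, c2, c3, c4, c5, c6, c7, c8, c9, c10, c11, c12, c13,
    b0, b1, b2, b3, b4, b5, b6, b7, b8, zero_mul, add_zero, p0] at r6 r7 r9 r11 r13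
  norm_num [Nat.factorial] at r6 r7 r9 r11 r13
  have q1 : p 1 = 9 := by
    linear_combination (2/17) * r6
  have q2 : p 2 = (325/17) := by
    linear_combination (-12/17) * r7 - (27) * q1
  have q4 : p 4 = (55685/289) := by
    linear_combination (720/17) * r9 - (-114885/17) * q1 - (-11140/17) * q2
  have q6 : p 6 = (14151685/4913) := by
    linear_combination (-30240/17) * r11 - (14703633/34) * q1 - (2176405/34) * q2 - (-7798/17) * q4
  have q8 : p 8 = (3552856325/83521) := by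
    linear_combination (1209600/17) * r13 - (-14319360) * q1 - (-142527760/51) * q2 - (2176405/51) * q4 - (-22280/51) * q6
  exact ⟨q1, q2, q4, q6, q8⟩

/-- the coefficients in the case `(7, 1)` -/
def fC : ℕ → ℤ
  | 0 => 1
  | 1 => 2
  | 2 => -24
  | 3 => 62
  | 4 => -89
  | 5 => 89
  | 6 => -62
  | 7 => 24
  | 8 => -2
  | 9 => -1
  | _ => 0

lemma FC : (1 - Polynomial.X : Polynomial ℤ) ^ 5 *
      (1 + Polynomial.C ((7 : ℕ) : ℤ) * Polynomial.X + Polynomial.C ((1 : ℕ) : ℤ) * Polynomial.X ^ 2 +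
        Polynomial.C ((7 : ℕ) : ℤ) * Polynomial.X ^ 3 + Polynomial.X ^ 4) =
      ∑ i ∈ Finset.range 10, Polynomial.C (fC i) * Polynomial.X ^ i := by
  simp only [Finset.sum_range_succ, Finset.sum_range_zero, fC]
  norm_num
  ring

lemma coC :
    PowerSeries.coeff 0 (SDV.tau (∑ i ∈ Finset.range 10, Polynomial.C (fC i) * Polynomial.X ^ i)) =
      0 ∧
    PowerSeries.coeff 1 (SDV.tau (∑ i ∈ Finset.range 10, Polynomial.C (fC i) * Polynomial.X ^ i)) =
      0 ∧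
    PowerSeries.coeff 2 (SDV.tau (∑ i ∈ Finset.range 10, Polynomial.C (fC i) * Polynomial.X ^ i)) =
      0 ∧
    PowerSeries.coeff 3 (SDV.tau (∑ i ∈ Finset.range 10, Polynomial.C (fC i) * Polynomial.X ^ i)) =
      0 ∧
    PowerSeries.coeff 4 (SDV.tau (∑ i ∈ Finset.range 10, Polynomial.C (fC i) * Polynomial.X ^ i)) =
      0 ∧
    PowerSeries.coeff 5 (SDV.tau (∑ i ∈ Finset.range 10, Polynomial.C (fC i) * Polynomial.X ^ i)) =
      17 ∧
    PowerSeries.coeff 6 (SDV.tau (∑ i ∈ Finset.range 10, Polynomial.C (fC i) * Polynomial.X ^ i)) =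
      (-153/2) ∧
    PowerSeries.coeff 7 (SDV.tau (∑ i ∈ Finset.range 10, Polynomial.C (fC i) * Polynomial.X ^ i)) =
      (560/3) ∧
    PowerSeries.coeff 8 (SDV.tau (∑ i ∈ Finset.range 10, Polynomial.C (fC i) * Polynomial.X ^ i)) =
      (-2589/8) ∧
    PowerSeries.coeff 9 (SDV.tau (∑ i ∈ Finset.range 10, Polynomial.C (fC i) * Polynomial.X ^ i)) =
      (63683/144) ∧
    PowerSeries.coeff 10 (SDV.tau (∑ i ∈ Finset.range 10, Polynomial.C (fC i) * Polynomial.X ^ i)) =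
      (-80437/160) ∧
    PowerSeries.coeff 11 (SDV.tau (∑ i ∈ Finset.range 10, Polynomial.C (fC i) * Polynomial.X ^ i)) =
      (1485997/3024) ∧
    PowerSeries.coeff 12 (SDV.tau (∑ i ∈ Finset.range 10, Polynomial.C (fC i) * Polynomial.X ^ i)) =
      (-709771/1680) ∧
    PowerSeries.coeff 13 (SDV.tau (∑ i ∈ Finset.range 10, Polynomial.C (fC i) * Polynomial.X ^ i)) =
      (16841789/51840) := by
  simp only [coeff_tau]
  refine ⟨?_, ?_, ?_, ?_, ?_, ?_, ?_, ?_, ?_, ?_, ?_, ?_, ?_, ?_⟩ <;>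
    simp only [Finset.sum_range_succ, Finset.sum_range_zero, fC] <;>
    norm_num [Nat.factorial]

lemma pwC (h : S_Rec) (m : ℕ) (hm : 14 ≤ m) (x : Fin 5 → ℂ)
    (hdiv : (PowerSeries.X : PowerSeries ℂ) ^ m ∣
      SDV.tau (∑ i ∈ Finset.range 10, Polynomial.C (fC i) * Polynomial.X ^ i) - SDV.gx x)
    (p : ℕ → ℂ) (hp : ∀ j, ∑ l, x l ^ j = p j) :
    p 1 = 9 ∧ p 2 = (349/17) ∧ p 4 = (81845/289) ∧ p 6 = (25833901/4913) ∧ p 8 = (7851976805/83521) := by
  obtain ⟨c, hc⟩ : ∃ c : ℕ → ℂ, ∀ k, PowerSeries.coeff k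
      (SDV.tau (∑ i ∈ Finset.range 10, Polynomial.C (fC i) * Polynomial.X ^ i)) = c k :=
    ⟨fun k => _, fun k => rfl⟩
  have hco := coC
  have p0 : p 0 = 5 := by
    rw [← hp 0]
    simp
  have r6 := h 5 m _ x hdiv 6 (by omega)
  have r7 := h 5 m _ x hdiv 7 (by omega)
  have r9 := h 5 m _ x hdiv 9 (by omega)
  have r11 := h 5 m _ x hdiv 11 (by omega)
  have r13 := h 5 m _ x hdiv 13 (by omega)
  simp only [hc] at hco r6 r7 r9 r11 r13
  obtain ⟨c0, c1, c2, c3, c4, c5, c6, c7, c8, c9, c10, c11, c12, c13⟩ := hco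
  simp only [Finset.sum_range_succ, Finset.sum_range_zero, hp, Nat.reduceSub, Nat.sub_zero,
    Nat.sub_self, Nat.reduceAdd, zero_add, c0, c1, c2, c3, c4, c5, c6, c7, c8, c9, c10, c11, c12, c13,
    b0, b1, b2, b3, b4, b5, b6, b7, b8, zero_mul, add_zero, p0] at r6 r7 r9 r11 r13
  norm_num [Nat.factorial] at r6 r7 r9 r11 r13
  have q1 : p 1 = 9 := by
    linear_combination (2/17) * r6
  have q2 : p 2 = (349/17) := by
    linear_combination (-12/17) * r7 - (27) * q1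
  have q4 : p 4 = (81845/289) := by
    linear_combination (720/17) * r9 - (-116505/17) * q1 - (-11200/17) * q2
  have q6 : p 6 = (25833901/4913) := by
    linear_combination (-30240/17) * r11 - (15202593/34) * q1 - (2228905/34) * q2 - (-7840/17) * q4
  have q8 : p 8 = (7851976805/83521) := by
    linear_combination (1209600/17) * r13 - (-255517560/17) * q1 - (-148599700/51) * q2 - (2228905/51) * q4 - (-22400/51) * q6
  exact ⟨q1, q2, q4, q6, q8⟩

end Num5Aux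

open Num5Aux in
theorem qNum5 (h : S_Rec) : S_Num5 := by
  intro a b m x hm ha hD hdiv
  obtain ⟨p, hp⟩ : ∃ p : ℕ → ℂ, ∀ j, ∑ l, x l ^ j = p j := ⟨fun j => ∑ l, x l ^ j, fun j => rfl⟩
  have hprod := SDV.pPr 5 m _ x (by omega) hdiv
  have h17 : ((((1 + Polynomial.C (a : ℤ) * Polynomial.X + Polynomial.C (b : ℤ) * Polynomial.X ^ 2 +
        Polynomial.C (a : ℤ) * Polynomial.X ^ 3 + Polynomial.X ^ 4 : Polynomial ℤ)).eval 1 : ℤ) : ℂ) =
        17 := by
    have h1 : ((1 + Polynomial.C (a : ℤ) * Polynomial.X + Polynomial.C (b : ℤ) * Polynomial.X ^ 2 +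
        Polynomial.C (a : ℤ) * Polynomial.X ^ 3 + Polynomial.X ^ 4 : Polynomial ℤ)).eval 1 = 17 := by
      simp only [Polynomial.eval_add, Polynomial.eval_mul, Polynomial.eval_pow, Polynomial.eval_C,
        Polynomial.eval_X, Polynomial.eval_one, one_pow, mul_one]
      omega
    rw [h1]
    norm_num
  rw [h17] at hprod
  obtain ⟨e2, e3, e4, n2, n3, n4, n5, n6, n7, n8⟩ := newton x p hp
  rw [hprod] at n5 n6 n7 n8
  have hcases : (a = 5 ∧ b = 5) ∨ (a = 6 ∧ b = 3) ∨ (a = 7 ∧ b = 1) := by omega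
  rcases hcases with ⟨rfl, rfl⟩ | ⟨rfl, rfl⟩ | ⟨rfl, rfl⟩
  · rw [FA] at hdiv
    obtain ⟨q1, q2, q4, q6, q8⟩ := pwA h m hm x hdiv p hp
    rw [q1, q2] at n2
    rw [q1, q2] at n3
    rw [q1, q2, q4] at n4
    rw [q1, q2, q4] at n5
    rw [q1, q2, q4, q6] at n6
    rw [q1, q2, q4, q6] at n7
    rw [q4, q6, q8, q1] at n8
    exact contraA _ _ _ e2 e3 e4 n2 n3 n4 n5 n6 n7 n8
  · rw [FB] at hdiv
    obtain ⟨q1, q2, q4, q6, q8⟩ := pwB h m hm x hdiv p hp
    rw [q1, q2] at n2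
    rw [q1, q2] at n3
    rw [q1, q2, q4] at n4
    rw [q1, q2, q4] at n5
    rw [q1, q2, q4, q6] at n6
    rw [q1, q2, q4, q6] at n7
    rw [q4, q6, q8, q1] at n8
    exact contraB _ _ _ e2 e3 e4 n2 n3 n4 n5 n6 n7 n8
  · rw [FC] at hdiv
    obtain ⟨q1, q2, q4, q6, q8⟩ := pwC h m hm x hdiv p hp
    rw [q1, q2] at n2
    rw [q1, q2] at n3
    rw [q1, q2, q4] at n4
    rw [q1, q2, q4] at n5
    rw [q1, q2, q4, q6] at n6
    rw [q1, q2, q4, q6] at n7
    rw [q4, q6, q8, q1] at n8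
    exact contraC _ _ _ e2 e3 e4 n2 n3 n4 n5 n6 n7 n8

end Pool.Agent.Lib.MP_776403_ag.SD.Q1
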