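import Pool.Agent.Lib.MP_776403_ag.SD.Q1.Spec
import Pool.Agent.Lib.MP_776403_ag.SD.V.Ber

/-!
# THEOREM Q1, module Rec: the recursion for the power sums
-/

set_option autoImplicit false

noncomputable section

namespace Pool.Agent.Lib.MP_776403_ag.SD.Q1

namespace RecAux

theorem coeff_X_mul_deriv (G : PowerSeries ℂ) (k : ℕ) :
    PowerSeries.coeff k (PowerSeries.X * PowerSeries.derivative ℂ G) =
      (k : ℂ) * PowerSeries.coeff k G := by
  cases k with
  | zero => simp
  | succ n =>
    rw [PowerSeries.coeff_succ_X_mul, PowerSeries.coeff_derivative]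
    push_cast
    ring

end RecAux

theorem qRec : S_Rec := by
  intro c m F x hdiv k hk
  have hco : ∀ i, i < m → PowerSeries.coeff i (SDV.tau F) = PowerSeries.coeff i (SDV.gx x) := by
    intro i hi
    have h := PowerSeries.X_pow_dvd_iff.1 hdiv i hi
    rw [map_sub] at h
    exact sub_eq_zero.1 h
  have h := congrArg (PowerSeries.coeff k) (SDV.pBer c x)
  rw [RecAux.coeff_X_mul_deriv, mul_comm (SDV.gx x), PowerSeries.coeff_mul,
    Finset.Nat.sum_antidiagonal_eq_sum_range_succ_mk] at h
  rw [hco k hk, h]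
  refine Finset.sum_congr rfl fun j hj => ?_
  rw [hco (k - j) (by omega), mul_comm, map_sum, Finset.mul_sum (f := fun l => x l ^ j)]
  congr 1
  refine Finset.sum_congr rfl fun l _ => ?_
  rw [PowerSeries.coeff_rescale, PowerSeries.coeff_mk, mul_comm]

end Pool.Agent.Lib.MP_776403_ag.SD.Q1

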