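import Pool.Agent.Lib.MP_776403_ag.SD.Z.Fin
import Pool.Agent.Lib.MP_776403_ag.SD.Q1.Main
import Pool.Agent.Lib.MP_776403_ag.SD.Q1.Asm
import Pool.Agent.Lib.MP_776403_ag.SD.Q1.Div
import Pool.Agent.Lib.MP_776403_ag.SD.Q1.Cnt
import Pool.Agent.Lib.MP_776403_ag.SD.Q1.D12
import Pool.Agent.Lib.MP_776403_ag.SD.Q1.D23
import Pool.Agent.Lib.MP_776403_ag.SD.Q1.Ind
import Pool.Agent.Lib.MP_776403_ag.SD.Q1.Num3
import Pool.Agent.Lib.MP_776403_ag.SD.Q1.Num4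
import Pool.Agent.Lib.MP_776403_ag.SD.Q1.Num5
import Pool.Agent.Lib.MP_776403_ag.SD.Q1.Rec

/-!
# THEOREM Q1: closed form
-/

set_option autoImplicit false

namespace Pool.Agent.Lib.MP_776403_ag.SD.Q1

/-- The induction step for the types `(2, …, 2)`, `(2, …, 2, 3)`. -/
theorem wInd : S_Ind := qInd (qD12 qQN) (qD23 (qDET qDiv qCnt))

/-- THEOREM Q1. -/
theorem wQ1 : S_Q1 :=
  zQ1 wR mCovH zSDatfin zNumErr gHci (qNum3a qRec) (qNum3b qRec) (qNum3c qRec) (qNum4 qRec)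
    (qNum5 qRec) wInd

end Pool.Agent.Lib.MP_776403_ag.SD.Q1
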