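import Pool.Agent.Lib.MP_776403_ag.SD.Q1.Main
import Pool.Agent.Lib.MP_776403_ag.SD.LI.Spec

/-!
# THEOREM Q1 without a hypothesis on lines
-/

set_option autoImplicit false

noncomputable section

namespace Pool.Agent.Lib.MP_776403_ag.SD.Q1

open MvPolynomial

/-- THEOREM Q1L.  `X ⊆ ℙ^N` smooth, nondegenerate, of dimension `n`, codimension `c ≥ 3`, degree
`D = ∑ h_i ≤ n - 1`, with Hilbert polynomial `∑ h_i binom (n + k - i) n`, `h_i = h_(s-i)`, `s ≥ 4`,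
`h^0(O_X(k)) ≤ ∑ h_i binom (n + k - i) n`, `D ≥ (s - 1) c + 2`.  Then `X` is a complete intersection. -/
def S_Q1L : Prop :=
  ∀ (N n c s : ℕ) (I : Ideal (Sx N)) (h : ℕ → ℕ), N = n + c → 3 ≤ c → 4 ≤ s → I.IsPrime →
    IsHom I → (∀ F ∈ I, F.IsHomogeneous 1 → F = 0) → Smooth I c → h 0 = 1 →
    (∀ i ≤ s, h (s - i) = h i) →
    (∀ᶠ k : ℕ in Filter.atTop, Module.finrank ℂ (gr I k) = hsum n s h k) →
    (∀ (k r : ℕ) (f : Fin r → (Vx N → ℂ)), (∀ i, IsReg I k (f i)) → LinearIndependent ℂ f →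
      r ≤ hsum n s h k) →
    (s - 1) * c + 2 ≤ ∑ i ∈ Finset.range (s + 1), h i →
    ∑ i ∈ Finset.range (s + 1), h i + 1 ≤ n →
    ∃ (d : Fin c → ℕ) (G : Fin c → Sx N), (∀ i, 2 ≤ d i ∧ (G i).IsHomogeneous (d i)) ∧
      I = Ideal.span (Set.range G)

/-- THEOREM Q1L from its parts. -/
theorem zQ1L (hQS : LI.S_QS) (hDat : S_SDat) (hErr : S_NumErr) (hHci : S_GHci)
    (h3a : S_Num3a) (h3b : S_Num3b) (h3c : S_Num3c) (h4 : S_Num4) (h5 : S_Num5)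
    (hInd : S_Ind) : S_Q1L := by
  intro N n c s I h hN hc3 hs4 hI hIh hnd hS h0 hsym hHP hReg hDl hDn
  by_cases hr : 3 * c + 2 * s + 1 ≤ N
  · exact hQS N n c s I h hN (by omega) hI hIh hnd hS h0 hHP hReg hr hDn
  · exact zQ1S hDat hErr hHci h3a h3b h3c h4 h5 hInd N n c s I h hN hc3 hs4 hI hIh hnd hS h0 hsym
      hHP hReg hDl hDn hr

end Pool.Agent.Lib.MP_776403_ag.SD.Q1
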