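import Pool.Agent.Lib.MP_776403_ag.SD.Q1.Fin
import Pool.Agent.Lib.MP_776403_ag.SD.Q1.MainL
import Pool.Agent.Lib.MP_776403_ag.SD.P2.ClG
import Pool.Agent.Lib.MP_776403_ag.SD.P2.TS
import Pool.Agent.Lib.MP_776403_ag.SD.P2.Div
import Pool.Agent.Lib.MP_776403_ag.SD.P2.Pb
import Pool.Agent.Lib.MP_776403_ag.SD.LI.QS
import Pool.Agent.Lib.MP_776403_ag.SD.LI.Cnt
import Pool.Agent.Lib.MP_776403_ag.SD.LI.Ext
import Pool.Agent.Lib.MP_776403_ag.SD.LI.Fa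
import Pool.Agent.Lib.MP_776403_ag.SD.LI.Fb
import Pool.Agent.Lib.MP_776403_ag.SD.LI.Gro
import Pool.Agent.Lib.MP_776403_ag.SD.LI.Hy
import Pool.Agent.Lib.MP_776403_ag.SD.LI.Hz
import Pool.Agent.Lib.MP_776403_ag.SD.LI.Ini
import Pool.Agent.Lib.MP_776403_ag.SD.LI.Opn
import Pool.Agent.Lib.MP_776403_ag.SD.LI.Qa
import Pool.Agent.Lib.MP_776403_ag.SD.LI.Qb
import Pool.Agent.Lib.MP_776403_ag.SD.LI.Us
import Pool.Agent.Lib.MP_776403_ag.SD.LI.Zs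
import Pool.Agent.Lib.MP_776403_ag.SD.LI.Pa
import Pool.Agent.Lib.MP_776403_ag.SD.J.Fit
import Pool.Agent.Lib.MP_776403_ag.SD.J.Pid

/-!
# THEOREM Q1 without a hypothesis on lines: closed forms
-/

set_option autoImplicit false

namespace Pool.Agent.Lib.MP_776403_ag.SD.Q1

open LI

/-- Lemma I, part P1. -/
theorem wPa0 (hTS : S_TS) (hDiv : LI.S_Div) : S_Pa :=
  tPa mGood mLoc (tZs hTS (tOpn eCN) (tExt hTS) tNull) (tUs hTS mLoc mCr tTB)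
    (tQa eCN mPerp tDetHom eLinB) (tQb eCN mPerp mCr mCrL mHom (jFit jPid) jPid)
    (tHy hTS eLinB) (tHz hTS) (tCnt (tFa (tIni hTS) hDiv) (tFb (tIni hTS))) tGro

theorem wQS0 (hTS : S_TS) (hDiv : LI.S_Div) : S_QS := tQS P2.tClG P2.tPb (wPa0 hTS hDiv)

theorem wQ1L0 (hTS : S_TS) (hDiv : LI.S_Div) : S_Q1L :=
  zQ1L (wQS0 hTS hDiv) zSDatfin zNumErr gHci (qNum3a qRec) (qNum3b qRec) (qNum3c qRec)
    (qNum4 qRec) (qNum5 qRec) wInd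

/-- Lemma I, part P1: closed form. -/
theorem wPa : S_Pa := wPa0 P2.tTS P2.tDiv

/-- The theorem on small degrees without a hypothesis on lines. -/
theorem wQS : S_QS := wQS0 P2.tTS P2.tDiv

/-- THEOREM Q1L. -/
theorem wQ1L : S_Q1L := wQ1L0 P2.tTS P2.tDiv

end Pool.Agent.Lib.MP_776403_ag.SD.Q1
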