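import Pool.Agent.Lib.MP_776403_ag.SD.Defs

/-!
# THEOREM Q1: the conormal module without determinants
-/

set_option autoImplicit false

open MvPolynomial

noncomputable section

namespace Pool.Agent.Lib.MP_776403_ag.SD.Q1

variable {N : ℕ}

/-- The degree `m` part of the graded `S / J`-module generated by the gradients of the forms in
`I`. -/
def Gm (I J : Ideal (Sx N)) (m : ℕ) : Submodule ℂ (Fin (N + 1) → Sx N ⧸ J) :=
  Submodule.span ℂ {z | ∃ (a : Sx N) (e : ℕ) (F : Sx N) (f : ℕ),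
    a.IsHomogeneous e ∧ F ∈ I ∧ F.IsHomogeneous f ∧ e + f = m ∧
    z = fun k => Ideal.Quotient.mk J (a * pderiv k F)}

theorem finrank_Gm (I J : Ideal (Sx N)) (m : ℕ) :
    Module.finrank ℂ (Lam I J 1 m) = Module.finrank ℂ (Gm I J m) := by
  let e : (Fin (N + 1) → Sx N ⧸ J) ≃ₗ[ℂ] ((Fin 1 → Fin (N + 1)) → Sx N ⧸ J) :=
    LinearEquiv.funCongrLeft ℂ (Sx N ⧸ J) (Equiv.funUnique (Fin 1) (Fin (N + 1)))
  have he : ∀ (z : Fin (N + 1) → Sx N ⧸ J) (α : Fin 1 → Fin (N + 1)), e z α = z (α 0) :=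
    fun z α => rfl
  have h : (Gm I J m).map (e : (Fin (N + 1) → Sx N ⧸ J) →ₗ[ℂ] _) = Lam I J 1 m := by
    unfold Gm Lam
    rw [Submodule.map_span]
    congr 1
    ext z
    constructor
    · rintro ⟨_, ⟨a, k, F, f, ha, hF, hFh, hkf, rfl⟩, rfl⟩
      refine ⟨a, k, fun _ => F, fun _ => f, ha, fun _ => ⟨hF, hFh⟩, ?_, ?_⟩
      · simpa using hkf
      · funext α
        show Ideal.Quotient.mk J (a * pderiv (α 0) F) = _
        rw [Matrix.det_fin_one, Matrix.of_apply]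
    · rintro ⟨a, k, F, f, ha, hF, hkf, rfl⟩
      refine ⟨_, ⟨a, k, F 0, f 0, ha, (hF 0).1, (hF 0).2, ?_, rfl⟩, ?_⟩
      · simpa using hkf
      · funext α
        show Ideal.Quotient.mk J (a * pderiv (α 0) (F 0)) = _
        rw [Matrix.det_fin_one, Matrix.of_apply]
  rw [← h]
  exact LinearEquiv.finrank_map_eq e (Gm I J m)

end Pool.Agent.Lib.MP_776403_ag.SD.Q1
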