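import Pool.Agent.Lib.MP_776403_ag.SD.Q1.Spec
import Pool.Agent.Lib.MP_776403_ag.SD.V.PA

/-! # THEOREM Q1: the Chern roots in codimension 4 -/

set_option autoImplicit false

noncomputable section

namespace Pool.Agent.Lib.MP_776403_ag.SD.Q1

namespace Num4Aux

theorem b3 : _root_.bernoulli 3 = 0 := by
  rw [bernoulli_eq_bernoulli'_of_ne_one (by norm_num), bernoulli'_three]

theorem b4 : _root_.bernoulli 4 = -1 / 30 := by
  rw [bernoulli_eq_bernoulli'_of_ne_one (by norm_num), bernoulli'_four]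

theorem b5' : bernoulli' 5 = 0 := by
  rw [bernoulli'_def]
  norm_num [Finset.sum_range_succ, Nat.choose, bernoulli'_zero, bernoulli'_one, bernoulli'_two,
    bernoulli'_three, bernoulli'_four]

theorem b5 : _root_.bernoulli 5 = 0 := by
  rw [bernoulli_eq_bernoulli'_of_ne_one (by norm_num), b5']

theorem b6 : _root_.bernoulli 6 = 1 / 42 := by
  rw [bernoulli_eq_bernoulli'_of_ne_one (by norm_num), bernoulli'_def]
  norm_num [Finset.sum_range_succ, Nat.choose, bernoulli'_zero, bernoulli'_one, bernoulli'_two,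
    bernoulli'_three, bernoulli'_four, b5']

/-- the coefficients of `tau F` -/
theorem coeff_tau (n : ℕ) (f : ℕ → ℤ) (k : ℕ) :
    PowerSeries.coeff k (SDV.tau (∑ i ∈ Finset.range n,
      Polynomial.C (f i) * Polynomial.X ^ i)) =
      ∑ i ∈ Finset.range n, (f i : ℂ) * ((-(i : ℂ)) ^ k / (k.factorial : ℂ)) := by
  have h0 : ∀ i : ℕ, (SDV.eu (-1)) ^ i = SDV.eu (-(i : ℂ)) := by
    intro i
    have h1 := (SDV.pT2 0).2.2.2 i
    rw [← h1]
    unfold SDV.tau
    rw [map_pow, Polynomial.aeval_X]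
  unfold SDV.tau
  rw [map_sum, map_sum]
  refine Finset.sum_congr rfl fun i _ => ?_
  have h2 : algebraMap ℤ (PowerSeries ℂ) (f i) = PowerSeries.C (f i : ℂ) := by simp
  rw [map_mul, Polynomial.aeval_C, map_pow, Polynomial.aeval_X, h0, h2, PowerSeries.coeff_C_mul]
  unfold SDV.eu
  rw [PowerSeries.coeff_rescale, PowerSeries.coeff_exp]
  simp [div_eq_mul_inv]

/-- the coefficients of `(1 - X)^4 (1 + a X + b X^2 + a X^3 + X^4)` -/
def cf (a b : ℤ) : ℕ → ℤ
  | 0 => 1
  | 1 => a - 4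
  | 2 => b - 4 * a + 6
  | 3 => 7 * a - 4 * b - 4
  | 4 => 2 - 8 * a + 6 * b
  | 5 => 7 * a - 4 * b - 4
  | 6 => b - 4 * a + 6
  | 7 => a - 4
  | 8 => 1
  | _ => 0

theorem poly_eq (a b : ℤ) : ((1 - Polynomial.X) ^ 4 *
      (1 + Polynomial.C a * Polynomial.X + Polynomial.C b * Polynomial.X ^ 2 +
        Polynomial.C a * Polynomial.X ^ 3 + Polynomial.X ^ 4) : Polynomial ℤ) =
      ∑ i ∈ Finset.range 9, Polynomial.C (cf a b i) * Polynomial.X ^ i := by
  simp only [Finset.sum_range_succ, Finset.sum_range_zero, cf, map_sub, map_add, map_mul,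
    Polynomial.C_ofNat, map_one]
  ring

/-- Newton's identities for `e_1 = 8` -/
theorem newton (x : Fin 4 → ℂ) (s2 s4 s6 D : ℂ) (h1 : ∑ l, x l ^ 1 = 8) (h2 : ∑ l, x l ^ 2 = s2)
    (h4 : ∑ l, x l ^ 4 = s4) (h6 : ∑ l, x l ^ 6 = s6) (hE : ∏ l, x l = D) :
    ∃ e2 e3 : ℂ, s2 = 64 - 2 * e2 ∧ s4 = 4096 - 256 * e2 + 2 * e2 ^ 2 + 32 * e3 - 4 * D ∧
      s6 = 262144 - 24576 * e2 + 3072 * e3 + 576 * e2 ^ 2 - 384 * D - 96 * e2 * e3 -
        2 * e2 ^ 3 + 3 * e3 ^ 2 + 6 * e2 * D := by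
  rw [Fin.sum_univ_four] at h1 h2 h4 h6
  rw [Fin.prod_univ_four] at hE
  have hx : x 3 = 8 - x 0 - x 1 - x 2 := by linear_combination h1
  refine ⟨x 0 * x 1 + x 0 * x 2 + x 0 * x 3 + x 1 * x 2 + x 1 * x 3 + x 2 * x 3,
    x 0 * x 1 * x 2 + x 0 * x 1 * x 3 + x 0 * x 2 * x 3 + x 1 * x 2 * x 3, ?_, ?_, ?_⟩
  · rw [← h2, hx]
    ring
  · rw [← h4, ← hE, hx]
    ring
  · rw [← h6, ← hE, hx]
    ring

/-- the contradiction from the power sums -/
theorem contra (x : Fin 4 → ℂ) (s2 s4 s6 D : ℂ) (h1 : ∑ l, x l ^ 1 = 8) (h2 : ∑ l, x l ^ 2 = s2)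
    (h4 : ∑ l, x l ^ 4 = s4) (h6 : ∑ l, x l ^ 6 = s6) (hE : ∏ l, x l = D) (e2 e3 : ℂ)
    (he2 : e2 = (64 - s2) / 2) (he3 : e3 = (s4 - 4096 + 256 * e2 - 2 * e2 ^ 2 + 4 * D) / 32)
    (hne : s6 ≠ 262144 - 24576 * e2 + 3072 * e3 + 576 * e2 ^ 2 - 384 * D - 96 * e2 * e3 -
        2 * e2 ^ 3 + 3 * e3 ^ 2 + 6 * e2 * D) : False := by
  obtain ⟨f2, f3, g2, g4, g6⟩ := newton x s2 s4 s6 D h1 h2 h4 h6 hE
  have k2 : f2 = e2 := by
    rw [he2]
    linear_combination (1 / 2) * g2
  subst k2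
  have k3 : f3 = e3 := by
    rw [he3]
    linear_combination (-1 / 32) * g4
  subst k3
  exact hne g6

end Num4Aux

open Num4Aux in
theorem qNum4 (h : S_Rec) : S_Num4 := by
  intro a b m x hm ha hlo hhi hdiv
  have hP := SDV.pPr 4 m _ x (by omega) hdiv
  have hrec := h 4 m _ x hdiv
  have hpe := poly_eq (a : ℤ) (b : ℤ)
  set A : ℂ := (a : ℂ) with hA
  set B : ℂ := (b : ℂ) with hB
  set t : ℕ → ℂ := fun k => PowerSeries.coeff k (SDV.tau ((1 - Polynomial.X) ^ 4 *
      (1 + Polynomial.C (a : ℤ) * Polynomial.X + Polynomial.C (b : ℤ) * Polynomial.X ^ 2 +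
        Polynomial.C (a : ℤ) * Polynomial.X ^ 3 + Polynomial.X ^ 4))) with ht
  have hD : ∏ l, x l = 2 + 2 * A + B := by
    rw [hP]
    simp
    ring
  have hc : ∀ k, t k = ∑ i ∈ Finset.range 9, (cf a b i : ℂ) *
      ((-(i : ℂ)) ^ k / (k.factorial : ℂ)) := by
    intro k
    rw [ht]
    simp only
    rw [hpe, coeff_tau]
  have t0 : t 0 = 0 := by
    rw [hc]
    simp only [Finset.sum_range_succ, Finset.sum_range_zero, cf, Nat.factorial]
    push_cast
    ring
  have t1 : t 1 = 0 := by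
    rw [hc]
    simp only [Finset.sum_range_succ, Finset.sum_range_zero, cf, Nat.factorial]
    push_cast
    ring
  have t2 : t 2 = 0 := by
    rw [hc]
    simp only [Finset.sum_range_succ, Finset.sum_range_zero, cf, Nat.factorial]
    push_cast
    ring
  have t3 : t 3 = 0 := by
    rw [hc]
    simp only [Finset.sum_range_succ, Finset.sum_range_zero, cf, Nat.factorial]
    push_cast
    ring
  have t4 : t 4 = 2 + 2 * A + B := by
    rw [hc]
    simp only [Finset.sum_range_succ, Finset.sum_range_zero, cf, Nat.factorial]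
    push_cast
    ring
  have t5 : t 5 = -8 - 8 * A - 4 * B := by
    rw [hc]
    simp only [Finset.sum_range_succ, Finset.sum_range_zero, cf, Nat.factorial]
    push_cast
    ring
  have t6 : t 6 = 61 / 3 + 52 / 3 * A + 49 / 6 * B := by
    rw [hc]
    simp only [Finset.sum_range_succ, Finset.sum_range_zero, cf, Nat.factorial]
    push_cast
    ring
  have t7 : t 7 = -116 / 3 - 80 / 3 * A - 34 / 3 * B := by
    rw [hc]
    simp only [Finset.sum_range_succ, Finset.sum_range_zero, cf, Nat.factorial]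
    push_cast
    ring
  have t8 : t 8 = 2321 / 40 + 1291 / 40 * A + 961 / 80 * B := by
    rw [hc]
    simp only [Finset.sum_range_succ, Finset.sum_range_zero, cf, Nat.factorial]
    push_cast
    ring
  have t9 : t 9 = -1285 / 18 - 583 / 18 * A - 373 / 36 * B := by
    rw [hc]
    simp only [Finset.sum_range_succ, Finset.sum_range_zero, cf, Nat.factorial]
    push_cast
    ring
  have t10 : t 10 = 1122677 / 15120 + 210397 / 7560 * A + 228833 / 30240 * B := by
    rw [hc]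
    simp only [Finset.sum_range_succ, Finset.sum_range_zero, cf, Nat.factorial]
    push_cast
    ring
  have hr : ∀ k, k < m → (k : ℂ) * t k = ∑ j ∈ Finset.range (k + 1), t (k - j) *
        (((_root_.bernoulli j : ℚ) : ℂ) / (j.factorial : ℂ) * ∑ l, x l ^ j) := hrec
  have z0 : ∑ l : Fin 4, x l ^ 0 = 4 := by simp
  have r5 := hr 5 (by omega)
  have r6 := hr 6 (by omega)
  have r8 := hr 8 (by omega)
  have r10 := hr 10 (by omega)
  simp only [Finset.sum_range_succ, Finset.sum_range_zero, Nat.reduceSub, t0, t1, t2, t3, b3, b4,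
    b5, b6, bernoulli_zero, bernoulli_one, bernoulli_two, Nat.factorial, z0] at r5 r6 r8 r10
  set s1 : ℂ := ∑ l, x l ^ 1 with hs1
  set s2 : ℂ := ∑ l, x l ^ 2 with hs2
  set s4 : ℂ := ∑ l, x l ^ 4 with hs4
  set s6 : ℂ := ∑ l, x l ^ 6 with hs6
  push_cast at r5 r6 r8 r10
  have hcase : (a = 4 ∧ b = 4) ∨ (a = 4 ∧ b = 5) ∨ (a = 5 ∧ b = 2) ∨ (a = 5 ∧ b = 3) ∨
      (a = 6 ∧ b = 0) ∨ (a = 6 ∧ b = 1) := by omega
  have hD0 : 2 + 2 * A + B ≠ 0 := by
    rw [hA, hB]
    exact_mod_cast (show 2 + 2 * a + b ≠ 0 by omega)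
  have k1 : s1 = 8 := by
    rw [t4, t5] at r5
    have h1 : (2 + 2 * A + B) * (s1 - 8) = 0 := by linear_combination 2 * r5
    rcases mul_eq_zero.1 h1 with h2 | h2
    · exact absurd h2 hD0
    · linear_combination h2
  have k2 : (2 + 2 * A + B) * s2 = 12 * (2 * t 6 + 4 * t 5) := by
    rw [t4, k1] at r6
    linear_combination (-12) * r6
  have k4 : (2 + 2 * A + B) * s4 = 720 * (-4 * t 8 - 4 * t 7 + t 6 * s2 / 12) := by
    rw [t4, k1] at r8
    linear_combination 720 * r8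
  have k6 : (2 + 2 * A + B) * s6 = 30240 * (6 * t 10 + 4 * t 9 - t 8 * s2 / 12 +
      t 6 * s4 / 720) := by
    rw [t4, k1] at r10
    linear_combination (-30240) * r10
  have fin : ∀ D v2 v4 v6 : ℂ, 2 + 2 * A + B = D → s2 = v2 → s4 = v4 → s6 = v6 →
      v6 ≠ 262144 - 24576 * ((64 - v2) / 2) +
        3072 * ((v4 - 4096 + 256 * ((64 - v2) / 2) - 2 * ((64 - v2) / 2) ^ 2 + 4 * D) / 32) +
        576 * ((64 - v2) / 2) ^ 2 - 384 * D - 96 * ((64 - v2) / 2) *
        ((v4 - 4096 + 256 * ((64 - v2) / 2) - 2 * ((64 - v2) / 2) ^ 2 + 4 * D) / 32) -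
        2 * ((64 - v2) / 2) ^ 3 +
        3 * ((v4 - 4096 + 256 * ((64 - v2) / 2) - 2 * ((64 - v2) / 2) ^ 2 + 4 * D) / 32) ^ 2 +
        6 * ((64 - v2) / 2) * D → False := by
    intro D v2 v4 v6 g1 g2 g3 g4 g5
    exact contra x v2 v4 v6 D k1 g2 g3 g4 (hD.trans g1) _ _ rfl rfl g5
  rw [t5, t6] at k2
  rw [t6, t7, t8] at k4
  rw [t6, t8, t9, t10] at k6
  rcases hcase with ⟨ha', hb'⟩ | ⟨ha', hb'⟩ | ⟨ha', hb'⟩ | ⟨ha', hb'⟩ | ⟨ha', hb'⟩ | ⟨ha', hb'⟩
  · have hA' : A = 4 := by rw [hA, ha']; norm_num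
    have hB' : B = 4 := by rw [hB, hb']; norm_num
    rw [hA', hB'] at k2 k4 k6
    have w2 : s2 = 124 / 7 := by linear_combination (1 / 14) * k2
    rw [w2] at k4 k6
    have w4 : s4 = 6436 / 49 := by linear_combination (1 / 14) * k4
    rw [w4] at k6
    have w6 : s6 = 68308 / 49 := by linear_combination (1 / 14) * k6
    exact fin 14 _ _ _ (by rw [hA', hB']; norm_num) w2 w4 w6 (by norm_num)
  · have hA' : A = 4 := by rw [hA, ha']; norm_num
    have hB' : B = 5 := by rw [hB, hb']; norm_num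
    rw [hA', hB'] at k2 k4 k6
    have w2 : s2 = 84 / 5 := by linear_combination (1 / 15) * k2
    rw [w2] at k4 k6
    have w4 : s4 = 468 / 5 := by linear_combination (1 / 15) * k4
    rw [w4] at k6
    have w6 : s6 = 17796 / 25 := by linear_combination (1 / 15) * k6
    exact fin 15 _ _ _ (by rw [hA', hB']; norm_num) w2 w4 w6 (by norm_num)
  · have hA' : A = 5 := by rw [hA, ha']; norm_num
    have hB' : B = 2 := by rw [hB, hb']; norm_num
    rw [hA', hB'] at k2 k4 k6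
    have w2 : s2 = 136 / 7 := by linear_combination (1 / 14) * k2
    rw [w2] at k4 k6
    have w4 : s4 = 11716 / 49 := by linear_combination (1 / 14) * k4
    rw [w4] at k6
    have w6 : s6 = 194812 / 49 := by linear_combination (1 / 14) * k6
    exact fin 14 _ _ _ (by rw [hA', hB']; norm_num) w2 w4 w6 (by norm_num)
  · have hA' : A = 5 := by rw [hA, ha']; norm_num
    have hB' : B = 3 := by rw [hB, hb']; norm_num
    rw [hA', hB'] at k2 k4 k6
    have w2 : s2 = 92 / 5 := by linear_combination (1 / 15) * k2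
    rw [w2] at k4 k6
    have w4 : s4 = 932 / 5 := by linear_combination (1 / 15) * k4
    rw [w4] at k6
    have w6 : s6 = 67132 / 25 := by linear_combination (1 / 15) * k6
    exact fin 15 _ _ _ (by rw [hA', hB']; norm_num) w2 w4 w6 (by norm_num)
  · have hA' : A = 6 := by rw [hA, ha']; norm_num
    have hB' : B = 0 := by rw [hB, hb']; norm_num
    rw [hA', hB'] at k2 k4 k6
    have w2 : s2 = 148 / 7 := by linear_combination (1 / 14) * k2
    rw [w2] at k4 k6
    have w4 : s4 = 17716 / 49 := by linear_combination (1 / 14) * k4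
    rw [w4] at k6
    have w6 : s6 = 372076 / 49 := by linear_combination (1 / 14) * k6
    exact fin 14 _ _ _ (by rw [hA', hB']; norm_num) w2 w4 w6 (by norm_num)
  · have hA' : A = 6 := by rw [hA, ha']; norm_num
    have hB' : B = 1 := by rw [hB, hb']; norm_num
    rw [hA', hB'] at k2 k4 k6
    have w2 : s2 = 20 := by linear_combination (1 / 15) * k2
    rw [w2] at k4 k6
    have w4 : s4 = 292 := by linear_combination (1 / 15) * k4
    rw [w4] at k6
    have w6 : s6 = 5492 := by linear_combination (1 / 15) * k6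
    exact fin 15 _ _ _ (by rw [hA', hB']; norm_num) w2 w4 w6 (by norm_num)

end Pool.Agent.Lib.MP_776403_ag.SD.Q1
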