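import Pool.Agent.Lib.MP_776403_ag.SD.Q1.Base
import Pool.Agent.Lib.MP_776403_ag.SD.Q1.Cut

/-!
# THEOREM Q1: the rank of a quadric through `X`
-/

set_option autoImplicit false

open MvPolynomial

noncomputable section

namespace Pool.Agent.Lib.MP_776403_ag.SD.Q1

theorem qRK : S_RK := by
  classical
  intro N c d I hyp Q hQ hQh hQ0
  obtain ⟨y1, hy1, hy10⟩ := mNe N c d I hyp
  -- (1) a point where `Q` is smooth
  obtain ⟨z0, hz0, hz00, hξ0⟩ : ∃ z0 ∈ zer I, z0 ≠ 0 ∧ grad Q z0 ≠ 0 := by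
    by_contra hcon
    push Not at hcon
    apply hQ0
    have h2 : ∀ j, pderiv j Q = 0 := fun j => by
      refine hyp.nd _ ?_ hQh.pderiv
      refine (tNull N I hyp.prime hyp.hom).2 ⟨y1, hy1, hy10⟩ _ 1 hQh.pderiv ?_
      intro z hz hz0
      exact congrFun (hcon z hz hz0) j
    have h3 := hQh.sum_X_mul_pderiv
    simp only [h2, mul_zero, Finset.sum_const_zero] at h3
    have h4 : (2 : ℂ) • Q = 0 := by
      rw [two_smul, ← two_nsmul]
      exact h3.symm
    exact (smul_eq_zero.1 h4).resolve_left two_ne_zero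
  set ξ := grad Q z0 with hξ
  obtain ⟨k, hk⟩ : ∃ k, ξ k ≠ 0 := Function.ne_iff.1 hξ0
  -- (2) the linear forms
  let lam : Fin (N + 1) → Sx N := fun j => C (ξ k) * pderiv j Q - C (ξ j) * pderiv k Q
  set Λ : Submodule ℂ (Sx N) := Submodule.span ℂ (Set.range lam) with hΛ
  have hΛle : Λ ≤ VQ Q := by
    refine Submodule.span_le.2 ?_
    rintro _ ⟨j, rfl⟩
    refine Submodule.sub_mem _ ?_ ?_
    · rw [← smul_eq_C_mul]
      exact Submodule.smul_mem _ _ (Submodule.subset_span ⟨j, rfl⟩)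
    · rw [← smul_eq_C_mul]
      exact Submodule.smul_mem _ _ (Submodule.subset_span ⟨k, rfl⟩)
  have hVfin : Module.Finite ℂ (VQ Q) := Module.Finite.span_of_finite ℂ (Set.finite_range _)
  have hΛz : ∀ R ∈ Λ, eval z0 R = 0 := by
    have h1 : Λ ≤ LinearMap.ker (aeval z0 : Sx N →ₐ[ℂ] ℂ).toLinearMap := by
      refine Submodule.span_le.2 ?_
      rintro _ ⟨j, rfl⟩
      show aeval z0 (lam j) = 0
      rw [aeval_eq_eval]
      show eval z0 (C (ξ k) * pderiv j Q - C (ξ j) * pderiv k Q) = 0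
      rw [map_sub, map_mul, map_mul, eval_C, eval_C]
      show ξ k * ξ j - ξ j * ξ k = 0
      ring
    intro R hR
    have h2 := h1 hR
    have h3 : aeval z0 R = 0 := h2
    rwa [aeval_eq_eval] at h3
  have hlt : Λ < VQ Q := by
    refine lt_of_le_of_ne hΛle fun heq => ?_
    have h1 : pderiv k Q ∈ Λ := by
      rw [heq]
      exact Submodule.subset_span ⟨k, rfl⟩
    exact hk (hΛz _ h1)
  have hr : Module.finrank ℂ Λ < Module.finrank ℂ (VQ Q) := Submodule.finrank_lt_finrank_of_lt hlt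
  have hΛfin : Module.Finite ℂ Λ := Module.Finite.span_of_finite ℂ (Set.finite_range _)
  let bΛ := Module.finBasis ℂ Λ
  have hVh : ∀ R ∈ VQ Q, R.IsHomogeneous 1 := fun R hR => by
    have : VQ Q ≤ homogeneousSubmodule (Fin (N + 1)) ℂ 1 := by
      refine Submodule.span_le.2 ?_
      rintro _ ⟨j, rfl⟩
      exact hQh.pderiv
    exact this hR
  -- (3) the locus where `grad Q` is parallel to `ξ`
  obtain ⟨P, hP, hPh, hIP, hbP, hPz, hPd⟩ := qCutF hyp.smooth hyp.hom hz0 hz00
    (fun i => (bΛ i : Sx N)) (fun _ => 1) (fun i => hVh _ (hΛle (bΛ i).2))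
    (fun i => hΛz _ (bΛ i).2)
  have hz0P : z0 ∈ zer P := fun R hR => RingHom.mem_ker.1 (hPz hR)
  have hΛP : ∀ R ∈ Λ, R ∈ P := by
    intro R hR
    have h1 := bΛ.sum_repr ⟨R, hR⟩
    have h2 := congrArg (Subtype.val) h1
    rw [AddSubmonoidClass.coe_finsetSum] at h2
    have h3 : R = ∑ i, C (bΛ.repr ⟨R, hR⟩ i) * (bΛ i : Sx N) := by
      refine Eq.trans h2.symm ?_
      exact Finset.sum_congr rfl fun i _ => by rw [Submodule.coe_smul, smul_eq_C_mul]
    rw [h3]
    exact Ideal.sum_mem _ fun i _ => Ideal.mul_mem_left _ _ (hbP i)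
  have hlamP : ∀ j, lam j ∈ P := fun j => hΛP _ (Submodule.subset_span ⟨j, rfl⟩)
  have hkP : pderiv k Q ∉ P := fun h' => hk (hz0P _ h')
  -- (4) the constant section
  have hCN : ∀ y ∈ zer P, y ≠ 0 → ξ ∈ CN I y := by
    intro y hy hy0
    have hyI : y ∈ zer I := fun F hF => hy F (hIP hF)
    refine (mPerp N c I hyp.prime hyp.hom hyp.smooth y hyI hy0).2.2.2 ξ ?_
    intro w hw m hwm
    set T : Sx N := ∑ i, C (ξ i) * w i with hT
    have h1 : pderiv k Q * T ∈ P := by
      have h2 : pderiv k Q * T = C (ξ k) * ∑ j, pderiv j Q * w j - ∑ j, lam j * w j := by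
        rw [hT, Finset.mul_sum, Finset.mul_sum, ← Finset.sum_sub_distrib]
        refine Finset.sum_congr rfl fun j _ => ?_
        show _ = _ - (C (ξ k) * pderiv j Q - C (ξ j) * pderiv k Q) * w j
        ring
      rw [h2]
      refine Ideal.sub_mem _ (Ideal.mul_mem_left _ _ (hIP (hw Q hQ))) ?_
      exact Ideal.sum_mem _ fun j _ => Ideal.mul_mem_right _ _ (hlamP j)
    have h3 := hy T ((hP.mem_or_mem h1).resolve_left hkP)
    rw [hT, map_sum] at h3
    rw [← h3]
    exact Finset.sum_congr rfl fun i _ => by rw [map_mul, eval_C]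
  have hsect : IsSect I P 1 (fun _ => ξ) := by
    intro y hy hy0
    refine ⟨hCN y hy hy0, fun l => C (ξ l), 1, 0, fun l => ?_, isHomogeneous_one _ _, ?_,
      fun z _ _ l => ?_⟩
    · exact isHomogeneous_C _ _
    · rw [map_one]
      exact one_ne_zero
    · rw [map_one, mul_one, eval_C]
  -- (5) Lemma N
  have hN := mN2f N c d I hyp.prime hyp.hom hyp.smooth P hP hPh hIP c hyp.pos
    (hyp.numW P hP hPh hIP) 0 (fun _ _ => ξ) (fun _ => 1) Fin.elim0 (fun _ => hsect)
    (fun _ => le_rfl) (fun y _ _ => by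
      rw [Fintype.linearIndependent_iff]
      intro g hg i
      have h1 : g 0 • ξ = 0 := by simpa using hg
      have h2 := (smul_eq_zero.1 h1).resolve_right hξ0
      have h3 : i = 0 := Fin.eq_zero i
      rw [h3]
      exact h2)
    (fun i => i.elim0) (fun i => i.elim0) (fun j _ => by
      have := hyp.two_le j
      omega)
  by_contra hlt'
  exact hN (tMono _ P _ _ (by omega) hPd)

end Pool.Agent.Lib.MP_776403_ag.SD.Q1
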